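import Pool.Agent.Helper859.Stk.Defs
set_option linter.all false
open Metric Set Filter Topology

namespace Pool.Agent.Helper859.Stk

theorem fac {t : ℂ} (ht : t ^ 2 = -7) (x y : ℂ) : pS t x - pS (-t) y = hh t x y * h4 t x y := by
  unfold pS hh h4
  linear_combination ((343 / 8) * t * x ^ 4 + (1029 / 8) * t * x ^ 3 + (1029 / 8) * t * x ^ 2 + (343 / 8) * t * x + (343 / 8) * t * y ^ 4 + (1029 / 8) * t * y ^ 3 + (1029 / 8) * t * y ^ 2 + (343 / 8) * t * y + (1 / 4) * x ^ 5 * y ^ 2 + (9 / 4) * x ^ 5 * y + (57 / 4) * x ^ 5 + (1 / 4) * x ^ 4 * y ^ 3 + (21 / 4) * x ^ 4 * y ^ 2 + (69 / 4) * x ^ 4 * y + (357 / 8) * x ^ 4 + (-1 / 4) * x ^ 3 * y ^ 4 + (51 / 4) * x ^ 3 * y ^ 2 + (-21 / 4) * x ^ 3 * y + (-1953 / 8) * x ^ 3 + (-1 / 4) * x ^ 2 * y ^ 5 + (-21 / 4) * x ^ 2 * y ^ 4 + (-51 / 4) * x ^ 2 * y ^ 3 + (-63 / 2) * x ^ 2 * y + (-6321 / 8) * x ^ 2 + (-9 / 4) * x * y ^ 5 + (-69 / 4) * x *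 y ^ 4 + (21 / 4) * x * y ^ 3 + (63 / 2) * x * y ^ 2 + (-6125 / 8) * x + (-57 / 4) * y ^ 5 + (-357 / 8) * y ^ 4 + (1953 / 8) * y ^ 3 + (6321 / 8) * y ^ 2 + (6125 / 8) * y) * ht

/-- the quadratic polynomial vanishing at the triple roots -/
noncomputable def qq (t x : ℂ) : ℂ := x ^ 2 + 7 * ((1 + t) / 2) * x + 7 * ((1 + t) / 2 - 3)
/-- the quadratic polynomial vanishing at the other critical points -/
noncomputable def rr (t x : ℂ) : ℂ := x ^ 2 + 4 * ((1 + t) / 2) * x + ((1 + t) / 2 - 3)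

theorem pS_eq (t x : ℂ) : pS t x = x * qq t x ^ 3 := rfl

theorem pS_deriv (t x : ℂ) : HasDerivAt (pS t) (7 * qq t x ^ 2 * rr t x) x := by
  have h1 : HasDerivAt (fun x : ℂ => x * (x ^ 2 + 7 * ((1 + t) / 2) * x + 7 * ((1 + t) / 2 - 3)) ^ 3)
      (1 * (x ^ 2 + 7 * ((1 + t) / 2) * x + 7 * ((1 + t) / 2 - 3)) ^ 3 +
        x * (3 * (x ^ 2 + 7 * ((1 + t) / 2) * x + 7 * ((1 + t) / 2 - 3)) ^ 2 *
          (2 * x + 7 * ((1 + t) / 2)))) x := by
    have h2 : HasDerivAt (fun x : ℂ => x ^ 2 + 7 * ((1 + t) / 2) * x + 7 * ((1 + t) / 2 - 3))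
        (2 * x + 7 * ((1 + t) / 2)) x := by
      have := (((hasDerivAt_pow 2 x).add ((hasDerivAt_id x).const_mul (7 * ((1 + t) / 2)))).add_const
        (7 * ((1 + t) / 2 - 3)))
      refine this.congr_deriv ?_
      push_cast; ring
    have h3 := h2.pow 3
    have h4 := (hasDerivAt_id x).mul h3
    refine h4.congr_deriv ?_
    simp only [id, Nat.cast_ofNat, Nat.add_one_sub_one, Nat.reduceSub, Pi.pow_apply]
  have e : (7 * qq t x ^ 2 * rr t x) = (1 * (x ^ 2 + 7 * ((1 + t) / 2) * x + 7 * ((1 + t) / 2 - 3)) ^ 3 +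
        x * (3 * (x ^ 2 + 7 * ((1 + t) / 2) * x + 7 * ((1 + t) / 2 - 3)) ^ 2 *
          (2 * x + 7 * ((1 + t) / 2)))) := by
    unfold qq rr; ring
  rw [e]; exact h1

theorem pS_sub {t : ℂ} (ht : t ^ 2 = -7) (x : ℂ) : pS t x - 1728 = rr t x *
    ((17 / 2) * t * x ^ 4 + (99 / 2) * t * x ^ 3 + (-421 / 2) * t * x ^ 2 + (-959 / 2) * t * x + (108) * t + (1) * x ^ 5 + (17 / 2) * x ^ 4 + (-337 / 2) * x ^ 3 + (-1317 / 2) * x ^ 2 + (1683 / 2) * x + (540)) := by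
  unfold pS rr
  linear_combination ((343 / 8) * t * x ^ 4 + (1029 / 8) * t * x ^ 3 + (1029 / 8) * t * x ^ 2 + (343 / 8) * t * x + (79 / 4) * x ^ 5 + (791 / 8) * x ^ 4 + (377 / 8) * x ^ 3 + (-747 / 8) * x ^ 2 + (-4955 / 8) * x + (-54)) * ht

/-- the value at a critical point is `0` or `1728` -/
theorem crit {t : ℂ} (ht : t ^ 2 = -7) {x : ℂ} (h : 7 * qq t x ^ 2 * rr t x = 0) :
    pS t x = 0 ∨ pS t x = 1728 := by
  rcases mul_eq_zero.1 h with h | h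
  · left
    rw [pS_eq]
    have : qq t x = 0 := by
      rcases mul_eq_zero.1 h with h | h
      · norm_num at h
      · exact pow_eq_zero_iff (two_ne_zero) |>.1 h
    rw [this]; ring
  · right
    have := pS_sub ht x
    rw [h] at this
    linear_combination this

theorem hh_symm (t x y : ℂ) : hh (-t) y x = - hh t x y := by
  unfold hh; ring

end Pool.Agent.Helper859.Stk
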