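import Mathlib
set_option linter.all false
open Metric Set Filter Topology

namespace Pool.Agent.Helper859.Stk

/-- `ν` is the outward unit normal of `Ω` at the point `p`: `ν` is a unit vector and, up to directions
which make an arbitrarily small angle with the tangent line, the points near `p` on the side of `-ν`
belong to `Ω` and the points near `p` on the side of `ν` do not.  (`re (conj ν * (z - p))` is the real
inner product of `ν` and `z - p`.) -/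
def IsOuterNormal (Ω : Set ℂ) (p ν : ℂ) : Prop :=
  ‖ν‖ = 1 ∧ ∀ ε : ℝ, 0 < ε → ∃ δ : ℝ, 0 < δ ∧ ∀ z : ℂ, ‖z - p‖ < δ →
    (((starRingEnd ℂ) ν * (z - p)).re < -(ε * ‖z - p‖) → z ∈ Ω) ∧
    (ε * ‖z - p‖ < ((starRingEnd ℂ) ν * (z - p)).re → z ∉ Ω)

/-- `u` is harmonic in `Ω`, `C^1` up to the boundary (`v` and `D` are the continuous extensions of `u`
and of its derivative to the closure of `Ω`) and satisfies `∂u/∂ν = σ u` on the boundary of `Ω`.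
The function is normalised to be `0` outside `Ω`, so that it is determined by its values in `Ω`. -/
structure IsSteklov (Ω : Set ℂ) (σ : ℝ) (u : ℂ → ℝ) : Prop where
  off : ∀ z, z ∉ Ω → u z = 0
  harm : InnerProductSpace.HarmonicOnNhd u Ω
  ext : ∃ (v : ℂ → ℝ) (D : ℂ → ℂ →L[ℝ] ℝ), ContinuousOn v (closure Ω) ∧
    ContinuousOn D (closure Ω) ∧ (∀ z ∈ Ω, v z = u z ∧ D z = fderiv ℝ u z) ∧
    ∀ p ∈ frontier Ω, ∀ ν : ℂ, IsOuterNormal Ω p ν → D p ν = σ * v p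

/-- The Steklov eigenspace of `Ω` for the real number `σ` (it is `0` unless `σ` is an eigenvalue). -/
def steklovSpace (Ω : Set ℂ) (σ : ℝ) : Submodule ℝ (ℂ → ℝ) where
  carrier := {u | IsSteklov Ω σ u}
  add_mem' := by
    rintro u₁ u₂ ⟨o1, h1, v1, D1, c1, e1, f1, g1⟩ ⟨o2, h2, v2, D2, c2, e2, f2, g2⟩
    refine ⟨fun z hz => by simp [o1 z hz, o2 z hz], fun z hz => (h1 z hz).add (h2 z hz),
      v1 + v2, D1 + D2, c1.add c2, e1.add e2, ?_, ?_⟩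
    · intro z hz
      refine ⟨by simp [(f1 z hz).1, (f2 z hz).1], ?_⟩
      have d1 : DifferentiableAt ℝ u₁ z := (h1 z hz).1.differentiableAt (by norm_num)
      have d2 : DifferentiableAt ℝ u₂ z := (h2 z hz).1.differentiableAt (by norm_num)
      rw [fderiv_add d1 d2, Pi.add_apply, (f1 z hz).2, (f2 z hz).2]
    · intro p hp ν hν
      simp only [Pi.add_apply, ContinuousLinearMap.add_apply, g1 p hp ν hν, g2 p hp ν hν]
      ring
  zero_mem' := by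
    refine ⟨fun _ _ => rfl, fun z hz => ?_, 0, 0, continuousOn_const, continuousOn_const,
      fun z hz => ⟨rfl, by simp⟩, fun p hp ν hν => by simp⟩
    exact InnerProductSpace.harmonicAt_const (0 : ℝ)
  smul_mem' := by
    rintro a u ⟨o1, h1, v1, D1, c1, e1, f1, g1⟩
    refine ⟨fun z hz => by simp [o1 z hz], fun z hz => (h1 z hz).const_smul,
      a • v1, a • D1, c1.const_smul a, e1.const_smul a, ?_, ?_⟩
    · intro z hz
      refine ⟨by simp [(f1 z hz).1], ?_⟩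
      have d1 : DifferentiableAt ℝ u z := (h1 z hz).1.differentiableAt (by norm_num)
      rw [fderiv_const_smul d1, Pi.smul_apply, (f1 z hz).2]
    · intro p hp ν hν
      simp only [Pi.smul_apply, ContinuousLinearMap.smul_apply, g1 p hp ν hν, smul_eq_mul]
      ring

/-- `F` is holomorphic and injective on the disc of radius `3/2`, with derivative `G`. -/
structure Conf (F G : ℂ → ℂ) : Prop where
  dF : ∀ z ∈ ball (0 : ℂ) (3 / 2), HasDerivAt F (G z) z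
  G0 : ∀ z ∈ ball (0 : ℂ) (3 / 2), G z ≠ 0
  iF : InjOn F (ball (0 : ℂ) (3 / 2))

/-- weighted Steklov problem on the unit disc: `Re (z U') = σ W Re U` on the circle. -/
structure DiscStek (W : ℂ → ℝ) (σ : ℝ) (U U' : ℂ → ℂ) : Prop where
  dU : ∀ z ∈ ball (0 : ℂ) 1, HasDerivAt U (U' z) z
  cU : ContinuousOn U (closedBall (0 : ℂ) 1)
  cU' : ContinuousOn U' (closedBall (0 : ℂ) 1)
  bd : ∀ z ∈ sphere (0 : ℂ) 1, (z * U' z).re = σ * W z * (U z).re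

/-- the polynomial of degree 7 -/
noncomputable def pS (t x : ℂ) : ℂ := x * (x ^ 2 + 7 * ((1 + t) / 2) * x + 7 * ((1 + t) / 2 - 3)) ^ 3

/-- the factor of degree 3 of `pS t x - pS (-t) y` -/
noncomputable def hh (t x y : ℂ) : ℂ :=
  x ^ 3 + (1 - t) / 2 * x ^ 2 * y - (1 + t) / 2 * x * y ^ 2 - y ^ 3 + 3 * t * x ^ 2 + 3 * t * y ^ 2
    - 21 * x + 21 * y - 7 * t

/-- the factor of degree 4 of `pS t x - pS (-t) y` -/
noncomputable def h4 (t x y : ℂ) : ℂ :=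
  x ^ 4 + (-1 + t) / 2 * x ^ 3 * y - x ^ 2 * y ^ 2 - (1 + t) / 2 * x * y ^ 3 + y ^ 4
    + (21 + 15 * t) / 2 * x ^ 3 + (-21 + 3 * t) * x ^ 2 * y + (-21 - 3 * t) * x * y ^ 2
    + (21 - 15 * t) / 2 * y ^ 3
    + (-189 + 105 * t) / 2 * x ^ 2 - 105 * x * y + (-189 - 105 * t) / 2 * y ^ 2
    + (-833 - 35 * t) / 2 * x + (-833 + 35 * t) / 2 * y

/-- `hh t · y` as a monic cubic polynomial -/
noncomputable def hc (t y : ℂ) : Polynomial ℂ :=
  Polynomial.X ^ 3 + Polynomial.C ((1 - t) / 2 * y + 3 * t) * Polynomial.X ^ 2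
    + Polynomial.C (-((1 + t) / 2) * y ^ 2 - 21) * Polynomial.X
    + Polynomial.C (-y ^ 3 + 3 * t * y ^ 2 + 21 * y - 7 * t)

/-- sum of `k` over the roots of `hh t · y` -/
noncomputable def rs {E : Type*} [AddCommMonoid E] (t y : ℂ) (k : ℂ → E) : E :=
  ((hc t y).roots.map k).sum

/-- conformal data attached to the domain `{‖p‖ < R}`. -/
structure Dat (p : ℂ → ℂ) (R : ℝ) where
  φ : ℂ → ℂ
  ψ : ℂ → ℂ
  B : ℂ → ℂ
  F : ℂ → ℂ
  G : ℂ → ℂ
  dφ : DifferentiableOn ℂ φ (ball (0 : ℂ) 1)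
  mφ : ∀ z ∈ ball (0 : ℂ) 1, ‖p (φ z)‖ < R
  dψ : DifferentiableOn ℂ ψ {x | ‖p x‖ < R}
  mψ : ∀ x, ‖p x‖ < R → ψ x ∈ ball (0 : ℂ) 1
  φψ : ∀ x, ‖p x‖ < R → φ (ψ x) = x
  ψφ : ∀ z ∈ ball (0 : ℂ) 1, ψ (φ z) = z
  dB : DifferentiableOn ℂ B (ball (0 : ℂ) (3 / 2))
  pB : ∀ z ∈ ball (0 : ℂ) 1, p (φ z) = R * B z
  B1 : ∀ z ∈ sphere (0 : ℂ) 1, ‖B z‖ = 1
  B'0 : ∀ z ∈ sphere (0 : ℂ) 1, deriv B z ≠ 0
  Bo : ∀ z ∈ ball (0 : ℂ) (3 / 2), 1 < ‖z‖ → 1 < ‖B z‖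
  fib : ∀ w ∈ sphere (0 : ℂ) 1, ∃ s : Finset ℂ, s.card = 7 ∧ ∀ z ∈ s, z ∈ sphere (0 : ℂ) 1 ∧ B z = w
  conf : Conf F G
  GB : ∀ z ∈ sphere (0 : ℂ) 1, ‖G z‖ = ‖deriv B z‖

/-- `B` is inner and holomorphic across the circle, `G = F'` has the modulus of `B'` on the circle. -/
structure BD (B F G : ℂ → ℂ) : Prop where
  conf : Conf F G
  dB : DifferentiableOn ℂ B (ball (0 : ℂ) (3 / 2))
  Bi : ∀ z ∈ ball (0 : ℂ) 1, ‖B z‖ < 1
  B1 : ∀ z ∈ sphere (0 : ℂ) 1, ‖B z‖ = 1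
  GB : ∀ z ∈ sphere (0 : ℂ) 1, ‖G z‖ = ‖deriv B z‖

end Pool.Agent.Helper859.Stk
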