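import Pool.Agent.Helper859.Stk.Alg
set_option linter.all false
open Metric Set Filter Topology

namespace Pool.Agent.Helper859.Stk.L02a
open Pool.Agent.Helper859.Stk

theorem outerNormal_of {F G : ℂ → ℂ} (h : Conf F G) {ζ : ℂ} (hζ : ‖ζ‖ = 1) :
    IsOuterNormal (F '' ball (0 : ℂ) 1) (F ζ) (ζ * G ζ / (‖G ζ‖ : ℂ)) := by
  have hζb : ζ ∈ ball (0 : ℂ) (3 / 2) := by
    rw [mem_ball_zero_iff, hζ]; norm_num
  have hG : G ζ ≠ 0 := h.G0 ζ hζb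
  have hc : 0 < ‖G ζ‖ := norm_pos_iff.2 hG
  have hnhds : ball (0 : ℂ) (3 / 2) ∈ 𝓝 ζ := isOpen_ball.mem_nhds hζb
  have hstrict : HasStrictDerivAt F (G ζ) ζ := by
    have hd : DifferentiableOn ℂ F (ball (0 : ℂ) (3 / 2)) :=
      fun z hz => (h.dF z hz).differentiableAt.differentiableWithinAt
    have han : AnalyticAt ℂ F ζ := hd.analyticAt hnhds
    have := han.hasStrictDerivAt
    rwa [(h.dF ζ hζb).deriv] at this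
  have hmap := hstrict.map_nhds_eq hG
  refine ⟨?_, ?_⟩
  · rw [norm_div, norm_mul, hζ, one_mul, Complex.norm_real, norm_norm, div_self hc.ne']
  intro ε hε
  obtain ⟨κ, hκ0, hκ1, hκ2⟩ : ∃ κ : ℝ, 0 < κ ∧ κ ≤ ‖G ζ‖ / 2 ∧ κ ≤ ε * ‖G ζ‖ / 4 :=
    ⟨min (‖G ζ‖ / 2) (ε * ‖G ζ‖ / 4), lt_min (by positivity) (by positivity),
      min_le_left _ _, min_le_right _ _⟩
  have hlit : ∀ᶠ z in 𝓝 ζ, ‖F z - F ζ - (z - ζ) • G ζ‖ ≤ κ * ‖z - ζ‖ := by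
    have := (hasDerivAt_iff_isLittleO.1 (h.dF ζ hζb)).def hκ0
    exact this
  have hev : ∀ᶠ z in 𝓝 ζ, z ∈ ball (0 : ℂ) (3 / 2) ∧
      ‖F z - F ζ - (z - ζ) • G ζ‖ ≤ κ * ‖z - ζ‖ ∧ ‖z - ζ‖ < ε / 2 := by
    refine (Filter.eventually_of_mem hnhds (fun z hz => hz)).and (hlit.and ?_)
    filter_upwards [ball_mem_nhds ζ (show 0 < ε / 2 by positivity)] with z hz
    rwa [mem_ball_iff_norm] at hz
  have hev2 : F '' {z | z ∈ ball (0 : ℂ) (3 / 2) ∧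
      ‖F z - F ζ - (z - ζ) • G ζ‖ ≤ κ * ‖z - ζ‖ ∧ ‖z - ζ‖ < ε / 2} ∈ 𝓝 (F ζ) := by
    rw [← hmap]
    exact image_mem_map hev
  obtain ⟨δ, hδ, hδs⟩ := Metric.mem_nhds_iff.1 hev2
  refine ⟨δ, hδ, fun w hw => ?_⟩
  obtain ⟨z, ⟨hz1, hz2, hz3⟩, rfl⟩ := hδs (by rwa [mem_ball_iff_norm] : w ∈ ball (F ζ) δ)
  set d := z - ζ with hd
  set e := F z - F ζ - d • G ζ with he
  have hFe : F z - F ζ = d * G ζ + e := by rw [he, smul_eq_mul]; ring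
  -- the real part
  have hconj : (starRingEnd ℂ) (G ζ) * G ζ = ((‖G ζ‖ ^ 2 : ℝ) : ℂ) := by
    rw [mul_comm, Complex.mul_conj, Complex.normSq_eq_norm_sq]
  have hcc : ((‖G ζ‖ : ℝ) : ℂ) ≠ 0 := by exact_mod_cast hc.ne'
  have hre : ((starRingEnd ℂ) (ζ * G ζ / (‖G ζ‖ : ℂ)) * (F z - F ζ)).re =
      ‖G ζ‖ * ((starRingEnd ℂ) ζ * d).re +
        ((starRingEnd ℂ) (ζ * G ζ / (‖G ζ‖ : ℂ)) * e).re := by
    rw [hFe, mul_add, Complex.add_re]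
    congr 1
    have : (starRingEnd ℂ) (ζ * G ζ / (‖G ζ‖ : ℂ)) * (d * G ζ) =
        ((‖G ζ‖ : ℝ) : ℂ) * ((starRingEnd ℂ) ζ * d) := by
      rw [map_div₀, map_mul, Complex.conj_ofReal]
      have h2 : (starRingEnd ℂ) ζ * (starRingEnd ℂ) (G ζ) / ((‖G ζ‖ : ℝ) : ℂ) * (d * G ζ) =
        (starRingEnd ℂ) ζ * d * ((starRingEnd ℂ) (G ζ) * G ζ) / ((‖G ζ‖ : ℝ) : ℂ) := by ring
      rw [h2, hconj]
      push_cast
      field_simp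
    rw [this, Complex.re_ofReal_mul]
  have hνn : ‖(starRingEnd ℂ) (ζ * G ζ / (‖G ζ‖ : ℂ))‖ = 1 := by
    rw [RCLike.norm_conj, norm_div, norm_mul, hζ, one_mul, Complex.norm_real, norm_norm,
      div_self hc.ne']
  have hee : |((starRingEnd ℂ) (ζ * G ζ / (‖G ζ‖ : ℂ)) * e).re| ≤ κ * ‖d‖ := by
    refine (Complex.abs_re_le_norm _).trans ?_
    rw [norm_mul, hνn, one_mul]
    exact hz2
  rw [abs_le] at hee
  have hwp : ‖G ζ‖ / 2 * ‖d‖ ≤ ‖F z - F ζ‖ := by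
    have h1 : ‖d * G ζ‖ ≤ ‖F z - F ζ‖ + ‖e‖ := by
      have : d * G ζ = (F z - F ζ) - e := by rw [hFe]; ring
      rw [this]
      exact norm_sub_le _ _
    rw [norm_mul] at h1
    have h2 : κ * ‖d‖ ≤ ‖G ζ‖ / 2 * ‖d‖ := mul_le_mul_of_nonneg_right hκ1 (norm_nonneg _)
    have h3 : ‖e‖ ≤ κ * ‖d‖ := hz2
    nlinarith
  have hκd : κ * ‖d‖ ≤ ε * ‖G ζ‖ / 4 * ‖d‖ := mul_le_mul_of_nonneg_right hκ2 (norm_nonneg _)
  have hεwp : ε * (‖G ζ‖ / 2 * ‖d‖) ≤ ε * ‖F z - F ζ‖ := mul_le_mul_of_nonneg_left hwp hε.le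
  have hzsq : ‖z‖ ^ 2 = 1 + 2 * ((starRingEnd ℂ) ζ * d).re + ‖d‖ ^ 2 := by
    have hz : z = ζ + d := by rw [hd]; ring
    rw [hz]
    have h1 : ‖ζ + d‖ ^ 2 = ‖ζ‖ ^ 2 + 2 * ((starRingEnd ℂ) ζ * d).re + ‖d‖ ^ 2 := by
      rw [← Complex.normSq_eq_norm_sq, ← Complex.normSq_eq_norm_sq, ← Complex.normSq_eq_norm_sq,
        Complex.normSq_add]
      have : (ζ * (starRingEnd ℂ) d).re = ((starRingEnd ℂ) ζ * d).re := by
        simp [Complex.mul_re]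
      rw [this]; ring
    rw [h1, hζ]; ring
  have hd0 : 0 ≤ ‖d‖ := norm_nonneg _
  constructor
  · intro hlt
    rw [hre] at hlt
    have h1 : ‖G ζ‖ * ((starRingEnd ℂ) ζ * d).re < ‖G ζ‖ * (-(ε / 4 * ‖d‖)) := by nlinarith
    have h2 : ((starRingEnd ℂ) ζ * d).re < -(ε / 4 * ‖d‖) := lt_of_mul_lt_mul_left h1 hc.le
    refine ⟨z, ?_, rfl⟩
    rw [mem_ball_zero_iff]
    have h3 : ‖z‖ ^ 2 < 1 := by nlinarith
    nlinarith [norm_nonneg z]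
  · intro hgt
    rw [hre] at hgt
    have h1 : ‖G ζ‖ * (ε / 4 * ‖d‖) < ‖G ζ‖ * ((starRingEnd ℂ) ζ * d).re := by nlinarith
    have h2 : ε / 4 * ‖d‖ < ((starRingEnd ℂ) ζ * d).re := lt_of_mul_lt_mul_left h1 hc.le
    have h3 : 1 < ‖z‖ ^ 2 := by nlinarith
    rintro ⟨z', hz', hFz⟩
    have hz'b : z' ∈ ball (0 : ℂ) (3 / 2) := ball_subset_ball (by norm_num) hz'
    have : z' = z := h.iF hz'b hz1 hFz
    rw [this, mem_ball_zero_iff] at hz'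
    nlinarith [norm_nonneg z]

end Pool.Agent.Helper859.Stk.L02a
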