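import Pool.Agent.Helper859.Stk.Alg
set_option linter.all false
open Metric Set Filter Topology

namespace Pool.Agent.Helper859.Stk.L02b
open Pool.Agent.Helper859.Stk

theorem outerNormal_unique {Ω : Set ℂ} {p ν ν' : ℂ} (h : IsOuterNormal Ω p ν)
    (h' : IsOuterNormal Ω p ν') : ν = ν' := by
  by_contra hne
  obtain ⟨n1, h⟩ := h
  obtain ⟨n2, h'⟩ := h'
  have hd : 0 < ‖ν' - ν‖ := norm_pos_iff.2 (sub_ne_zero.2 (Ne.symm hne))
  have q1 : ν.re * ν.re + ν.im * ν.im = 1 := by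
    have := Complex.normSq_eq_norm_sq ν
    rw [n1, Complex.normSq_apply] at this
    linarith
  have q2 : ν'.re * ν'.re + ν'.im * ν'.im = 1 := by
    have := Complex.normSq_eq_norm_sq ν'
    rw [n2, Complex.normSq_apply] at this
    linarith
  have q3 : (ν'.re - ν.re) * (ν'.re - ν.re) + (ν'.im - ν.im) * (ν'.im - ν.im) = ‖ν' - ν‖ ^ 2 := by
    have := Complex.normSq_eq_norm_sq (ν' - ν)
    rw [Complex.normSq_apply] at this
    simpa using this
  have a1 : ((starRingEnd ℂ) ν * (ν' - ν)).re = -(‖ν' - ν‖ ^ 2 / 2) := by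
    simp only [Complex.mul_re, Complex.conj_re, Complex.conj_im, Complex.sub_re, Complex.sub_im]
    nlinarith
  have a2 : ((starRingEnd ℂ) ν' * (ν' - ν)).re = ‖ν' - ν‖ ^ 2 / 2 := by
    simp only [Complex.mul_re, Complex.conj_re, Complex.conj_im, Complex.sub_re, Complex.sub_im]
    nlinarith
  obtain ⟨δ, hδ, k1⟩ := h (‖ν' - ν‖ / 4) (by positivity)
  obtain ⟨δ', hδ', k2⟩ := h' (‖ν' - ν‖ / 4) (by positivity)
  set s : ℝ := min δ δ' / (2 * ‖ν' - ν‖) with hs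
  have hm : 0 < min δ δ' := lt_min hδ hδ'
  have hs0 : 0 < s := by positivity
  have hz : p + (s : ℂ) * (ν' - ν) - p = (s : ℂ) * (ν' - ν) := by ring
  have hnz : ‖(s : ℂ) * (ν' - ν)‖ = s * ‖ν' - ν‖ := by
    rw [norm_mul, Complex.norm_real, Real.norm_of_nonneg hs0.le]
  have hlt : s * ‖ν' - ν‖ < min δ δ' := by
    have : s * ‖ν' - ν‖ = min δ δ' / 2 := by
      rw [hs]
      field_simp
    rw [this]
    linarith
  have b1 : ((starRingEnd ℂ) ν * ((s : ℂ) * (ν' - ν))).re = -(s * (‖ν' - ν‖ ^ 2 / 2)) := by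
    have : (starRingEnd ℂ) ν * ((s : ℂ) * (ν' - ν)) = (s : ℂ) * ((starRingEnd ℂ) ν * (ν' - ν)) := by
      ring
    rw [this, Complex.re_ofReal_mul, a1]
    ring
  have b2 : ((starRingEnd ℂ) ν' * ((s : ℂ) * (ν' - ν))).re = s * (‖ν' - ν‖ ^ 2 / 2) := by
    have : (starRingEnd ℂ) ν' * ((s : ℂ) * (ν' - ν)) = (s : ℂ) * ((starRingEnd ℂ) ν' * (ν' - ν)) := by
      ring
    rw [this, Complex.re_ofReal_mul, a2]
  have hpos : 0 < s * ‖ν' - ν‖ ^ 2 := by positivity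
  have c1 := (k1 (p + (s : ℂ) * (ν' - ν)) (by
    rw [hz, hnz]
    exact lt_of_lt_of_le hlt (min_le_left _ _))).1 (by
    rw [hz, hnz, b1]
    nlinarith)
  have c2 := (k2 (p + (s : ℂ) * (ν' - ν)) (by
    rw [hz, hnz]
    exact lt_of_lt_of_le hlt (min_le_right _ _))).2 (by
    rw [hz, hnz, b2]
    nlinarith)
  exact c2 c1

end Pool.Agent.Helper859.Stk.L02b
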