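import Pool.Agent.Helper859.Stk.Alg
set_option linter.all false
open Metric Set Filter Topology

namespace Pool.Agent.Helper859.Stk.L03a
open Pool.Agent.Helper859.Stk

theorem topo {F G : ℂ → ℂ} (h : Conf F G) :
    IsOpen (F '' ball (0 : ℂ) 1) ∧ IsOpen (F '' ball (0 : ℂ) (3 / 2)) ∧
    closure (F '' ball (0 : ℂ) 1) = F '' closedBall (0 : ℂ) 1 ∧
    frontier (F '' ball (0 : ℂ) 1) = F '' sphere (0 : ℂ) 1 ∧
    ContinuousOn G (ball (0 : ℂ) (3 / 2)) := by
  have hsub : closedBall (0 : ℂ) 1 ⊆ ball (0 : ℂ) (3 / 2) := closedBall_subset_ball (by norm_num)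
  have hdiff : DifferentiableOn ℂ F (ball (0 : ℂ) (3 / 2)) := fun z hz =>
    (h.dF z hz).differentiableAt.differentiableWithinAt
  have hcont : ContinuousOn F (ball (0 : ℂ) (3 / 2)) := hdiff.continuousOn
  have hopen : ∀ S : Set ℂ, IsOpen S → S ⊆ ball (0 : ℂ) (3 / 2) → IsOpen (F '' S) := by
    intro S hS hSs
    rw [isOpen_iff_mem_nhds]
    rintro _ ⟨z, hz, rfl⟩
    have hz' := hSs hz
    have hst : HasStrictDerivAt F (G z) z := by
      have := (hdiff.analyticAt (isOpen_ball.mem_nhds hz')).hasStrictDerivAt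
      rwa [(h.dF z hz').deriv] at this
    have := hst.map_nhds_eq (h.G0 z hz')
    rw [← this]
    exact Filter.image_mem_map (hS.mem_nhds hz)
  have hO1 := hopen (ball (0 : ℂ) 1) isOpen_ball (ball_subset_ball (by norm_num))
  have hcl : closure (F '' ball (0 : ℂ) 1) = F '' closedBall (0 : ℂ) 1 := by
    apply Subset.antisymm
    · apply closure_minimal
      · exact image_mono ball_subset_closedBall
      · exact ((isCompact_closedBall (0 : ℂ) 1).image_of_continuousOn (hcont.mono hsub)).isClosed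
    · have : closedBall (0 : ℂ) 1 = closure (ball (0 : ℂ) 1) := (closure_ball _ (by norm_num)).symm
      rw [this]
      exact ContinuousOn.image_closure (by rw [← this]; exact hcont.mono hsub)
  refine ⟨hO1, hopen _ isOpen_ball (Subset.refl _), hcl, ?_, ?_⟩
  · rw [frontier, hcl, hO1.interior_eq]
    rw [← (h.iF.mono hsub).image_diff_subset (ball_subset_closedBall)]
    congr 1
    ext z
    simp only [mem_diff, mem_closedBall_zero_iff, mem_ball_zero_iff, not_lt, mem_sphere_iff_norm, sub_zero]
    constructor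
    · rintro ⟨a, b⟩; exact le_antisymm a b
    · intro a; exact ⟨a.le, a.ge⟩
  · have : DifferentiableOn ℂ (deriv F) (ball (0 : ℂ) (3 / 2)) := hdiff.deriv isOpen_ball
    refine this.continuousOn.congr ?_
    intro z hz
    exact ((h.dF z hz).deriv).symm

end Pool.Agent.Helper859.Stk.L03a
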