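import Pool.Agent.Helper859.Stk.Alg
set_option linter.all false
open Metric Set Filter Topology

namespace Pool.Agent.Helper859.Stk.L03b
open Pool.Agent.Helper859.Stk

theorem exists_inv {F G : ℂ → ℂ} (h : Conf F G) :
    ∃ J : ℂ → ℂ, ∀ z ∈ ball (0 : ℂ) (3 / 2), J (F z) = z ∧ HasDerivAt J (G z)⁻¹ (F z) := by
  have hinj : ∀ z ∈ ball (0 : ℂ) (3 / 2), Function.invFunOn F (ball (0 : ℂ) (3 / 2)) (F z) = z :=
    fun z hz => h.iF.leftInvOn_invFunOn hz
  refine ⟨Function.invFunOn F (ball (0 : ℂ) (3 / 2)), fun z hz => ⟨hinj z hz, ?_⟩⟩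
  have hd : DifferentiableOn ℂ F (ball (0 : ℂ) (3 / 2)) := fun x hx =>
    (h.dF x hx).differentiableAt.differentiableWithinAt
  have han : AnalyticAt ℂ F z := hd.analyticAt (isOpen_ball.mem_nhds hz)
  have hs : HasStrictDerivAt F (G z) z := by
    have h1 := han.hasStrictDerivAt
    rwa [(h.dF z hz).deriv] at h1
  have hev : ∀ᶠ x in 𝓝 z, Function.invFunOn F (ball (0 : ℂ) (3 / 2)) (F x) = x := by
    filter_upwards [isOpen_ball.mem_nhds hz] with x hx
    exact hinj x hx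
  exact (hs.to_local_left_inverse (h.G0 z hz) hev).hasDerivAt

end Pool.Agent.Helper859.Stk.L03b
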