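import Pool.Agent.Helper859.Stk.Alg
set_option linter.all false
open Metric Set Filter Topology

namespace Pool.Agent.Helper859.Stk.L04a
open Pool.Agent.Helper859.Stk


theorem harm_comp {u : ℂ → ℝ} {Ω : Set ℂ} (hΩ : IsOpen Ω) (hu : InnerProductSpace.HarmonicOnNhd u Ω)
    {F : ℂ → ℂ} (hF : DifferentiableOn ℂ F (ball (0 : ℂ) 1)) (hm : MapsTo F (ball (0 : ℂ) 1) Ω) :
    ∃ U : ℂ → ℂ, DifferentiableOn ℂ U (ball (0 : ℂ) 1) ∧ ∀ z ∈ ball (0 : ℂ) 1, u (F z) = (U z).re := by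
  have hharm : InnerProductSpace.HarmonicOnNhd (fun z => u (F z)) (ball (0 : ℂ) 1) := by
    intro z hz
    have hzΩ : F z ∈ Ω := hm hz
    obtain ⟨ε, hε, hball⟩ := Metric.isOpen_iff.1 hΩ (F z) hzΩ
    obtain ⟨f, hf1, hf2⟩ := InnerProductSpace.HarmonicOnNhd.exists_analyticOnNhd_ball_re_eq
      (f := u) (z := F z) (R := ε) (fun y hy => hu y (hball hy))
    have hFa : AnalyticAt ℂ F z := hF.analyticAt (isOpen_ball.mem_nhds hz)
    have hcomp : AnalyticAt ℂ (fun y => f (F y)) z := (hf1 (F z) (mem_ball_self hε)).comp hFa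
    have hre := AnalyticAt.harmonicAt_re hcomp
    rw [InnerProductSpace.harmonicAt_congr_nhds (f₂ := fun y => (f (F y)).re)]
    · exact hre
    · have hmem : ∀ᶠ y in 𝓝 z, F y ∈ ball (F z) ε :=
        hFa.continuousAt.eventually_mem (ball_mem_nhds (F z) hε)
      filter_upwards [hmem] with y hy
      exact (hf2 hy).symm
  obtain ⟨U, hU1, hU2⟩ := InnerProductSpace.HarmonicOnNhd.exists_analyticOnNhd_ball_re_eq hharm
  exact ⟨U, hU1.differentiableOn, fun z hz => (hU2 hz).symm⟩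

end Pool.Agent.Helper859.Stk.L04a
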