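import Pool.Agent.Helper859.Stk.Alg
set_option linter.all false
open Metric Set Filter Topology

namespace Pool.Agent.Helper859.Stk.L04b
open Pool.Agent.Helper859.Stk

theorem extend_prim {U E : ℂ → ℂ} (hU : ∀ z ∈ ball (0 : ℂ) 1, HasDerivAt U (E z) z)
    (hE : ContinuousOn E (closedBall (0 : ℂ) 1)) :
    ∃ V : ℂ → ℂ, (∀ z ∈ ball (0 : ℂ) 1, V z = U z) ∧ ContinuousOn V (closedBall (0 : ℂ) 1) := by
  obtain ⟨M, hM⟩ := (isCompact_closedBall (0 : ℂ) 1).exists_bound_of_continuousOn hE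
  have hM0 : 0 ≤ M := (norm_nonneg _).trans (hM 0 (by simp))
  have hL : LipschitzOnWith (Real.toNNReal M) U (ball (0 : ℂ) 1) := by
    refine (convex_ball (0 : ℂ) 1).lipschitzOnWith_of_nnnorm_hasDerivWithin_le
      (fun z hz => (hU z hz).hasDerivWithinAt) (fun z hz => ?_)
    rw [← NNReal.coe_le_coe, Real.coe_toNNReal _ hM0]
    exact hM z (ball_subset_closedBall hz)
  obtain ⟨V, hV, hUV⟩ := hL.extend_finite_dimension
  exact ⟨V, fun z hz => (hUV hz).symm, hV.continuous.continuousOn⟩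

end Pool.Agent.Helper859.Stk.L04b
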