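import Pool.Agent.Helper859.Stk.Alg
set_option linter.all false
open Metric Set Filter Topology

namespace Pool.Agent.Helper859.Stk.L04c
open Pool.Agent.Helper859.Stk

theorem clmI (L : ℂ →L[ℝ] ℝ) (a w : ℂ) :
    (a * (((L w : ℝ) : ℂ) - Complex.I * ((L (Complex.I * w) : ℝ) : ℂ))).re = L (w * a) := by
  have h1 : w * a = a.re • w + a.im • (Complex.I * w) := by
    apply Complex.ext <;> simp <;> ring
  rw [h1, map_add, map_smul, map_smul]
  simp [Complex.mul_re, Complex.mul_im]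

theorem toDisc {F G : ℂ → ℂ} (h : Conf F G) (hGc : ContinuousOn G (ball (0 : ℂ) (3 / 2)))
    (hcl : closure (F '' ball (0 : ℂ) 1) = F '' closedBall (0 : ℂ) 1)
    (hfr : frontier (F '' ball (0 : ℂ) 1) = F '' sphere (0 : ℂ) 1)
    (hν : ∀ ζ : ℂ, ‖ζ‖ = 1 → IsOuterNormal (F '' ball (0 : ℂ) 1) (F ζ) (ζ * G ζ / (‖G ζ‖ : ℂ)))
    (hext : ∀ U E : ℂ → ℂ, (∀ z ∈ ball (0 : ℂ) 1, HasDerivAt U (E z) z) →
      ContinuousOn E (closedBall (0 : ℂ) 1) →
      ∃ V : ℂ → ℂ, (∀ z ∈ ball (0 : ℂ) 1, V z = U z) ∧ ContinuousOn V (closedBall (0 : ℂ) 1))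
    {σ : ℝ} {u : ℂ → ℝ} (hu : IsSteklov (F '' ball (0 : ℂ) 1) σ u)
    {U : ℂ → ℂ} (hU : DifferentiableOn ℂ U (ball (0 : ℂ) 1))
    (hre : ∀ z ∈ ball (0 : ℂ) 1, u (F z) = (U z).re) :
    ∃ V V' : ℂ → ℂ, DiscStek (fun z => ‖G z‖) σ V V' ∧ ∀ z ∈ ball (0 : ℂ) 1, u (F z) = (V z).re := by
  obtain ⟨v, D, hv, hD, hvD, hbd⟩ := hu.ext
  have hsub : closedBall (0 : ℂ) 1 ⊆ ball (0 : ℂ) (3 / 2) := closedBall_subset_ball (by norm_num)
  have hbc : ball (0 : ℂ) 1 ⊆ closedBall (0 : ℂ) 1 := ball_subset_closedBall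
  have hFc : ContinuousOn F (closedBall (0 : ℂ) 1) := fun z hz =>
    (h.dF z (hsub hz)).continuousAt.continuousWithinAt
  have hGc' : ContinuousOn G (closedBall (0 : ℂ) 1) := hGc.mono hsub
  have hmaps : MapsTo F (closedBall (0 : ℂ) 1) (closure (F '' ball (0 : ℂ) 1)) := by
    intro z hz
    rw [hcl]
    exact ⟨z, hz, rfl⟩
  have hDF : ContinuousOn (fun z => D (F z)) (closedBall (0 : ℂ) 1) := hD.comp hFc hmaps
  have hvF : ContinuousOn (fun z => v (F z)) (closedBall (0 : ℂ) 1) := hv.comp hFc hmaps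
  set E : ℂ → ℂ := fun z => ((D (F z) (G z) : ℝ) : ℂ) -
    Complex.I * ((D (F z) (Complex.I * G z) : ℝ) : ℂ) with hE
  have hEc : ContinuousOn E (closedBall (0 : ℂ) 1) := by
    have h1 : ContinuousOn (fun z => D (F z) (G z)) (closedBall (0 : ℂ) 1) := hDF.clm_apply hGc'
    have h2 : ContinuousOn (fun z => D (F z) (Complex.I * G z)) (closedBall (0 : ℂ) 1) :=
      hDF.clm_apply (continuousOn_const.mul hGc')
    exact (Complex.continuous_ofReal.comp_continuousOn h1).sub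
      (continuousOn_const.mul (Complex.continuous_ofReal.comp_continuousOn h2))
  have hUE : ∀ z ∈ ball (0 : ℂ) 1, HasDerivAt U (E z) z := by
    intro z hz
    have hUd : DifferentiableAt ℂ U z := hU.differentiableAt (isOpen_ball.mem_nhds hz)
    have hd := hUd.hasDerivAt
    have hFz : F z ∈ F '' ball (0 : ℂ) 1 := ⟨z, hz, rfl⟩
    have hud : DifferentiableAt ℝ u (F z) := (hu.harm (F z) hFz).1.differentiableAt (by norm_num)
    have h1 : HasFDerivAt (fun w => u (F w)) ((D (F z)).comp (G z • (1 : ℂ →L[ℝ] ℂ))) z := by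
      have e1 := hud.hasFDerivAt
      rw [← (hvD (F z) hFz).2] at e1
      exact e1.comp z (h.dF z (hsub (hbc hz))).complexToReal_fderiv
    have h2 : HasFDerivAt (fun w => (U w).re)
        (Complex.reCLM.comp (deriv U z • (1 : ℂ →L[ℝ] ℂ))) z :=
      Complex.reCLM.hasFDerivAt.comp z hd.complexToReal_fderiv
    have h3 : (fun w => u (F w)) =ᶠ[𝓝 z] fun w => (U w).re := by
      filter_upwards [isOpen_ball.mem_nhds hz] with w hw using hre w hw
    have h4 := h1.unique (h2.congr_of_eventuallyEq h3)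
    have h5 := congrArg (fun L : ℂ →L[ℝ] ℝ => L 1) h4
    have h6 := congrArg (fun L : ℂ →L[ℝ] ℝ => L Complex.I) h4
    simp at h5 h6
    have h7 : deriv U z = E z := by
      apply Complex.ext
      · simp [hE, h5]
      · have : Complex.I * G z = G z * Complex.I := mul_comm _ _
        simp [hE, this, h6]
    rw [← h7]
    exact hd
  obtain ⟨V, hVU, hVc⟩ := hext U E hUE hEc
  refine ⟨V, E, ⟨?_, hVc, hEc, ?_⟩, ?_⟩
  · intro z hz
    refine (hUE z hz).congr_of_eventuallyEq ?_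
    filter_upwards [isOpen_ball.mem_nhds hz] with w hw using hVU w hw
  · intro z hz
    have hzn : ‖z‖ = 1 := by simpa using hz
    have hzc : z ∈ closedBall (0 : ℂ) 1 := sphere_subset_closedBall hz
    have hfz : F z ∈ frontier (F '' ball (0 : ℂ) 1) := by
      rw [hfr]; exact ⟨z, hz, rfl⟩
    have hb := hbd (F z) hfz _ (hν z hzn)
    have hG0 : ‖G z‖ ≠ 0 := norm_ne_zero_iff.2 (h.G0 z (hsub hzc))
    have hveq : v (F z) = (V z).re := by
      have hEq : EqOn (fun z => v (F z)) (fun z => (V z).re) (ball (0 : ℂ) 1) := by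
        intro w hw
        show v (F w) = (V w).re
        rw [(hvD (F w) ⟨w, hw, rfl⟩).1, hre w hw, hVU w hw]
      have := Set.EqOn.of_subset_closure hEq hvF
        (Complex.continuous_re.comp_continuousOn hVc) hbc
        (by rw [closure_ball (0 : ℂ) one_ne_zero])
      exact this hzc
    have e1 : (z * E z).re = D (F z) (G z * z) := clmI (D (F z)) z (G z)
    have e2 : G z * z = ‖G z‖ • (z * G z / (‖G z‖ : ℂ)) := by
      have : (‖G z‖ : ℂ) ≠ 0 := by exact_mod_cast hG0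
      rw [Complex.real_smul]
      field_simp
    rw [e1, e2, map_smul, hb, hveq, smul_eq_mul]
    ring
  · intro z hz
    rw [hre z hz, hVU z hz]

end Pool.Agent.Helper859.Stk.L04c
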