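import Pool.Agent.Helper859.Stk.Alg
set_option linter.all false
open Metric Set Filter Topology

namespace Pool.Agent.Helper859.Stk.L05
open Pool.Agent.Helper859.Stk

/-- `c ↦ (h ↦ Re (c h))` -/
noncomputable def LL : ℂ →L[ℝ] (ℂ →L[ℝ] ℝ) :=
  (ContinuousLinearMap.compL ℝ ℂ ℂ ℝ Complex.reCLM).comp (ContinuousLinearMap.mul ℝ ℂ)

theorem LL_apply (c h : ℂ) : LL c h = (c * h).re := rfl

theorem ofDisc {F G : ℂ → ℂ} (h : Conf F G) (hGc : ContinuousOn G (ball (0 : ℂ) (3 / 2)))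
    (ho : IsOpen (F '' ball (0 : ℂ) 1))
    (hcl : closure (F '' ball (0 : ℂ) 1) = F '' closedBall (0 : ℂ) 1)
    (hfr : frontier (F '' ball (0 : ℂ) 1) = F '' sphere (0 : ℂ) 1)
    (hν : ∀ ζ ν : ℂ, ‖ζ‖ = 1 → IsOuterNormal (F '' ball (0 : ℂ) 1) (F ζ) ν →
      ν = ζ * G ζ / (‖G ζ‖ : ℂ))
    {J : ℂ → ℂ} (hJ : ∀ z ∈ ball (0 : ℂ) (3 / 2), J (F z) = z ∧ HasDerivAt J (G z)⁻¹ (F z))
    {σ : ℝ} {U U' : ℂ → ℂ} (hU : DiscStek (fun z => ‖G z‖) σ U U') :
    ∃ u : ℂ → ℝ, IsSteklov (F '' ball (0 : ℂ) 1) σ u ∧ ∀ z ∈ ball (0 : ℂ) 1, u (F z) = (U z).re := by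
  classical
  have hb1 : ball (0 : ℂ) 1 ⊆ ball (0 : ℂ) (3 / 2) := ball_subset_ball (by norm_num)
  have hb2 : closedBall (0 : ℂ) 1 ⊆ ball (0 : ℂ) (3 / 2) := closedBall_subset_ball (by norm_num)
  have hb3 : sphere (0 : ℂ) 1 ⊆ ball (0 : ℂ) (3 / 2) := sphere_subset_closedBall.trans hb2
  let u : ℂ → ℝ := fun w => if w ∈ F '' ball (0 : ℂ) 1 then (U (J w)).re else 0
  have hu : ∀ w ∈ F '' ball (0 : ℂ) 1, u w = (U (J w)).re := fun w hw => if_pos hw
  have huev : ∀ w ∈ F '' ball (0 : ℂ) 1, u =ᶠ[𝓝 w] fun w => (U (J w)).re := by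
    intro w hw
    filter_upwards [ho.mem_nhds hw] with y hy
    exact hu y hy
  have hder : ∀ z ∈ ball (0 : ℂ) 1, HasDerivAt (fun w => U (J w)) (U' z * (G z)⁻¹) (F z) := by
    intro z hz
    have h1 := hU.dU z hz
    obtain ⟨h2, h3⟩ := hJ z (hb1 hz)
    have h4 : HasDerivAt U (U' z) (J (F z)) := by rw [h2]; exact h1
    exact h4.comp (F z) h3
  have hdiff : DifferentiableOn ℂ (fun w => U (J w)) (F '' ball (0 : ℂ) 1) := by
    rintro w ⟨z, hz, rfl⟩
    exact (hder z hz).differentiableAt.differentiableWithinAt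
  have hJcl : ContinuousOn J (closure (F '' ball (0 : ℂ) 1)) := by
    rw [hcl]
    rintro w ⟨z, hz, rfl⟩
    exact (hJ z (hb2 hz)).2.continuousAt.continuousWithinAt
  have hJmaps : MapsTo J (closure (F '' ball (0 : ℂ) 1)) (closedBall (0 : ℂ) 1) := by
    rw [hcl]
    rintro w ⟨z, hz, rfl⟩
    rw [(hJ z (hb2 hz)).1]
    exact hz
  refine ⟨u, ⟨fun z hz => if_neg hz, ?_, ?_⟩, ?_⟩
  · intro w hw
    rw [InnerProductSpace.harmonicAt_congr_nhds (huev w hw)]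
    have h1 : AnalyticAt ℂ (fun w => U (J w)) w := hdiff.analyticAt (ho.mem_nhds hw)
    exact h1.harmonicAt_re
  · refine ⟨fun w => (U (J w)).re, fun w => LL (U' (J w) / G (J w)), ?_, ?_, ?_, ?_⟩
    · exact Complex.continuous_re.comp_continuousOn (hU.cU.comp hJcl hJmaps)
    · apply LL.continuous.comp_continuousOn
      apply ContinuousOn.div (hU.cU'.comp hJcl hJmaps) ((hGc.mono hb2).comp hJcl hJmaps)
      intro w hw
      exact h.G0 _ (hb2 (hJmaps hw))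
    · rintro w hw
      refine ⟨(hu w hw).symm, ?_⟩
      obtain ⟨z, hz, rfl⟩ := hw
      have hw' : F z ∈ F '' ball (0 : ℂ) 1 := ⟨z, hz, rfl⟩
      have h1 : HasFDerivAt (fun w => (U (J w)).re) (LL (U' (J (F z)) / G (J (F z)))) (F z) := by
        have h2 := (hder z hz).hasFDerivAt.restrictScalars ℝ
        have h3 := Complex.reCLM.hasFDerivAt.comp (F z) h2
        refine HasFDerivAt.congr_fderiv h3 ?_
        apply ContinuousLinearMap.ext
        intro y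
        rw [LL_apply, (hJ z (hb1 hz)).1]
        simp [div_eq_mul_inv, mul_comm]
      exact ((h1.congr_of_eventuallyEq (huev _ hw')).fderiv).symm
    · intro p hp ν hout
      rw [hfr] at hp
      obtain ⟨z, hz, rfl⟩ := hp
      have hzn : ‖z‖ = 1 := by simpa using hz
      have h1 := hν z ν hzn hout
      have hG0 := h.G0 z (hb3 hz)
      have hGn : (‖G z‖ : ℂ) ≠ 0 := by
        rw [Ne, Complex.ofReal_eq_zero, norm_eq_zero]
        exact hG0
      have hGn' : ‖G z‖ ≠ 0 := norm_ne_zero_iff.2 hG0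
      show LL (U' (J (F z)) / G (J (F z))) ν = σ * (U (J (F z))).re
      rw [LL_apply, (hJ z (hb3 hz)).1, h1]
      have h2 : U' z / G z * (z * G z / (‖G z‖ : ℂ)) = (z * U' z) / ((‖G z‖ : ℝ) : ℂ) := by
        field_simp
      rw [h2, Complex.div_ofReal_re, hU.bd z hz]
      field_simp
  · intro z hz
    rw [hu (F z) ⟨z, hz, rfl⟩, (hJ z (hb1 hz)).1]

end Pool.Agent.Helper859.Stk.L05
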