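import Pool.Agent.Helper859.Stk.Alg
set_option linter.all false
open Metric Set Filter Topology

namespace Pool.Agent.Helper859.Stk.L10a
open Pool.Agent.Helper859.Stk

theorem cubic_monic (A B D : ℂ) :
    (Polynomial.X ^ 3 + Polynomial.C A * Polynomial.X ^ 2 + Polynomial.C B * Polynomial.X
      + Polynomial.C D : Polynomial ℂ).Monic ∧
    (Polynomial.X ^ 3 + Polynomial.C A * Polynomial.X ^ 2 + Polynomial.C B * Polynomial.X
      + Polynomial.C D : Polynomial ℂ).natDegree = 3 := by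
  have h : (Polynomial.X ^ 3 + Polynomial.C A * Polynomial.X ^ 2 + Polynomial.C B * Polynomial.X
      + Polynomial.C D : Polynomial ℂ).natDegree = 3 := by
    compute_degree!
  refine ⟨?_, h⟩
  unfold Polynomial.Monic Polynomial.leadingCoeff
  rw [h]
  simp [Polynomial.coeff_X, Polynomial.coeff_C]

theorem hc_monic (t y : ℂ) : (hc t y).Monic ∧ (hc t y).natDegree = 3 := cubic_monic _ _ _

theorem hc_roots (t y : ℂ) : ∃ a b c : ℂ, (hc t y).roots = {a, b, c} ∧
    a + b + c = -((1 - t) / 2 * y + 3 * t) ∧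
    a * b + a * c + b * c = -((1 + t) / 2) * y ^ 2 - 21 ∧
    a * b * c = -(-y ^ 3 + 3 * t * y ^ 2 + 21 * y - 7 * t) := by
  obtain ⟨hm, hd⟩ := hc_monic t y
  have hcard : Multiset.card (hc t y).roots = (hc t y).natDegree :=
    ((IsAlgClosed.splits (hc t y)).natDegree_eq_card_roots).symm
  have hprod := Polynomial.prod_multiset_X_sub_C_of_monic_of_roots_card_eq hm hcard
  rw [hd] at hcard
  obtain ⟨a, b, c, habc⟩ := Multiset.card_eq_three.1 hcard
  refine ⟨a, b, c, habc, ?_⟩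
  rw [habc] at hprod
  have hev : ∀ x : ℂ, (x - a) * ((x - b) * (x - c)) = x ^ 3 + ((1 - t) / 2 * y + 3 * t) * x ^ 2
      + (-((1 + t) / 2) * y ^ 2 - 21) * x + (-y ^ 3 + 3 * t * y ^ 2 + 21 * y - 7 * t) := by
    intro x
    have h1 := congrArg (Polynomial.eval x) hprod
    unfold hc at h1
    simpa using h1
  have h0 := hev 0
  have h1 := hev 1
  have h2 := hev (-1)
  refine ⟨?_, ?_, ?_⟩
  · linear_combination (-1 / 2 : ℂ) * h1 - (1 / 2 : ℂ) * h2 + h0
  · linear_combination (1 / 2 : ℂ) * h1 - (1 / 2 : ℂ) * h2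
  · linear_combination -h0

theorem rs_pow (t y : ℂ) (k : ℕ) {a b c : ℂ} (h : (hc t y).roots = {a, b, c}) :
    rs t y (fun x => x ^ k) = a ^ k + b ^ k + c ^ k := by
  unfold rs
  rw [h]
  simp [add_assoc]

theorem power_sums {t : ℂ} (ht : t ^ 2 = -7) (k : ℕ) (hk : k ≤ 6) :
    ∃ P : Polynomial ℂ, P.degree = k ∧ ∀ y, rs t y (fun x => x ^ k) = P.eval y := by
  have n1 : (1/2 : ℂ) * t + -(1/2) ≠ 0 := by
    intro h
    have h1 : t = 1 := by linear_combination 2 * h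
    rw [h1] at ht
    norm_num at ht
  have n2 : -((1/2 : ℂ) * t) + -(1/2) ≠ 0 := by
    intro h
    have h1 : t = -1 := by linear_combination -2 * h
    rw [h1] at ht
    norm_num at ht
  interval_cases k
  · refine ⟨Polynomial.C 3, Polynomial.degree_C (by norm_num), fun y => ?_⟩
    obtain ⟨a, b, c, hr, h1, h2, h3⟩ := hc_roots t y
    rw [rs_pow t y 0 hr, Polynomial.eval_C]
    norm_num
  · refine ⟨Polynomial.C ((1/2) * t + (-1/2) : ℂ) * Polynomial.X + Polynomial.C ((-3) * t : ℂ), ?_, fun y => ?_⟩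
    · compute_degree
      all_goals first | exact n1 | decide
    · obtain ⟨a, b, c, hr, h1, h2, h3⟩ := hc_roots t y
      rw [rs_pow t y 1 hr]
      have e : a ^ 1 + b ^ 1 + c ^ 1 = (a + b + c) := by ring
      rw [e, h1]
      simp only [Polynomial.eval_add, Polynomial.eval_mul, Polynomial.eval_C, Polynomial.eval_pow,
        Polynomial.eval_X]
      linear_combination (0) * ht
  · refine ⟨Polynomial.C ((1/2) * t + (-1/2) : ℂ) * Polynomial.X ^ 2 + Polynomial.C ((3) * t + (21) : ℂ) * Polynomial.X + Polynomial.C ((-21) : ℂ), ?_, fun y => ?_⟩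
    · compute_degree
      all_goals first | exact n1 | decide
    · obtain ⟨a, b, c, hr, h1, h2, h3⟩ := hc_roots t y
      rw [rs_pow t y 2 hr]
      have e : a ^ 2 + b ^ 2 + c ^ 2 = (a + b + c) ^ 2 - 2 * (a * b + a * c + b * c) := by ring
      rw [e, h1, h2]
      simp only [Polynomial.eval_add, Polynomial.eval_mul, Polynomial.eval_C, Polynomial.eval_pow,
        Polynomial.eval_X]
      linear_combination ((1/4) * y ^ 2 + (-3) * y + (9)) * ht
  · refine ⟨Polynomial.C ((-1/2) * t + (-1/2) : ℂ) * Polynomial.X ^ 3 + Polynomial.C ((-63) * t : ℂ) * Polynomial.X + Polynomial.C ((21) * t : ℂ), ?_, fun y => ?_⟩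
    · compute_degree
      all_goals first | exact n2 | decide
    · obtain ⟨a, b, c, hr, h1, h2, h3⟩ := hc_roots t y
      rw [rs_pow t y 3 hr]
      have e : a ^ 3 + b ^ 3 + c ^ 3 = (a + b + c) ^ 3 - 3 * (a + b + c) * (a * b + a * c + b * c) + 3 * (a * b * c) := by ring
      rw [e, h1, h2, h3]
      simp only [Polynomial.eval_add, Polynomial.eval_mul, Polynomial.eval_C, Polynomial.eval_pow,
        Polynomial.eval_X]
      linear_combination ((1/8) * t * y ^ 3 + (3/8) * y ^ 3 + (-9/4) * t * y ^ 2 + (27/2) * t * y + (-27/2) * y + (-27) * t) * ht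
  · refine ⟨Polynomial.C ((1/2) * t + (-1/2) : ℂ) * Polynomial.X ^ 4 + Polynomial.C ((12) * t : ℂ) * Polynomial.X ^ 3 + Polynomial.C ((21) * t + (147) : ℂ) * Polynomial.X ^ 2 + Polynomial.C ((112) * t + (-980) : ℂ) * Polynomial.X + Polynomial.C ((147) : ℂ), ?_, fun y => ?_⟩
    · compute_degree
      all_goals first | exact n1 | decide
    · obtain ⟨a, b, c, hr, h1, h2, h3⟩ := hc_roots t y
      rw [rs_pow t y 4 hr]
      have e : a ^ 4 + b ^ 4 + c ^ 4 = (a + b + c) ^ 4 - 4 * (a + b + c) ^ 2 * (a * b + a * c + b * c) + 4 * (a + b + c) * (a * b * c) + 2 * (a * b + a * c + b * c) ^ 2 := by ring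
      rw [e, h1, h2, h3]
      simp only [Polynomial.eval_add, Polynomial.eval_mul, Polynomial.eval_C, Polynomial.eval_pow,
        Polynomial.eval_X]
      linear_combination ((1/16) * t ^ 2 * y ^ 4 + (1/4) * t * y ^ 4 + (-1/16) * y ^ 4 + (-3/2) * t ^ 2 * y ^ 3 + (-3/2) * t * y ^ 3 + (27/2) * t ^ 2 * y ^ 2 + (-9) * t * y ^ 2 + (-6) * y ^ 2 + (-54) * t ^ 2 * y + (54) * t * y + (140) * y + (81) * t ^ 2 + (105)) * ht
  · refine ⟨Polynomial.C ((-1/2) * t + (-1/2) : ℂ) * Polynomial.X ^ 5 + Polynomial.C ((-105/2) * t + (735/2) : ℂ) * Polynomial.X ^ 3 + Polynomial.C ((-980) * t : ℂ) * Polynomial.X ^ 2 + Polynomial.C ((3675/2) * t + (5145/2) : ℂ) * Polynomial.X + Polynomial.C ((-147) * t : ℂ), ?_, fun y => ?_⟩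
    · compute_degree
      all_goals first | exact n2 | decide
    · obtain ⟨a, b, c, hr, h1, h2, h3⟩ := hc_roots t y
      rw [rs_pow t y 5 hr]
      have e : a ^ 5 + b ^ 5 + c ^ 5 = (a + b + c) ^ 5 - 5 * (a + b + c) ^ 3 * (a * b + a * c + b * c) + 5 * (a + b + c) ^ 2 * (a * b * c) + 5 * (a + b + c) * (a * b + a * c + b * c) ^ 2 - 5 * (a * b + a * c + b * c) * (a * b * c) := by ring
      rw [e, h1, h2, h3]
      simp only [Polynomial.eval_add, Polynomial.eval_mul, Polynomial.eval_C, Polynomial.eval_pow,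
        Polynomial.eval_X]
      linear_combination ((1/32) * t ^ 3 * y ^ 5 + (5/32) * t ^ 2 * y ^ 5 + (3/32) * t * y ^ 5 + (15/32) * y ^ 5 + (-15/16) * t ^ 3 * y ^ 4 + (-15/8) * t ^ 2 * y ^ 4 + (-15/16) * t * y ^ 4 + (45/4) * t ^ 3 * y ^ 3 + (105/8) * t * y ^ 3 + (-465/8) * y ^ 3 + (-135/2) * t ^ 3 * y ^ 2 + (135/2) * t ^ 2 * y ^ 2 + (-25) * t * y ^ 2 + (405/2) * t ^ 3 * y + (-405/2) * t ^ 2 * y + (-105) * t * y + (-840) * y + (-243) * t ^ 3 + (-819) * t) * ht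
  · refine ⟨Polynomial.C ((-1/2) * t + (-1/2) : ℂ) * Polynomial.X ^ 6 + Polynomial.C ((9) * t + (-63) : ℂ) * Polynomial.X ^ 5 + Polynomial.C ((252) * t : ℂ) * Polynomial.X ^ 4 + Polynomial.C ((-777) * t + (147) : ℂ) * Polynomial.X ^ 3 + Polynomial.C ((2205) * t + (-24696) : ℂ) * Polynomial.X ^ 2 + Polynomial.C ((-5733) * t + (21609) : ℂ) * Polynomial.X + Polynomial.C ((-1029) : ℂ), ?_, fun y => ?_⟩
    · compute_degree
      all_goals first | exact n2 | decide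
    · obtain ⟨a, b, c, hr, h1, h2, h3⟩ := hc_roots t y
      rw [rs_pow t y 6 hr]
      have e : a ^ 6 + b ^ 6 + c ^ 6 = (a + b + c) ^ 6 - 6 * (a + b + c) ^ 4 * (a * b + a * c + b * c) + 6 * (a + b + c) ^ 3 * (a * b * c) + 9 * (a + b + c) ^ 2 * (a * b + a * c + b * c) ^ 2 - 12 * (a + b + c) * (a * b + a * c + b * c) * (a * b * c) - 2 * (a * b + a * c + b * c) ^ 3 + 3 * (a * b * c) ^ 2 := by ring
      rw [e, h1, h2, h3]
      simp only [Polynomial.eval_add, Polynomial.eval_mul, Polynomial.eval_C, Polynomial.eval_pow,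
        Polynomial.eval_X]
      linear_combination ((1/64) * t ^ 4 * y ^ 6 + (3/32) * t ^ 3 * y ^ 6 + (1/8) * t ^ 2 * y ^ 6 + (13/32) * t * y ^ 6 + (7/64) * y ^ 6 + (-9/16) * t ^ 4 * y ^ 5 + (-27/16) * t ^ 3 * y ^ 5 + (-27/16) * t ^ 2 * y ^ 5 + (-81/16) * t * y ^ 5 + (9) * y ^ 5 + (135/16) * t ^ 4 * y ^ 4 + (27/4) * t ^ 3 * y ^ 4 + (315/16) * t ^ 2 * y ^ 4 + (-27) * t * y ^ 4 + (-99/8) * y ^ 4 + (-135/2) * t ^ 4 * y ^ 3 + (81/2) * t ^ 3 * y ^ 3 + (-627/4) * t ^ 2 * y ^ 3 + (1263/4) * t * y ^ 3 + (-21) * y ^ 3 + (1215/4) * t ^ 4 * y ^ 2 + (-729/2) * t ^ 3 * y ^ 2 + (513) * t ^ 2 * y ^ 2 + (-1575/2) * t * y ^ 2 + (17703/4) * y ^ 2 + (-729) * t ^ 4 * y + (729) * t ^ 3 * y + (-1134) * t ^ 2 * y + (4536) * t * y + (-3087) * y + (729) * t ^ 4 + (3969) * t ^ 2 + (2793)) * ht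

end Pool.Agent.Helper859.Stk.L10a
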