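import Pool.Agent.Helper859.Stk.Alg
set_option linter.all false
open Metric Set Filter Topology

namespace Pool.Agent.Helper859.Stk.L10b
open Pool.Agent.Helper859.Stk

theorem lin {s₁ s₂ : Finset ℂ} (h1 : s₁.card = 7) (h2 : s₂.card = 7) (m : ℂ → ℂ → ℂ)
    (P : ℕ → Polynomial ℂ) (hP : ∀ k ≤ 6, (P k).degree = k)
    (hm : ∀ k ≤ 6, ∀ y ∈ s₂, ∑ x ∈ s₁, m y x * x ^ k = (P k).eval y)
    (a : ℂ → ℂ) (ha : ∀ y ∈ s₂, ∑ x ∈ s₁, m y x * a x = 0) : ∀ x ∈ s₁, a x = 0 := by
  classical
  have hinj : Set.InjOn (id : ℂ → ℂ) s₁ := fun _ _ _ _ h => h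
  set A : Polynomial ℂ := Lagrange.interpolate s₁ id a with hA
  have hAx : ∀ x ∈ s₁, A.eval x = a x := fun x hx =>
    Lagrange.eval_interpolate_at_node a hinj hx
  have hAd : A.degree < (7 : ℕ) := by
    have := Lagrange.degree_interpolate_lt a hinj
    rwa [h1] at this
  have hAsum : ∀ x, A.eval x = ∑ k ∈ Finset.range 7, A.coeff k * x ^ k := by
    intro x
    rw [Polynomial.eval_eq_sum_range' (n := 7)]
    by_cases h0 : A = 0
    · rw [h0]; simp
    · exact (Polynomial.natDegree_lt_iff_degree_lt h0).2 hAd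
  set R : Polynomial ℂ := ∑ k ∈ Finset.range 7, Polynomial.C (A.coeff k) * P k with hR
  have hRe : ∀ y ∈ s₂, R.eval y = 0 := by
    intro y hy
    rw [hR, Polynomial.eval_finsetSum]
    have e1 : ∀ k ∈ Finset.range 7, (Polynomial.C (A.coeff k) * P k).eval y =
        ∑ x ∈ s₁, m y x * (A.coeff k * x ^ k) := by
      intro k hk
      have hk6 : k ≤ 6 := by have := Finset.mem_range.1 hk; omega
      rw [Polynomial.eval_mul, Polynomial.eval_C, ← hm k hk6 y hy, Finset.mul_sum]
      refine Finset.sum_congr rfl fun x _ => ?_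
      ring
    rw [Finset.sum_congr rfl e1, Finset.sum_comm, ← ha y hy]
    refine Finset.sum_congr rfl fun x hx => ?_
    rw [← Finset.mul_sum, ← hAsum, hAx x hx]
  have hRd : R.degree < (7 : ℕ) := by
    refine lt_of_le_of_lt (Polynomial.degree_sum_le _ _) ?_
    rw [Finset.sup_lt_iff (WithBot.bot_lt_coe 7)]
    intro k hk
    have hk6 : k ≤ 6 := by have := Finset.mem_range.1 hk; omega
    have hle : (Polynomial.C (A.coeff k) * P k).degree ≤ (P k).degree := by
      refine (Polynomial.degree_mul_le _ _).trans ?_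
      calc (Polynomial.C (A.coeff k)).degree + (P k).degree ≤ 0 + (P k).degree :=
            add_le_add Polynomial.degree_C_le le_rfl
        _ = (P k).degree := zero_add _
    refine lt_of_le_of_lt hle ?_
    rw [hP k hk6]
    exact_mod_cast (by omega : k < 7)
  have hR0 : R = 0 := by
    refine Polynomial.eq_zero_of_degree_lt_of_eval_finset_eq_zero s₂ ?_ hRe
    rw [h2]
    exact hRd
  have hc : ∀ k ∈ Finset.range 7, A.coeff k = 0 := by
    by_contra hcon
    push Not at hcon
    obtain ⟨k0, hk0, hne0⟩ := hcon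
    set S := (Finset.range 7).filter (fun k => A.coeff k ≠ 0) with hS
    have hSne : S.Nonempty := ⟨k0, Finset.mem_filter.2 ⟨hk0, hne0⟩⟩
    set k := S.max' hSne with hk
    have hkS : k ∈ S := S.max'_mem hSne
    have hk7 := (Finset.mem_filter.1 hkS).1
    have hkne := (Finset.mem_filter.1 hkS).2
    have hk6 : k ≤ 6 := by have := Finset.mem_range.1 hk7; omega
    have h3 : R.coeff k = A.coeff k * (P k).coeff k := by
      rw [hR, Polynomial.finsetSum_coeff, Finset.sum_eq_single k]
      · rw [Polynomial.coeff_C_mul]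
      · intro j hj hjk
        rw [Polynomial.coeff_C_mul]
        have hj6 : j ≤ 6 := by have := Finset.mem_range.1 hj; omega
        rcases lt_or_gt_of_ne hjk with h4 | h4
        · have h5 : (P j).coeff k = 0 := by
            refine Polynomial.coeff_eq_zero_of_degree_lt ?_
            rw [hP j hj6]
            exact_mod_cast h4
          rw [h5, mul_zero]
        · by_cases h5 : A.coeff j = 0
          · rw [h5, zero_mul]
          · have := S.le_max' j (Finset.mem_filter.2 ⟨hj, h5⟩)
            omega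
      · intro h4
        exact absurd hk7 h4
    rw [hR0, Polynomial.coeff_zero] at h3
    have h4 : (P k).coeff k ≠ 0 := by
      have h5 : (P k).natDegree = k := Polynomial.natDegree_eq_of_degree_eq_some (hP k hk6)
      have h6 : P k ≠ 0 := by
        intro h7
        have := hP k hk6
        rw [h7, Polynomial.degree_zero] at this
        exact WithBot.bot_ne_coe this
      have h7 : (P k).leadingCoeff ≠ 0 := Polynomial.leadingCoeff_ne_zero.2 h6
      rwa [Polynomial.leadingCoeff, h5] at h7
    exact mul_ne_zero hkne h4 h3.symm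
  intro x hx
  rw [← hAx x hx, hAsum]
  refine Finset.sum_eq_zero fun k hk => ?_
  rw [hc k hk, zero_mul]

end Pool.Agent.Helper859.Stk.L10b
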