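import Pool.Agent.Helper859.Stk.Alg
set_option linter.all false
open Metric Set Filter Topology

namespace Pool.Agent.Helper859.Stk.L10c
open Pool.Agent.Helper859.Stk

theorem rs_inj {t : ℂ} {v : ℂ} (hp : ∀ k : ℕ, k ≤ 6 → ∃ P : Polynomial ℂ, P.degree = k ∧
      ∀ y, rs t y (fun x => x ^ k) = P.eval y)
    (hlin : ∀ (s₁ s₂ : Finset ℂ), s₁.card = 7 → s₂.card = 7 → ∀ (m : ℂ → ℂ → ℂ)
      (P : ℕ → Polynomial ℂ), (∀ k ≤ 6, (P k).degree = k) →
      (∀ k ≤ 6, ∀ y ∈ s₂, ∑ x ∈ s₁, m y x * x ^ k = (P k).eval y) →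
      ∀ (a : ℂ → ℂ), (∀ y ∈ s₂, ∑ x ∈ s₁, m y x * a x = 0) → ∀ x ∈ s₁, a x = 0)
    (hroot : ∀ x y, hh t x y = 0 → pS t x = pS (-t) y)
    (s₁ s₂ : Finset ℂ) (h1 : s₁.card = 7) (h1' : ∀ x, x ∈ s₁ ↔ pS t x = v)
    (h2 : s₂.card = 7) (h2' : ∀ y, y ∈ s₂ ↔ pS (-t) y = v)
    (a : ℂ → ℂ) (ha : ∀ y ∈ s₂, rs t y a = 0) : ∀ x ∈ s₁, a x = 0 := by
  classical
  have hev : ∀ x y, (hc t y).eval x = hh t x y := by
    intro x y
    unfold hc hh
    simp only [Polynomial.eval_add, Polynomial.eval_mul, Polynomial.eval_pow, Polynomial.eval_X,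
      Polynomial.eval_C]
    ring
  have hsum : ∀ y ∈ s₂, ∀ k : ℂ → ℂ,
      rs t y k = ∑ x ∈ s₁, ((hc t y).roots.count x : ℂ) * k x := by
    intro y hy k
    unfold rs
    rw [Finset.sum_multiset_map_count]
    simp only [nsmul_eq_mul]
    apply Finset.sum_subset
    · intro x hx
      rw [Multiset.mem_toFinset] at hx
      have h3 : (hc t y).IsRoot x := (Polynomial.mem_roots'.1 hx).2
      have h4 : hh t x y = 0 := by rw [← hev]; exact h3
      rw [h1', hroot x y h4]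
      exact (h2' y).1 hy
    · intro x _ hx
      rw [Multiset.mem_toFinset] at hx
      rw [Multiset.count_eq_zero_of_notMem hx]
      simp
  have hP : ∀ k : ℕ, ∃ P : Polynomial ℂ, k ≤ 6 → P.degree = k ∧
      ∀ y, rs t y (fun x => x ^ k) = P.eval y := by
    intro k
    by_cases hk : k ≤ 6
    · obtain ⟨P, hP⟩ := hp k hk
      exact ⟨P, fun _ => hP⟩
    · exact ⟨0, fun h => absurd h hk⟩
  choose P hP using hP
  refine hlin s₁ s₂ h1 h2 (fun y x => ((hc t y).roots.count x : ℂ)) P (fun k hk => (hP k hk).1)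
    ?_ a ?_
  · intro k hk y hy
    rw [← (hP k hk).2 y, hsum y hy]
  · intro y hy
    rw [← hsum y hy]
    exact ha y hy

end Pool.Agent.Helper859.Stk.L10c
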