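import Pool.Agent.Helper859.Stk.Trans
import Pool.Agent.Helper859.Stk.L02a
import Pool.Agent.Helper859.Stk.L02b
import Pool.Agent.Helper859.Stk.L03a
import Pool.Agent.Helper859.Stk.L03b
import Pool.Agent.Helper859.Stk.L04a
import Pool.Agent.Helper859.Stk.L04b
import Pool.Agent.Helper859.Stk.L04c
import Pool.Agent.Helper859.Stk.L05
import Pool.Agent.Helper859.Stk.L10a
import Pool.Agent.Helper859.Stk.L10b
import Pool.Agent.Helper859.Stk.L10c
import Pool.Agent.Helper859.Stk.L11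
set_option linter.all false
open Metric Set Filter Topology

namespace Pool.Agent.Helper859.Stk

theorem toDisc {F G : ℂ → ℂ} (h : Conf F G) {σ : ℝ} (u : ℂ → ℝ)
    (hu : IsSteklov (F '' ball (0 : ℂ) 1) σ u) :
    ∃ U U' : ℂ → ℂ, DiscStek (fun z => ‖G z‖) σ U U' ∧ ∀ z ∈ ball (0 : ℂ) 1, u (F z) = (U z).re := by
  obtain ⟨ho, ho', hcl, hfr, hG⟩ := L03a.topo h
  have hF : DifferentiableOn ℂ F (ball (0 : ℂ) 1) := fun z hz =>
    (h.dF z (ball_subset_ball (by norm_num) hz)).differentiableAt.differentiableWithinAt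
  obtain ⟨U, hU, hre⟩ := L04a.harm_comp ho hu.harm hF (fun z hz => mem_image_of_mem F hz)
  exact L04c.toDisc h hG hcl hfr (fun ζ hζ => L02a.outerNormal_of h hζ)
    (fun U E h1 h2 => L04b.extend_prim h1 h2) hu hU hre

theorem ofDisc {F G : ℂ → ℂ} (h : Conf F G) {σ : ℝ} (U U' : ℂ → ℂ)
    (hU : DiscStek (fun z => ‖G z‖) σ U U') :
    ∃ u : ℂ → ℝ, IsSteklov (F '' ball (0 : ℂ) 1) σ u ∧ ∀ z ∈ ball (0 : ℂ) 1, u (F z) = (U z).re := by
  obtain ⟨ho, ho', hcl, hfr, hG⟩ := L03a.topo h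
  obtain ⟨J, hJ⟩ := L03b.exists_inv h
  exact L05.ofDisc h hG ho hcl hfr (fun ζ ν hζ hν => L02b.outerNormal_unique hν (L02a.outerNormal_of h hζ))
    hJ hU

theorem injection {t s : ℂ} (hs : s = -t) (ht : t ^ 2 = -7) {R σ : ℝ} (hR : 0 < R)
    (D₁ : Dat (fun x => pS t x - Complex.I) R) (D₂ : Dat (fun x => pS s x - Complex.I) R) :
    ∃ T : steklovSpace (D₁.F '' ball (0 : ℂ) 1) σ →ₗ[ℝ] steklovSpace (D₂.F '' ball (0 : ℂ) 1) σ,
      Function.Injective T := by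
  subst hs
  refine L11.exists_injection hR D₁ D₂ (fun u hu => toDisc D₁.conf u hu)
    (fun U U' hU => transplant ht hR D₁ D₂ U U' hU) (fun V V' hV => ofDisc D₂.conf V V' hV)
    (fun x y h => hroot ht x y h) ?_
  intro v h0 h1 a ha x hx
  obtain ⟨s₁, c1, m1⟩ := L18a.fibre ht v h0 h1
  obtain ⟨s₂, c2, m2⟩ := L18a.fibre (sq_neg ht) v h0 h1
  exact L10c.rs_inj (fun k hk => L10a.power_sums ht k hk)
    (fun s₁ s₂ h1 h2 m P hP hm a ha => L10b.lin h1 h2 m P hP hm a ha)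
    (fun x y h => hroot ht x y h) s₁ s₂ c1 m1 c2 m2 a (fun y hy => ha y ((m2 y).1 hy)) x ((m1 x).2 hx)

theorem steklov_equiv {t : ℂ} (ht : t ^ 2 = -7) {R σ : ℝ} (hR : 0 < R)
    (D₁ : Dat (fun x => pS t x - Complex.I) R) (D₂ : Dat (fun x => pS (-t) x - Complex.I) R) :
    Nonempty (steklovSpace (D₁.F '' ball (0 : ℂ) 1) σ ≃ₗ[ℝ] steklovSpace (D₂.F '' ball (0 : ℂ) 1) σ) := by
  obtain ⟨T, hT⟩ := injection (σ := σ) rfl ht hR D₁ D₂
  obtain ⟨S, hS⟩ := injection (σ := σ) (neg_neg t).symm (sq_neg ht) hR D₂ D₁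
  have h1 := LinearMap.rank_le_of_injective T hT
  have h2 := LinearMap.rank_le_of_injective S hS
  exact nonempty_linearEquiv_of_rank_eq (le_antisymm h1 h2)

end Pool.Agent.Helper859.Stk
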