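import Pool.Agent.Helper859.Stk.Alg
set_option linter.all false
open Metric Set Filter Topology

namespace Pool.Agent.Helper859.Stk.Ex1
open Pool.Agent.Helper859.Stk

theorem star (a : Fin 7 → ℂ) (A R : ℝ) (hA : ∀ j, ‖a j‖ ≤ A) (hR : (2 * A) ^ 7 < R) :
    StarConvex ℝ 0 {x : ℂ | ‖∏ j, (x - a j)‖ < R} := by
  rw [starConvex_zero_iff]
  intro x hx s hs0 hs1
  rw [Set.mem_setOf_eq] at hx ⊢
  have hA0 : 0 ≤ A := (norm_nonneg _).trans (hA 0)
  rcases le_or_gt ‖s • x‖ A with h | h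
  · rw [norm_prod]
    calc ∏ j, ‖s • x - a j‖ ≤ ∏ _j : Fin 7, (2 * A) := by
          apply Finset.prod_le_prod
          · intro j _
            exact norm_nonneg _
          · intro j _
            calc ‖s • x - a j‖ ≤ ‖s • x‖ + ‖a j‖ := norm_sub_le _ _
              _ ≤ A + A := add_le_add h (hA j)
              _ = 2 * A := by ring
      _ = (2 * A) ^ 7 := by simp
      _ < R := hR
  · refine lt_of_le_of_lt ?_ hx
    rw [norm_prod, norm_prod]
    apply Finset.prod_le_prod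
    · intro j _
      exact norm_nonneg _
    · intro j _
      have haj : ‖a j‖ ≤ ‖s • x‖ := (hA j).trans h.le
      rw [norm_smul, Real.norm_eq_abs, abs_of_nonneg hs0] at haj
      have h1 : inner ℝ x (a j) ≤ ‖x‖ * ‖a j‖ := real_inner_le_norm x (a j)
      have h2 : inner ℝ x (a j) ≤ s * ‖x‖ ^ 2 := by
        calc inner ℝ x (a j) ≤ ‖x‖ * ‖a j‖ := h1
          _ ≤ ‖x‖ * (s * ‖x‖) := by gcongr
          _ = s * ‖x‖ ^ 2 := by ring
      apply le_of_sq_le_sq _ (norm_nonneg _)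
      rw [norm_sub_sq_real, norm_sub_sq_real, norm_smul, Real.norm_eq_abs, abs_of_nonneg hs0,
        real_inner_smul_left]
      nlinarith [mul_nonneg (sub_nonneg.2 hs1) (sub_nonneg.2 h2),
        mul_nonneg (mul_nonneg (sub_nonneg.2 hs1) (sub_nonneg.2 hs1)) (sq_nonneg ‖x‖)]

end Pool.Agent.Helper859.Stk.Ex1
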