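import Pool.Agent.Helper859.Stk.Alg
set_option linter.all false
open Metric Set Filter Topology

namespace Pool.Agent.Helper859.Stk.Ex11
open Pool.Agent.Helper859.Stk

theorem factors_gen (P : Polynomial ℂ) (hP : P.Monic) {n : ℕ} (hn : P.natDegree = n) :
    ∃ a : Fin n → ℂ, ∀ x, P.eval x = ∏ j, (x - a j) := by
  have hs : P.Splits := IsAlgClosed.splits P
  have hcard : P.roots.card = n := by
    rw [← hn]
    exact (Polynomial.splits_iff_card_roots.1 hs)
  have hprod : (P.roots.map (fun a => Polynomial.X - Polynomial.C a)).prod = P :=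
    Polynomial.prod_multiset_X_sub_C_of_monic_of_roots_card_eq hP (by rw [hcard, hn])
  have hlen : P.roots.toList.length = n := by rw [Multiset.length_toList, hcard]
  refine ⟨fun j => P.roots.toList.get (Fin.cast hlen.symm j), fun x => ?_⟩
  subst hlen
  simp only [Fin.cast_refl, id]
  have h1 : P.eval x = (P.roots.map (fun a => x - a)).prod := by
    conv_lhs => rw [← hprod]
    rw [Polynomial.eval_multiset_prod, Multiset.map_map]
    congr 1
    apply Multiset.map_congr rfl
    intro a _
    simp
  rw [h1]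
  conv_lhs => rw [← Multiset.coe_toList P.roots]
  rw [Multiset.map_coe, Multiset.prod_coe]
  rw [List.prod_ofFn.symm]
  congr 1
  conv_lhs => rw [← List.ofFn_get P.roots.toList]
  rw [List.map_ofFn]
  rfl

--ALG
theorem factors (t : ℂ) :
    (∃ a : Fin 7 → ℂ, ∀ x, pS t x - Complex.I = ∏ j, (x - a j)) ∧
    (∃ c : Fin 6 → ℂ, ∀ x, qq t x ^ 2 * rr t x = ∏ k, (x - c k)) := by
  constructor
  · set Q : Polynomial ℂ := Polynomial.X ^ 2 + Polynomial.C (7 * ((1 + t) / 2)) * Polynomial.X
      + Polynomial.C (7 * ((1 + t) / 2 - 3)) with hQ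
    set P : Polynomial ℂ := Polynomial.X * Q ^ 3 - Polynomial.C Complex.I with hPd
    have hQd : Q.natDegree = 2 := by rw [hQ]; compute_degree!
    have hQm : Q.Monic := by rw [hQ]; monicity!
    have hXQm : (Polynomial.X * Q ^ 3).Monic := Polynomial.monic_X.mul (hQm.pow 3)
    have hXQd : (Polynomial.X * Q ^ 3).natDegree = 7 := by
      rw [Polynomial.monic_X.natDegree_mul (hQm.pow 3), hQm.natDegree_pow, hQd,
        Polynomial.natDegree_X]
    have hPd' : P.natDegree = 7 := by
      rw [hPd, Polynomial.natDegree_sub_C, hXQd]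
    have hPm : P.Monic := by
      rw [hPd]
      apply hXQm.sub_of_left
      apply lt_of_le_of_lt Polynomial.degree_C_le
      rw [Polynomial.degree_eq_natDegree hXQm.ne_zero, hXQd]
      norm_num
    obtain ⟨a, ha⟩ := factors_gen P hPm hPd'
    refine ⟨a, fun x => ?_⟩
    rw [← ha x, hPd, hQ]
    simp only [Polynomial.eval_sub, Polynomial.eval_mul, Polynomial.eval_pow, Polynomial.eval_X,
      Polynomial.eval_add, Polynomial.eval_C]
    unfold pS
    ring
  · set Q : Polynomial ℂ := Polynomial.X ^ 2 + Polynomial.C (7 * ((1 + t) / 2)) * Polynomial.X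
      + Polynomial.C (7 * ((1 + t) / 2 - 3)) with hQ
    set R : Polynomial ℂ := Polynomial.X ^ 2 + Polynomial.C (4 * ((1 + t) / 2)) * Polynomial.X
      + Polynomial.C (((1 + t) / 2 - 3)) with hR
    have hQd : Q.natDegree = 2 := by rw [hQ]; compute_degree!
    have hQm : Q.Monic := by rw [hQ]; monicity!
    have hRd : R.natDegree = 2 := by rw [hR]; compute_degree!
    have hRm : R.Monic := by rw [hR]; monicity!
    have hm : (Q ^ 2 * R).Monic := (hQm.pow 2).mul hRm
    have hd : (Q ^ 2 * R).natDegree = 6 := by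
      rw [(hQm.pow 2).natDegree_mul hRm, hQm.natDegree_pow, hQd, hRd]
    obtain ⟨a, ha⟩ := factors_gen _ hm hd
    refine ⟨a, fun x => ?_⟩
    rw [← ha x, hQ, hR]
    simp only [Polynomial.eval_sub, Polynomial.eval_mul, Polynomial.eval_pow, Polynomial.eval_X,
      Polynomial.eval_add, Polynomial.eval_C]
    unfold qq rr
    ring

end Pool.Agent.Helper859.Stk.Ex11
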