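import Pool.Agent.Helper859.Stk.Alg
set_option linter.all false
open Metric Set Filter Topology

namespace Pool.Agent.Helper859.Stk.Ex4a
open Pool.Agent.Helper859.Stk

theorem const_of_bdry_aux {Q : ℂ → ℂ} (hQ : DifferentiableOn ℂ Q (ball (0 : ℂ) 1))
    (hb : ∀ ε : ℝ, 0 < ε → ∃ ρ : ℝ, ρ < 1 ∧ ∀ z : ℂ, ρ < ‖z‖ → ‖z‖ < 1 → ‖Q z‖ ≤ 1 + ε) :
    ∀ z ∈ ball (0 : ℂ) 1, ‖Q z‖ ≤ 1 := by
  intro z0 hz0
  rw [mem_ball_zero_iff] at hz0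
  apply le_of_forall_pos_le_add
  intro ε hε
  obtain ⟨ρ, hρ, h1⟩ := hb ε hε
  obtain ⟨r, hr1, hr2⟩ := exists_between (max_lt hρ hz0)
  have hr3 : ρ < r := (le_max_left _ _).trans_lt hr1
  have hr4 : ‖z0‖ < r := (le_max_right _ _).trans_lt hr1
  have hr0 : 0 < r := (norm_nonneg _).trans_lt hr4
  have hd : DiffContOnCl ℂ Q (ball (0 : ℂ) r) :=
    hQ.diffContOnCl_ball (closedBall_subset_ball hr2)
  refine Complex.norm_le_of_forall_mem_frontier_norm_le isBounded_ball hd ?_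
    (subset_closure (by rwa [mem_ball_zero_iff]))
  intro z hz
  rw [frontier_ball _ hr0.ne', mem_sphere_zero_iff_norm] at hz
  exact h1 z (by rw [hz]; exact hr3) (by rw [hz]; exact hr2)

theorem const_of_bdry {Q : ℂ → ℂ} (hQ : DifferentiableOn ℂ Q (ball (0 : ℂ) 1))
    (h0 : ∀ z ∈ ball (0 : ℂ) 1, Q z ≠ 0)
    (hb : ∀ ε : ℝ, 0 < ε → ∃ ρ : ℝ, ρ < 1 ∧ ∀ z : ℂ, ρ < ‖z‖ → ‖z‖ < 1 → |‖Q z‖ - 1| < ε) :
    ∃ c : ℂ, ‖c‖ = 1 ∧ ∀ z ∈ ball (0 : ℂ) 1, Q z = c := by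
  have h1 := const_of_bdry_aux hQ (by
    intro ε hε
    obtain ⟨ρ, hρ, h⟩ := hb ε hε
    refine ⟨ρ, hρ, fun z hz1 hz2 => ?_⟩
    have := (abs_lt.mp (h z hz1 hz2)).2
    linarith)
  have h2 := const_of_bdry_aux (Q := fun z => (Q z)⁻¹) (hQ.inv h0) (by
    intro ε hε
    obtain ⟨ρ, hρ, h⟩ := hb (ε / (1 + ε)) (by positivity)
    refine ⟨ρ, hρ, fun z hz1 hz2 => ?_⟩
    have h3 := (abs_lt.mp (h z hz1 hz2)).1
    have h4 : 1 - ε / (1 + ε) = (1 + ε)⁻¹ := by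
      field_simp
      ring
    have h5 : (1 + ε)⁻¹ ≤ ‖Q z‖ := by linarith
    rw [norm_inv]
    exact inv_le_of_inv_le₀ (by positivity) h5)
  have h3 : ∀ z ∈ ball (0 : ℂ) 1, ‖Q z‖ = 1 := by
    intro z hz
    apply le_antisymm (h1 z hz)
    have h4 := h2 z hz
    rw [norm_inv] at h4
    have h5 : 0 < ‖Q z‖ := norm_pos_iff.mpr (h0 z hz)
    exact (inv_le_one₀ h5).mp h4
  have hmem : (0 : ℂ) ∈ ball (0 : ℂ) 1 := mem_ball_self one_pos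
  refine ⟨Q 0, h3 0 hmem, ?_⟩
  have h6 := Complex.eqOn_of_isPreconnected_of_isMaxOn_norm (f := Q) (convex_ball (0 : ℂ) 1).isPreconnected
    isOpen_ball hQ hmem (by
      intro z hz
      simp only [mem_setOf_eq, Function.comp_apply]
      rw [h3 z hz, h3 0 hmem])
  exact fun z hz => h6 hz

end Pool.Agent.Helper859.Stk.Ex4a
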