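import Pool.Agent.Helper859.Stk.Alg
set_option linter.all false
open Metric Set Filter Topology

namespace Pool.Agent.Helper859.Stk.Ex4b
open Pool.Agent.Helper859.Stk

theorem compact_in_ball {C : Set ℂ} (hC : IsCompact C) (h : C ⊆ ball (0 : ℂ) 1) :
    ∃ ρ : ℝ, ρ < 1 ∧ ∀ z ∈ C, ‖z‖ ≤ ρ := by
  rcases C.eq_empty_or_nonempty with he | hne
  · exact ⟨0, zero_lt_one, by rw [he]; intro z hz; exact absurd hz (notMem_empty _)⟩
  · obtain ⟨z0, hz0, hmax⟩ := hC.exists_isMaxOn hne continuous_norm.continuousOn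
    exact ⟨‖z0‖, mem_ball_zero_iff.1 (h hz0), fun z hz => hmax hz⟩

theorem den_ne {b z : ℂ} (hb : ‖b‖ < 1) (hz : ‖z‖ ≤ 1) : 1 - (starRingEnd ℂ) b * z ≠ 0 := by
  intro h
  have h1 : (starRingEnd ℂ) b * z = 1 := (sub_eq_zero.1 h).symm
  have h2 : ‖(starRingEnd ℂ) b * z‖ = 1 := by rw [h1, norm_one]
  rw [norm_mul, RCLike.norm_conj] at h2
  have := norm_nonneg b
  have := norm_nonneg z
  nlinarith

theorem bl_id (b z : ℂ) : ‖1 - (starRingEnd ℂ) b * z‖ ^ 2 - ‖z - b‖ ^ 2 =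
    (1 - ‖z‖ ^ 2) * (1 - ‖b‖ ^ 2) := by
  simp only [← Complex.normSq_eq_norm_sq, Complex.normSq_apply]
  simp
  ring

theorem bl_le {b z : ℂ} (hb : ‖b‖ < 1) (hz : ‖z‖ ≤ 1) :
    ‖(z - b) / (1 - (starRingEnd ℂ) b * z)‖ ≤ 1 := by
  have h0 := norm_pos_iff.2 (den_ne hb hz)
  rw [norm_div, div_le_one h0]
  have h1 := bl_id b z
  have h2 : 0 ≤ (1 - ‖z‖ ^ 2) * (1 - ‖b‖ ^ 2) := by
    apply mul_nonneg
    · nlinarith [norm_nonneg z]
    · nlinarith [norm_nonneg b]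
  exact abs_le_of_sq_le_sq' (by linarith) h0.le |>.2

theorem bl_eq {b z : ℂ} (hb : ‖b‖ < 1) (hz : ‖z‖ = 1) :
    ‖(z - b) / (1 - (starRingEnd ℂ) b * z)‖ = 1 := by
  have h0 := norm_pos_iff.2 (den_ne hb hz.le)
  rw [norm_div, div_eq_one_iff_eq h0.ne']
  have h1 := bl_id b z
  rw [hz] at h1
  have h2 : ‖z - b‖ ^ 2 = ‖1 - (starRingEnd ℂ) b * z‖ ^ 2 := by linarith
  exact (sq_eq_sq₀ (norm_nonneg _) h0.le).1 h2

theorem blaschke {φ ψ : ℂ → ℂ} {R : ℝ} (hR : 0 < R) (a : Fin 7 → ℂ)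
    (dφ : DifferentiableOn ℂ φ (ball (0 : ℂ) 1))
    (mφ : ∀ z ∈ ball (0 : ℂ) 1, ‖∏ j, (φ z - a j)‖ < R)
    (dψ : DifferentiableOn ℂ ψ {x | ‖∏ j, (x - a j)‖ < R})
    (mψ : ∀ x, ‖∏ j, (x - a j)‖ < R → ψ x ∈ ball (0 : ℂ) 1)
    (φψ : ∀ x, ‖∏ j, (x - a j)‖ < R → φ (ψ x) = x)
    (ψφ : ∀ z ∈ ball (0 : ℂ) 1, ψ (φ z) = z)
    (hconst : ∀ Q : ℂ → ℂ, DifferentiableOn ℂ Q (ball (0 : ℂ) 1) → (∀ z ∈ ball (0 : ℂ) 1, Q z ≠ 0) →
      (∀ ε : ℝ, 0 < ε → ∃ ρ : ℝ, ρ < 1 ∧ ∀ z : ℂ, ρ < ‖z‖ → ‖z‖ < 1 → |‖Q z‖ - 1| < ε) →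
      ∃ c : ℂ, ‖c‖ = 1 ∧ ∀ z ∈ ball (0 : ℂ) 1, Q z = c) :
    ∃ c : ℂ, ‖c‖ = 1 ∧ ∀ z ∈ ball (0 : ℂ) 1, ∏ j, (φ z - a j) =
      R * (c * ∏ j, ((z - ψ (a j)) / (1 - (starRingEnd ℂ) (ψ (a j)) * z))) := by
  obtain ⟨X, hX⟩ : ∃ X : Set ℂ, X = {x | ‖∏ j, (x - a j)‖ < R} := ⟨_, rfl⟩
  have hpc : Continuous (fun x : ℂ => ‖∏ j, (x - a j)‖) := by fun_prop
  have hXo : IsOpen X := by rw [hX]; exact isOpen_lt hpc continuous_const
  have haX : ∀ j, ‖∏ k, (a j - a k)‖ < R := by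
    intro j
    rw [Finset.prod_eq_zero (Finset.mem_univ j) (sub_self _), norm_zero]
    exact hR
  obtain ⟨b, hb⟩ : ∃ b : Fin 7 → ℂ, b = fun j => ψ (a j) := ⟨_, rfl⟩
  have hbb : ∀ j, b j ∈ ball (0 : ℂ) 1 := by
    intro j
    rw [hb]
    exact mψ _ (haX j)
  have hb1 : ∀ j, ‖b j‖ < 1 := fun j => mem_ball_zero_iff.1 (hbb j)
  have hφb : ∀ j, φ (b j) = a j := by
    intro j
    rw [hb]
    exact φψ _ (haX j)
  have hball : IsOpen (ball (0 : ℂ) 1) := isOpen_ball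
  -- derivative of φ does not vanish
  have hder : ∀ j, deriv φ (b j) ≠ 0 := by
    intro j h0
    have h1 : HasDerivAt φ (deriv φ (b j)) (b j) :=
      (dφ.differentiableAt (hball.mem_nhds (hbb j))).hasDerivAt
    have h2 : DifferentiableAt ℂ ψ (φ (b j)) := by
      refine dψ.differentiableAt ?_
      rw [hX] at hXo
      exact hXo.mem_nhds (mφ _ (hbb j))
    have h3 := h2.hasDerivAt.comp (b j) h1
    have h4 : (ψ ∘ φ) =ᶠ[𝓝 (b j)] id := by
      filter_upwards [hball.mem_nhds (hbb j)] with z hz using ψφ z hz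
    have h5 := (h3.congr_of_eventuallyEq h4.symm).unique (hasDerivAt_id (b j))
    rw [h0, mul_zero] at h5
    exact zero_ne_one h5
  have hds : ∀ j, ∀ z ∈ ball (0 : ℂ) 1, dslope φ (b j) z ≠ 0 := by
    intro j z hz
    by_cases hzb : z = b j
    · rw [hzb, dslope_same]
      exact hder j
    · rw [dslope_of_ne _ hzb]
      intro h0
      rw [slope_def_field, div_eq_zero_iff] at h0
      rcases h0 with h0 | h0
      · apply hzb
        rw [← ψφ z hz, sub_eq_zero.1 h0, ψφ _ (hbb j)]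
      · exact hzb (sub_eq_zero.1 h0)
  have hR0 : (R : ℂ) ≠ 0 := by exact_mod_cast hR.ne'
  obtain ⟨Q, hQ⟩ : ∃ Q : ℂ → ℂ, Q = fun z => (∏ j, dslope φ (b j) z *
    (1 - (starRingEnd ℂ) (b j) * z)) / R := ⟨_, rfl⟩
  obtain ⟨Bl, hBl⟩ : ∃ Bl : ℂ → ℂ, Bl = fun z => ∏ j, ((z - b j) /
    (1 - (starRingEnd ℂ) (b j) * z)) := ⟨_, rfl⟩
  have hQB : ∀ z ∈ ball (0 : ℂ) 1, ∏ j, (φ z - a j) = R * (Q z * Bl z) := by
    intro z hz
    have hz1 : ‖z‖ < 1 := mem_ball_zero_iff.1 hz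
    rw [hQ, hBl]
    simp only
    rw [div_mul_eq_mul_div, mul_div_cancel₀ _ hR0, ← Finset.prod_mul_distrib]
    refine Finset.prod_congr rfl fun j _ => ?_
    have h1 := den_ne (hb1 j) hz1.le
    have h2 := sub_smul_dslope φ (b j) z
    rw [smul_eq_mul, hφb] at h2
    rw [← h2, mul_assoc, mul_div_cancel₀ _ h1]
    ring
  have hQd : DifferentiableOn ℂ Q (ball (0 : ℂ) 1) := by
    rw [hQ]
    refine DifferentiableOn.div_const ?_ _
    refine DifferentiableOn.fun_finsetProd fun j _ => ?_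
    refine DifferentiableOn.mul ?_ (by fun_prop)
    exact (Complex.differentiableOn_dslope (hball.mem_nhds (hbb j))).2 dφ
  have hQ0 : ∀ z ∈ ball (0 : ℂ) 1, Q z ≠ 0 := by
    intro z hz
    have hz1 : ‖z‖ < 1 := mem_ball_zero_iff.1 hz
    rw [hQ]
    refine div_ne_zero (Finset.prod_ne_zero_iff.2 fun j _ => ?_) hR0
    exact mul_ne_zero (hds j z hz) (den_ne (hb1 j) hz1.le)
  have hBle : ∀ z : ℂ, ‖z‖ ≤ 1 → ‖Bl z‖ ≤ 1 := by
    intro z hz
    rw [hBl]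
    simp only [norm_prod]
    exact Finset.prod_le_one (fun _ _ => norm_nonneg _) fun j _ => bl_le (hb1 j) hz
  have hBeq : ∀ z : ℂ, ‖z‖ = 1 → ‖Bl z‖ = 1 := by
    intro z hz
    rw [hBl]
    simp only [norm_prod]
    exact Finset.prod_eq_one fun j _ => bl_eq (hb1 j) hz
  have hBc : ContinuousOn (fun z => ‖Bl z‖) (closedBall (0 : ℂ) 1) := by
    rw [hBl]
    refine ContinuousOn.norm ?_
    refine continuousOn_finsetProd _ fun j _ => ?_
    refine ContinuousOn.div (by fun_prop) (by fun_prop) fun z hz => ?_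
    exact den_ne (hb1 j) (mem_closedBall_zero_iff.1 hz)
  obtain ⟨c, hc1, hc⟩ := hconst Q hQd hQ0 (by
    intro ε hε
    obtain ⟨η, hη⟩ : ∃ η, η = min (1 / 2) (ε / 4) := ⟨_, rfl⟩
    have hη0 : 0 < η := by rw [hη]; positivity
    have hη1 : η ≤ 1 / 2 := by rw [hη]; exact min_le_left _ _
    have hη2 : η ≤ ε / 4 := by rw [hη]; exact min_le_right _ _
    -- first compact set
    obtain ⟨ρ1, hρ1, h1⟩ : ∃ ρ : ℝ, ρ < 1 ∧ ∀ z : ℂ, ρ < ‖z‖ → ‖z‖ < 1 →
        (1 - η) * R < ‖∏ j, (φ z - a j)‖ := by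
      have hKc : IsCompact {x : ℂ | ‖∏ j, (x - a j)‖ ≤ (1 - η) * R} := by
        refine Metric.isCompact_of_isClosed_isBounded (isClosed_le hpc continuous_const) ?_
        refine (isBounded_iff_forall_norm_le.2 ⟨(∑ j, ‖a j‖) + max 1 R, ?_⟩)
        intro x hx
        by_contra hlt
        push Not at hlt
        have h2 : ∀ j, max 1 R ≤ ‖x - a j‖ := by
          intro j
          have h3 : ‖a j‖ ≤ ∑ j, ‖a j‖ :=
            Finset.single_le_sum (f := fun j => ‖a j‖) (fun _ _ => norm_nonneg _)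
              (Finset.mem_univ j)
          have h4 := norm_sub_norm_le x (a j)
          linarith
        have h5 : (max 1 R) ^ 7 ≤ ‖∏ j, (x - a j)‖ := by
          rw [norm_prod]
          have := Finset.prod_le_prod (s := (Finset.univ : Finset (Fin 7)))
            (f := fun _ => max 1 R) (g := fun j => ‖x - a j‖)
            (fun _ _ => by positivity) (fun j _ => h2 j)
          simpa using this
        have h6 : max 1 R ≤ (max 1 R) ^ 7 := le_self_pow₀ (le_max_left _ _) (by norm_num)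
        have h7 : R ≤ max 1 R := le_max_right _ _
        have h8 : ‖∏ j, (x - a j)‖ ≤ (1 - η) * R := hx
        nlinarith
      have hKX : {x : ℂ | ‖∏ j, (x - a j)‖ ≤ (1 - η) * R} ⊆ {x | ‖∏ j, (x - a j)‖ < R} := by
        intro x hx
        have h8 : ‖∏ j, (x - a j)‖ ≤ (1 - η) * R := hx
        have : ‖∏ j, (x - a j)‖ < R := by nlinarith
        exact this
      obtain ⟨ρ, hρ, hle⟩ := compact_in_ball (hKc.image_of_continuousOn
        (dψ.continuousOn.mono hKX)) (by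
          rintro _ ⟨x, hx, rfl⟩
          exact mψ x (hKX hx))
      refine ⟨ρ, hρ, fun z hz1 hz2 => ?_⟩
      by_contra hcon
      push Not at hcon
      have := hle (ψ (φ z)) ⟨φ z, hcon, rfl⟩
      rw [ψφ z (mem_ball_zero_iff.2 hz2)] at this
      linarith
    -- second compact set
    obtain ⟨ρ2, hρ2, h2⟩ : ∃ ρ : ℝ, ρ < 1 ∧ ∀ z : ℂ, ρ < ‖z‖ → ‖z‖ < 1 → 1 - η < ‖Bl z‖ := by
      have hKc : IsCompact (closedBall (0 : ℂ) 1 ∩ (fun z => ‖Bl z‖) ⁻¹' (Iic (1 - η))) :=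
        (isCompact_closedBall (0 : ℂ) 1).of_isClosed_subset
          (hBc.preimage_isClosed_of_isClosed isClosed_closedBall isClosed_Iic)
          inter_subset_left
      obtain ⟨ρ, hρ, hle⟩ := compact_in_ball hKc (by
        rintro z ⟨hz1, hz2⟩
        rw [mem_ball_zero_iff]
        refine lt_of_le_of_ne (mem_closedBall_zero_iff.1 hz1) fun he => ?_
        have h3 : ‖Bl z‖ ≤ 1 - η := hz2
        rw [hBeq z he] at h3
        linarith)
      refine ⟨ρ, hρ, fun z hz1 hz2 => ?_⟩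
      by_contra hcon
      push Not at hcon
      have := hle z ⟨mem_closedBall_zero_iff.2 hz2.le, hcon⟩
      linarith
    refine ⟨max ρ1 ρ2, max_lt hρ1 hρ2, fun z hz1 hz2 => ?_⟩
    have k1 := h1 z ((le_max_left _ _).trans_lt hz1) hz2
    have k2 := h2 z ((le_max_right _ _).trans_lt hz1) hz2
    have hzb : z ∈ ball (0 : ℂ) 1 := mem_ball_zero_iff.2 hz2
    have k3 := mφ z hzb
    have k4 := hBle z hz2.le
    have k5 : ‖∏ j, (φ z - a j)‖ = R * (‖Q z‖ * ‖Bl z‖) := by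
      rw [hQB z hzb, norm_mul, norm_mul, Complex.norm_real, Real.norm_eq_abs, abs_of_pos hR]
    rw [k5] at k1 k3
    have hq := norm_nonneg (Q z)
    have k6 : 1 - η < ‖Q z‖ * ‖Bl z‖ := by
      by_contra hcon
      push Not at hcon
      nlinarith
    have k7 : ‖Q z‖ * ‖Bl z‖ < 1 := by
      by_contra hcon
      push Not at hcon
      nlinarith
    have k8 : ‖Q z‖ * (1 - η) < 1 := by nlinarith
    have k9 : 1 - η < ‖Q z‖ := by nlinarith
    have k10 : ‖Q z‖ < 1 + 2 * η := by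
      by_contra hcon
      push Not at hcon
      nlinarith
    rw [abs_lt]
    constructor <;> linarith)
  refine ⟨c, hc1, fun z hz => ?_⟩
  rw [hQB z hz, hc z hz, hBl, hb]

end Pool.Agent.Helper859.Stk.Ex4b
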