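import Pool.Agent.Helper859.Stk.Alg
set_option linter.all false
open Metric Set Filter Topology

namespace Pool.Agent.Helper859.Stk.Ex5
open Pool.Agent.Helper859.Stk

theorem small {X : Set ℂ} {ψ : ℂ → ℂ} (hψ : DifferentiableOn ℂ ψ X) (hm : MapsTo ψ X (ball (0 : ℂ) 1))
    (h0 : ψ 0 = 0) {ρ : ℝ} (hρ : 0 < ρ) (hX : ball (0 : ℂ) ρ ⊆ X) {x : ℂ} (hx : ‖x‖ < ρ) :
    ‖ψ x‖ ≤ ‖x‖ / ρ := by
  have h := Complex.dist_le_div_mul_dist_of_mapsTo_ball (f := ψ) (c := 0) (z := x) (R₁ := ρ)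
    (R₂ := 1) (hψ.mono hX) (by
      rw [h0]
      exact fun z hz => ball_subset_closedBall (hm (hX hz))) (by simpa using hx)
  rw [h0, dist_zero_right, dist_zero_right] at h
  calc ‖ψ x‖ ≤ 1 / ρ * ‖x‖ := h
    _ = ‖x‖ / ρ := by ring

end Pool.Agent.Helper859.Stk.Ex5
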