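import Pool.Agent.Helper859.Stk.Alg
set_option linter.all false
open Metric Set Filter Topology

namespace Pool.Agent.Helper859.Stk.Ex6
open Pool.Agent.Helper859.Stk

theorem est_cont (z₀ : ℂ) (hz : z₀ ≠ 0) :
    ContinuousAt (fun p : ((Fin 7 → ℂ) × (Fin 6 → ℂ)) × ℂ =>
      (∏ j, ((p.2 - p.1.1 j) / (1 - (starRingEnd ℂ) (p.1.1 j) * p.2))) *
      (∑ j, (1 - (starRingEnd ℂ) (p.1.1 j) * p.1.1 j) /
        ((p.2 - p.1.1 j) * (1 - (starRingEnd ℂ) (p.1.1 j) * p.2))) *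
      (∏ k, ((1 - (starRingEnd ℂ) (p.1.2 k) * p.2) / (p.2 - p.1.2 k))) - 7)
      ((0, 0), z₀) := by
  have c1 : ∀ j : Fin 7, Continuous fun p : ((Fin 7 → ℂ) × (Fin 6 → ℂ)) × ℂ => p.1.1 j := by
    intro j; fun_prop
  have c2 : ∀ j : Fin 6, Continuous fun p : ((Fin 7 → ℂ) × (Fin 6 → ℂ)) × ℂ => p.1.2 j := by
    intro j; fun_prop
  have c3 : Continuous fun p : ((Fin 7 → ℂ) × (Fin 6 → ℂ)) × ℂ => p.2 := continuous_snd
  have c1' : ∀ j : Fin 7, Continuous fun p : ((Fin 7 → ℂ) × (Fin 6 → ℂ)) × ℂ =>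
      (starRingEnd ℂ) (p.1.1 j) := fun j => Complex.continuous_conj.comp (c1 j)
  have c2' : ∀ j : Fin 6, Continuous fun p : ((Fin 7 → ℂ) × (Fin 6 → ℂ)) × ℂ =>
      (starRingEnd ℂ) (p.1.2 j) := fun j => Complex.continuous_conj.comp (c2 j)
  refine ContinuousAt.sub (ContinuousAt.mul (ContinuousAt.mul ?_ ?_) ?_) continuousAt_const
  · refine tendsto_finsetProd _ fun j _ => ?_
    refine ContinuousAt.div (c3.sub (c1 j)).continuousAt
      (continuous_const.sub ((c1' j).mul c3)).continuousAt ?_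
    simp
  · refine tendsto_finsetSum _ fun j _ => ?_
    refine ContinuousAt.div (continuous_const.sub ((c1' j).mul (c1 j))).continuousAt
      ((c3.sub (c1 j)).mul (continuous_const.sub ((c1' j).mul c3))).continuousAt ?_
    simpa using hz
  · refine tendsto_finsetProd _ fun j _ => ?_
    refine ContinuousAt.div (continuous_const.sub ((c2' j).mul c3)).continuousAt
      (c3.sub (c2 j)).continuousAt ?_
    simpa using hz

theorem est : ∃ δ : ℝ, 0 < δ ∧ δ < 1 / 4 ∧ ∀ (a : Fin 7 → ℂ) (g : Fin 6 → ℂ), (∀ j, ‖a j‖ ≤ δ) →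
    (∀ k, ‖g k‖ ≤ δ) → ∀ z : ℂ, ‖z‖ = 3 / 2 →
    ‖(∏ j, ((z - a j) / (1 - (starRingEnd ℂ) (a j) * z))) *
      (∑ j, (1 - (starRingEnd ℂ) (a j) * a j) / ((z - a j) * (1 - (starRingEnd ℂ) (a j) * z))) *
      (∏ k, ((1 - (starRingEnd ℂ) (g k) * z) / (z - g k))) - 7‖ ≤ 1 := by
  have hK : IsCompact (sphere (0 : ℂ) (3 / 2)) := isCompact_sphere _ _
  have key : ∀ᶠ x : (Fin 7 → ℂ) × (Fin 6 → ℂ) in 𝓝 (0, 0), ∀ z ∈ sphere (0 : ℂ) (3 / 2),
      ‖(∏ j, ((z - x.1 j) / (1 - (starRingEnd ℂ) (x.1 j) * z))) *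
      (∑ j, (1 - (starRingEnd ℂ) (x.1 j) * x.1 j) /
        ((z - x.1 j) * (1 - (starRingEnd ℂ) (x.1 j) * z))) *
      (∏ k, ((1 - (starRingEnd ℂ) (x.2 k) * z) / (z - x.2 k))) - 7‖ < 1 := by
    refine hK.eventually_forall_of_forall_eventually fun z₀ hz₀ => ?_
    have hz0 : z₀ ≠ 0 := by
      rintro rfl
      rw [mem_sphere_zero_iff_norm, norm_zero] at hz₀
      norm_num at hz₀
    have h1 := (est_cont z₀ hz0).norm
    refine h1.tendsto.eventually_lt_const ?_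
    have e1 : z₀ ^ 7 * (7 * z₀⁻¹) * (z₀⁻¹) ^ 6 - 7 = 0 := by
      field_simp
      ring
    simp only [Pi.zero_apply, map_zero, zero_mul, sub_zero, div_one, mul_one, Finset.prod_const,
      Finset.sum_const, Finset.card_univ, Fintype.card_fin, nsmul_eq_mul, one_div, Nat.cast_ofNat]
    rw [e1, norm_zero]
    norm_num
  obtain ⟨ε, hε, hεs⟩ := Metric.eventually_nhds_iff.1 key
  refine ⟨min (ε / 2) (1 / 5), lt_min (by positivity) (by norm_num),
    lt_of_le_of_lt (min_le_right _ _) (by norm_num), fun a g ha hg z hz => ?_⟩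
  have hd : dist ((a, g) : (Fin 7 → ℂ) × (Fin 6 → ℂ)) (0, 0) < ε := by
    have h0 : (0 : ℝ) ≤ ε / 2 := by positivity
    have h1 : ‖a‖ ≤ ε / 2 := (pi_norm_le_iff_of_nonneg h0).2 fun j => (ha j).trans (min_le_left _ _)
    have h2 : ‖g‖ ≤ ε / 2 := (pi_norm_le_iff_of_nonneg h0).2 fun j => (hg j).trans (min_le_left _ _)
    rw [Prod.dist_eq, dist_zero_right, dist_zero_right]
    exact lt_of_le_of_lt (max_le h1 h2) (by linarith)
  exact (hεs hd z (mem_sphere_zero_iff_norm.2 hz)).le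

end Pool.Agent.Helper859.Stk.Ex6
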