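import Pool.Agent.Helper859.Stk.Alg
set_option linter.all false
open Metric Set Filter Topology

namespace Pool.Agent.Helper859.Stk.Ex7a
open Pool.Agent.Helper859.Stk


lemma bl_key (a z : ℂ) : ‖1 - (starRingEnd ℂ) a * z‖ ^ 2 - ‖z - a‖ ^ 2 =
    (1 - ‖z‖ ^ 2) * (1 - ‖a‖ ^ 2) := by
  rw [Complex.sq_norm, Complex.sq_norm, Complex.sq_norm, Complex.sq_norm]
  simp only [Complex.normSq_apply, Complex.sub_re, Complex.sub_im, Complex.mul_re, Complex.mul_im,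
    Complex.conj_re, Complex.conj_im, Complex.one_re, Complex.one_im]
  ring

lemma bl_den {a z : ℂ} (ha : ‖a‖ < 1 / 4) (hz : ‖z‖ < 2) : 1 - (starRingEnd ℂ) a * z ≠ 0 := by
  intro h
  have h1 : (starRingEnd ℂ) a * z = 1 := (sub_eq_zero.1 h).symm
  have h2 : ‖(starRingEnd ℂ) a * z‖ = 1 := by rw [h1, norm_one]
  rw [norm_mul, RCLike.norm_conj] at h2
  nlinarith [norm_nonneg a, norm_nonneg z]

lemma bl_one {a z : ℂ} (ha : ‖a‖ < 1 / 4) (hz : ‖z‖ = 1) :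
    ‖(z - a) / (1 - (starRingEnd ℂ) a * z)‖ = 1 := by
  have hd : 0 < ‖1 - (starRingEnd ℂ) a * z‖ := norm_pos_iff.2 (bl_den ha (by rw [hz]; norm_num))
  have h := bl_key a z
  rw [hz] at h
  have h2 : ‖z - a‖ ^ 2 = ‖1 - (starRingEnd ℂ) a * z‖ ^ 2 := by linarith
  have h3 : ‖z - a‖ = ‖1 - (starRingEnd ℂ) a * z‖ :=
    (sq_eq_sq₀ (norm_nonneg _) (norm_nonneg _)).1 h2
  rw [norm_div, h3, div_self hd.ne']

lemma bl_lt {a z : ℂ} (ha : ‖a‖ < 1 / 4) (hz : ‖z‖ < 1) :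
    ‖(z - a) / (1 - (starRingEnd ℂ) a * z)‖ < 1 := by
  have hd : 0 < ‖1 - (starRingEnd ℂ) a * z‖ := norm_pos_iff.2 (bl_den ha (by linarith))
  have h := bl_key a z
  have h1 : 0 < (1 - ‖z‖ ^ 2) * (1 - ‖a‖ ^ 2) :=
    mul_pos (by nlinarith [norm_nonneg z]) (by nlinarith [norm_nonneg a])
  have h2 : ‖z - a‖ ^ 2 < ‖1 - (starRingEnd ℂ) a * z‖ ^ 2 := by linarith
  have h3 : ‖z - a‖ < ‖1 - (starRingEnd ℂ) a * z‖ :=
    (sq_lt_sq₀ (norm_nonneg _) (norm_nonneg _)).1 h2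
  rw [norm_div, div_lt_one hd]
  exact h3

lemma bl_gt {a z : ℂ} (ha : ‖a‖ < 1 / 4) (hz : 1 < ‖z‖) (hz2 : ‖z‖ < 2) :
    1 < ‖(z - a) / (1 - (starRingEnd ℂ) a * z)‖ := by
  have hd : 0 < ‖1 - (starRingEnd ℂ) a * z‖ := norm_pos_iff.2 (bl_den ha hz2)
  have h := bl_key a z
  have h1 : 0 < (‖z‖ ^ 2 - 1) * (1 - ‖a‖ ^ 2) :=
    mul_pos (by nlinarith [norm_nonneg z]) (by nlinarith [norm_nonneg a])
  have h2 : ‖1 - (starRingEnd ℂ) a * z‖ ^ 2 < ‖z - a‖ ^ 2 := by nlinarith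
  have h3 : ‖1 - (starRingEnd ℂ) a * z‖ < ‖z - a‖ :=
    (sq_lt_sq₀ (norm_nonneg _) (norm_nonneg _)).1 h2
  rw [norm_div, one_lt_div hd]
  exact h3

theorem blaschke_norm (a : Fin 7 → ℂ) (ha : ∀ j, ‖a j‖ < 1 / 4) :
    (∀ z : ℂ, ‖z‖ = 1 → ‖∏ j, ((z - a j) / (1 - (starRingEnd ℂ) (a j) * z))‖ = 1) ∧
    (∀ z : ℂ, ‖z‖ < 1 → ‖∏ j, ((z - a j) / (1 - (starRingEnd ℂ) (a j) * z))‖ < 1) ∧
    (∀ z : ℂ, 1 < ‖z‖ → ‖z‖ < 2 → 1 < ‖∏ j, ((z - a j) / (1 - (starRingEnd ℂ) (a j) * z))‖) ∧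
    DifferentiableOn ℂ (fun z => ∏ j, ((z - a j) / (1 - (starRingEnd ℂ) (a j) * z))) (ball (0 : ℂ) 2) := by
  refine ⟨?_, ?_, ?_, ?_⟩
  · intro z hz
    rw [norm_prod]
    exact Finset.prod_eq_one fun j _ => bl_one (ha j) hz
  · intro z hz
    rw [norm_prod, Fin.prod_univ_succ]
    refine mul_lt_one_of_nonneg_of_lt_one_left (norm_nonneg _) (bl_lt (ha 0) hz) ?_
    exact Finset.prod_le_one (fun j _ => norm_nonneg _) fun j _ => (bl_lt (ha _) hz).le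
  · intro z hz hz2
    rw [norm_prod, Fin.prod_univ_succ]
    have h1 : (1:ℝ) ≤ ∏ j : Fin 6, ‖(z - a j.succ) / (1 - (starRingEnd ℂ) (a j.succ) * z)‖ := by
      calc (1:ℝ) = ∏ _j : Fin 6, (1:ℝ) := by simp
        _ ≤ _ := Finset.prod_le_prod (fun _ _ => by norm_num) fun j _ => (bl_gt (ha _) hz hz2).le
    have h0 := bl_gt (ha 0) hz hz2
    calc (1:ℝ) < ‖(z - a 0) / (1 - (starRingEnd ℂ) (a 0) * z)‖ := h0
      _ = ‖(z - a 0) / (1 - (starRingEnd ℂ) (a 0) * z)‖ * 1 := (mul_one _).symm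
      _ ≤ _ := mul_le_mul_of_nonneg_left h1 (norm_nonneg _)
  · apply DifferentiableOn.fun_finset_prod
    intro j _
    apply DifferentiableOn.div
    · fun_prop
    · fun_prop
    · intro z hz
      exact bl_den (ha j) (by simpa using hz)

end Pool.Agent.Helper859.Stk.Ex7a
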