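import Pool.Agent.Helper859.Stk.Alg
set_option linter.all false
open Metric Set Filter Topology

namespace Pool.Agent.Helper859.Stk.Ex7c
open Pool.Agent.Helper859.Stk

theorem ne_aux1 {a z : ℂ} (ha : ‖a‖ < 1 / 4) (hz : 1 / 4 < ‖z‖) : z - a ≠ 0 := by
  intro h
  rw [sub_eq_zero] at h
  rw [h] at hz
  linarith

theorem ne_aux2 {a z : ℂ} (ha : ‖a‖ < 1 / 4) (hz : ‖z‖ < 2) :
    1 - (starRingEnd ℂ) a * z ≠ 0 := by
  intro h
  rw [sub_eq_zero] at h
  have h1 : ‖(starRingEnd ℂ) a * z‖ = 1 := by rw [← h, norm_one]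
  rw [norm_mul, RCLike.norm_conj] at h1
  nlinarith [norm_nonneg a, norm_nonneg z]

theorem factor_deriv {a z : ℂ} (ha : ‖a‖ < 1 / 4) (hz1 : 1 / 4 < ‖z‖) (hz2 : ‖z‖ < 2) :
    HasDerivAt (fun z => (z - a) / (1 - (starRingEnd ℂ) a * z))
      (((z - a) / (1 - (starRingEnd ℂ) a * z)) *
        ((1 - (starRingEnd ℂ) a * a) / ((z - a) * (1 - (starRingEnd ℂ) a * z)))) z := by
  have h1 := ne_aux1 ha hz1
  have h2 := ne_aux2 ha hz2
  have d1 : HasDerivAt (fun z : ℂ => z - a) 1 z := (hasDerivAt_id z).sub_const a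
  have d2 : HasDerivAt (fun z : ℂ => 1 - (starRingEnd ℂ) a * z) (-((starRingEnd ℂ) a)) z := by
    have h3 := ((hasDerivAt_id z).const_mul ((starRingEnd ℂ) a)).const_sub 1
    refine h3.congr_deriv ?_
    rw [mul_one]
  refine (d1.div d2 h2).congr_deriv ?_
  field_simp
  ring

theorem re_pos_aux {a z : ℂ} (ha : ‖a‖ < 1 / 4) (hz : ‖z‖ = 1) :
    0 < (z * ((1 - (starRingEnd ℂ) a * a) / ((z - a) * (1 - (starRingEnd ℂ) a * z)))).re := by
  have h1 : z - a ≠ 0 := ne_aux1 ha (by rw [hz]; norm_num)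
  have hz0 : z ≠ 0 := by
    intro h
    rw [h, norm_zero] at hz
    exact zero_ne_one hz
  have hzz : z * (starRingEnd ℂ) z = 1 := by
    rw [Complex.mul_conj', hz]
    norm_num
  have h3 : 1 - (starRingEnd ℂ) a * z = z * (starRingEnd ℂ) (z - a) := by
    rw [map_sub]
    linear_combination -hzz
  have h4 : (z - a) * (1 - (starRingEnd ℂ) a * z) = z * ((‖z - a‖ ^ 2 : ℝ) : ℂ) := by
    rw [h3]
    push_cast
    rw [← Complex.mul_conj']
    ring
  have h5 : 1 - (starRingEnd ℂ) a * a = ((1 - ‖a‖ ^ 2 : ℝ) : ℂ) := by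
    rw [Complex.conj_mul']
    push_cast
    ring
  have h6 : z * ((1 - (starRingEnd ℂ) a * a) / ((z - a) * (1 - (starRingEnd ℂ) a * z))) =
      (((1 - ‖a‖ ^ 2) / ‖z - a‖ ^ 2 : ℝ) : ℂ) := by
    rw [h4, h5]
    push_cast
    rw [mul_div_assoc', mul_div_mul_left _ _ hz0]
  rw [h6, Complex.ofReal_re]
  have h7 : 0 < ‖z - a‖ := norm_pos_iff.2 h1
  have h8 : 0 < 1 - ‖a‖ ^ 2 := by nlinarith [norm_nonneg a]
  positivity

theorem blaschke_deriv (a : Fin 7 → ℂ) (ha : ∀ j, ‖a j‖ < 1 / 4) :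
    (∀ z : ℂ, 1 / 4 < ‖z‖ → ‖z‖ < 2 →
      HasDerivAt (fun z => ∏ j, ((z - a j) / (1 - (starRingEnd ℂ) (a j) * z)))
        ((∏ j, ((z - a j) / (1 - (starRingEnd ℂ) (a j) * z))) *
          (∑ j, (1 - (starRingEnd ℂ) (a j) * a j) / ((z - a j) * (1 - (starRingEnd ℂ) (a j) * z)))) z) ∧
    (∀ z : ℂ, ‖z‖ = 1 → deriv (fun z => ∏ j, ((z - a j) / (1 - (starRingEnd ℂ) (a j) * z))) z ≠ 0) := by
  have hD : ∀ z : ℂ, 1 / 4 < ‖z‖ → ‖z‖ < 2 →
      HasDerivAt (fun z => ∏ j, ((z - a j) / (1 - (starRingEnd ℂ) (a j) * z)))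
        ((∏ j, ((z - a j) / (1 - (starRingEnd ℂ) (a j) * z))) *
          (∑ j, (1 - (starRingEnd ℂ) (a j) * a j) / ((z - a j) * (1 - (starRingEnd ℂ) (a j) * z)))) z := by
    intro z hz1 hz2
    have h1 := HasDerivAt.fun_finsetProd (u := (Finset.univ : Finset (Fin 7)))
      (f := fun j z => (z - a j) / (1 - (starRingEnd ℂ) (a j) * z)) (x := z)
      (fun j _ => factor_deriv (ha j) hz1 hz2)
    refine h1.congr_deriv ?_
    rw [Finset.mul_sum]
    apply Finset.sum_congr rfl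
    intro j _
    rw [smul_eq_mul, ← mul_assoc, Finset.prod_erase_mul _ _ (Finset.mem_univ j)]
  refine ⟨hD, fun z hz => ?_⟩
  have hz1 : 1 / 4 < ‖z‖ := by rw [hz]; norm_num
  have hz2 : ‖z‖ < 2 := by rw [hz]; norm_num
  rw [(hD z hz1 hz2).deriv]
  apply mul_ne_zero
  · rw [Finset.prod_ne_zero_iff]
    intro j _
    exact div_ne_zero (ne_aux1 (ha j) hz1) (ne_aux2 (ha j) hz2)
  · intro h0
    have h1 : (z * ∑ j, (1 - (starRingEnd ℂ) (a j) * a j) /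
        ((z - a j) * (1 - (starRingEnd ℂ) (a j) * z))).re = 0 := by
      rw [h0, mul_zero, Complex.zero_re]
    rw [Finset.mul_sum, Complex.re_sum] at h1
    have h2 : 0 < ∑ j, (z * ((1 - (starRingEnd ℂ) (a j) * a j) /
        ((z - a j) * (1 - (starRingEnd ℂ) (a j) * z)))).re :=
      Finset.sum_pos (fun j _ => re_pos_aux (ha j) hz) Finset.univ_nonempty
    linarith

end Pool.Agent.Helper859.Stk.Ex7c
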