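import Pool.Agent.Helper859.Stk.Alg
set_option linter.all false
open Metric Set Filter Topology

namespace Pool.Agent.Helper859.Stk.Ex7e
open Pool.Agent.Helper859.Stk

open Polynomial in
/-- the polynomial whose roots are the fibre -/
noncomputable def PP (a : Fin 7 → ℂ) (w : ℂ) : Polynomial ℂ :=
  (∏ j, (X - C (a j))) - C w * ∏ j, (1 - C ((starRingEnd ℂ) (a j)) * X)

theorem PP_eval (a : Fin 7 → ℂ) (w z : ℂ) : (PP a w).eval z =
    (∏ j, (z - a j)) - w * ∏ j, (1 - (starRingEnd ℂ) (a j) * z) := by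
  unfold PP
  simp [Polynomial.eval_prod]

open Polynomial in
theorem PP_coeff (a : Fin 7 → ℂ) (w : ℂ) :
    (PP a w).coeff 7 = 1 - w * ∏ j, (-(starRingEnd ℂ) (a j)) := by
  unfold PP
  have h1 := coeff_prod_of_natDegree_le (s := (Finset.univ : Finset (Fin 7)))
    (fun j => (X - C (a j) : ℂ[X])) 1 (fun j _ => (natDegree_X_sub_C_le _))
  have h2 := coeff_prod_of_natDegree_le (s := (Finset.univ : Finset (Fin 7)))
    (fun j => (1 - C ((starRingEnd ℂ) (a j)) * X : ℂ[X])) 1 (fun j _ => by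
      refine (natDegree_sub_le _ _).trans ?_
      rw [natDegree_one]
      exact max_le (by norm_num) ((natDegree_C_mul_le _ _).trans natDegree_X_le))
  simp only [Finset.card_univ, Fintype.card_fin, mul_one] at h1 h2
  rw [coeff_sub, coeff_C_mul, h1, h2]
  congr 1
  · simp [coeff_X, coeff_C]
  · congr 1
    refine Finset.prod_congr rfl fun j _ => ?_
    simp [coeff_one]

open Polynomial in
theorem PP_natDegree_le (a : Fin 7 → ℂ) (w : ℂ) : (PP a w).natDegree ≤ 7 := by
  unfold PP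
  refine (natDegree_sub_le _ _).trans (max_le ?_ ?_)
  · refine (natDegree_prod_le _ _).trans ?_
    refine (Finset.sum_le_sum (g := fun _ => 1) fun j _ => natDegree_X_sub_C_le _).trans ?_
    simp
  · refine (natDegree_C_mul_le _ _).trans ?_
    refine (natDegree_prod_le _ _).trans ?_
    refine (Finset.sum_le_sum (g := fun _ => 1) fun j _ => ?_).trans ?_
    · refine (natDegree_sub_le _ _).trans ?_
      rw [natDegree_one]
      exact max_le (by norm_num) ((natDegree_C_mul_le _ _).trans natDegree_X_le)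
    · simp

theorem factor_gt (a z : ℂ) (ha : ‖a‖ < 1) (hz : 1 < ‖z‖)
    (h : 1 - (starRingEnd ℂ) a * z ≠ 0) : 1 < ‖(z - a) / (1 - (starRingEnd ℂ) a * z)‖ := by
  rw [norm_div, one_lt_div (norm_pos_iff.mpr h)]
  have h1 : ‖z - a‖ ^ 2 - ‖1 - (starRingEnd ℂ) a * z‖ ^ 2 = (‖z‖ ^ 2 - 1) * (1 - ‖a‖ ^ 2) := by
    rw [← Complex.normSq_eq_norm_sq, ← Complex.normSq_eq_norm_sq, ← Complex.normSq_eq_norm_sq,
      ← Complex.normSq_eq_norm_sq]
    simp [Complex.normSq_apply]
    ring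
  have h2 : 0 < (‖z‖ ^ 2 - 1) * (1 - ‖a‖ ^ 2) := by
    have h3 : 1 < ‖z‖ ^ 2 := by nlinarith
    have h4 : ‖a‖ ^ 2 < 1 := by nlinarith [norm_nonneg a]
    exact mul_pos (by linarith) (by linarith)
  have h5 : ‖1 - (starRingEnd ℂ) a * z‖ ^ 2 < ‖z - a‖ ^ 2 := by linarith
  exact lt_of_pow_lt_pow_left₀ 2 (norm_nonneg _) h5

theorem blaschke_fibre (a : Fin 7 → ℂ) (ha : ∀ j, ‖a j‖ < 1 / 4) 
    (h1 : ∀ z : ℂ, ‖z‖ < 1 → ‖∏ j, ((z - a j) / (1 - (starRingEnd ℂ) (a j) * z))‖ < 1)
    (hd : ∀ z : ℂ, ‖z‖ = 1 → deriv (fun z => ∏ j, ((z - a j) / (1 - (starRingEnd ℂ) (a j) * z))) z ≠ 0)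
    (hD : DifferentiableOn ℂ (fun z => ∏ j, ((z - a j) / (1 - (starRingEnd ℂ) (a j) * z))) (ball (0 : ℂ) 2))
    (w : ℂ) (hw : ‖w‖ = 1) :
    ∃ s : Finset ℂ, s.card = 7 ∧ ∀ z ∈ s, z ∈ sphere (0 : ℂ) 1 ∧
      ∏ j, ((z - a j) / (1 - (starRingEnd ℂ) (a j) * z)) = w := by
  classical
  have hcoeff : (PP a w).coeff 7 ≠ 0 := by
    rw [PP_coeff]
    intro h
    have h2 : w * ∏ j, (-(starRingEnd ℂ) (a j)) = 1 := (sub_eq_zero.mp h).symm
    have h3 : ‖w * ∏ j, (-(starRingEnd ℂ) (a j))‖ < 1 := by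
      rw [norm_mul, hw, one_mul, norm_prod]
      calc ∏ j, ‖-(starRingEnd ℂ) (a j)‖ ≤ ∏ j : Fin 7, (1 / 4 : ℝ) := by
            refine Finset.prod_le_prod (fun j _ => norm_nonneg _) fun j _ => ?_
            rw [norm_neg, Complex.norm_conj]
            exact (ha j).le
        _ < 1 := by rw [Finset.prod_const]; norm_num
    rw [h2, norm_one] at h3
    exact lt_irrefl _ h3
  have hP0 : PP a w ≠ 0 := fun h => hcoeff (by rw [h, Polynomial.coeff_zero])
  have hdeg : (PP a w).natDegree = 7 :=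
    le_antisymm (PP_natDegree_le a w) (Polynomial.le_natDegree_of_ne_zero hcoeff)
  -- roots
  have hroot : ∀ z, (PP a w).eval z = 0 → (∀ j, 1 - (starRingEnd ℂ) (a j) * z ≠ 0) ∧
      ∏ j, ((z - a j) / (1 - (starRingEnd ℂ) (a j) * z)) = w ∧ ‖z‖ = 1 := by
    intro z hz
    rw [PP_eval] at hz
    have hne : ∀ j, 1 - (starRingEnd ℂ) (a j) * z ≠ 0 := by
      intro j hj
      have h2 : ∏ j, (1 - (starRingEnd ℂ) (a j) * z) = 0 :=
        Finset.prod_eq_zero (Finset.mem_univ j) hj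
      rw [h2, mul_zero, sub_zero, Finset.prod_eq_zero_iff] at hz
      obtain ⟨i, -, hi⟩ := hz
      have h3 : z = a i := sub_eq_zero.mp hi
      have h4 : (starRingEnd ℂ) (a j) * z = 1 := (sub_eq_zero.mp hj).symm
      have h5 : ‖(starRingEnd ℂ) (a j) * z‖ = 1 := by rw [h4, norm_one]
      rw [norm_mul, Complex.norm_conj, h3] at h5
      have h6 := ha j
      have h7 := ha i
      nlinarith [norm_nonneg (a j), norm_nonneg (a i)]
    have hb : ∏ j, ((z - a j) / (1 - (starRingEnd ℂ) (a j) * z)) = w := by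
      rw [Finset.prod_div_distrib, div_eq_iff (Finset.prod_ne_zero_iff.mpr fun j _ => hne j)]
      exact sub_eq_zero.mp hz
    refine ⟨hne, hb, ?_⟩
    rcases lt_trichotomy ‖z‖ 1 with h | h | h
    · have := h1 z h
      rw [hb, hw] at this
      exact absurd this (lt_irrefl _)
    · exact h
    · have h2 : 1 < ‖∏ j, ((z - a j) / (1 - (starRingEnd ℂ) (a j) * z))‖ := by
        rw [norm_prod]
        calc (1 : ℝ) = ∏ j : Fin 7, (1 : ℝ) := by simp
          _ < _ := Finset.prod_lt_prod_of_nonempty (fun j _ => one_pos)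
            (fun j _ => factor_gt (a j) z (by linarith [ha j]) h (hne j)) Finset.univ_nonempty
      rw [hb, hw] at h2
      exact absurd h2 (lt_irrefl _)
  have hsimple : ∀ z, (PP a w).eval z = 0 → (PP a w).derivative.eval z ≠ 0 := by
    intro z hz
    obtain ⟨hne, hb, hz1⟩ := hroot z hz
    have hball : ball (0 : ℂ) 2 ∈ nhds z := by
      apply isOpen_ball.mem_nhds
      rw [mem_ball_zero_iff, hz1]
      norm_num
    have hb' : HasDerivAt (fun z => ∏ j, ((z - a j) / (1 - (starRingEnd ℂ) (a j) * z)))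
        (deriv (fun z => ∏ j, ((z - a j) / (1 - (starRingEnd ℂ) (a j) * z))) z) z :=
      (hD.differentiableAt hball).hasDerivAt
    have hden : DifferentiableAt ℂ (fun z => ∏ j, (1 - (starRingEnd ℂ) (a j) * z)) z := by
      fun_prop
    have hprod := hden.hasDerivAt.mul (hb'.sub_const w)
    have hcont : ContinuousAt (fun z => ∏ j, (1 - (starRingEnd ℂ) (a j) * z)) z :=
      hden.continuousAt
    have hDz : ∏ j, (1 - (starRingEnd ℂ) (a j) * z) ≠ 0 :=
      Finset.prod_ne_zero_iff.mpr fun j _ => hne j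
    have hev : (fun z => (PP a w).eval z) =ᶠ[nhds z]
        (fun z => (∏ j, (1 - (starRingEnd ℂ) (a j) * z))) *
          (fun z => (∏ j, ((z - a j) / (1 - (starRingEnd ℂ) (a j) * z))) - w) := by
      filter_upwards [hcont.eventually_ne hDz] with x hx
      simp only [Pi.mul_apply]
      rw [PP_eval, Finset.prod_div_distrib, mul_sub, mul_div_cancel₀ _ hx]
      ring
    have h2 := (hprod.congr_of_eventuallyEq hev).unique ((PP a w).hasDerivAt z)
    rw [← h2, hb, sub_self, mul_zero, zero_add]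
    exact mul_ne_zero hDz (hd z hz1)
  have hnodup : (PP a w).roots.Nodup := by
    rw [Multiset.nodup_iff_count_le_one]
    intro z
    rw [Polynomial.count_roots]
    by_contra hcon
    push Not at hcon
    rw [Polynomial.one_lt_rootMultiplicity_iff_isRoot hP0] at hcon
    exact hsimple z hcon.1 hcon.2
  refine ⟨(PP a w).roots.toFinset, ?_, fun z hz => ?_⟩
  · rw [Multiset.toFinset_card_of_nodup hnodup, IsAlgClosed.card_roots_eq_natDegree, hdeg]
  · rw [Multiset.mem_toFinset, Polynomial.mem_roots hP0] at hz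
    obtain ⟨_, hb, hz1⟩ := hroot z hz
    exact ⟨by rw [mem_sphere_zero_iff_norm]; exact hz1, hb⟩

end Pool.Agent.Helper859.Stk.Ex7e
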