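import Pool.Agent.Helper859.Stk.Alg
set_option linter.all false
open Metric Set Filter Topology

namespace Pool.Agent.Helper859.Stk.Ex8
open Pool.Agent.Helper859.Stk

theorem exG {φ B : ℂ → ℂ} {R : ℝ} (hφ : DifferentiableOn ℂ φ (ball (0 : ℂ) 1))
    (g : Fin 6 → ℂ) (hg : ∀ k, ‖g k‖ < 1 / 4) (hB : DifferentiableOn ℂ B (ball (0 : ℂ) 2))
    (hd : ∀ z ∈ ball (0 : ℂ) 1, deriv B z = (7 / R) * deriv φ z * ∏ k, (φ z - φ (g k))) :
    ∃ G : ℂ → ℂ, DifferentiableOn ℂ G (ball (0 : ℂ) 2) ∧ ∀ z : ℂ, 1 / 4 < ‖z‖ → ‖z‖ < 2 →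
      G z = deriv B z * ∏ k, ((1 - (starRingEnd ℂ) (g k) * z) / (z - g k)) := by
  classical
  set G1 : ℂ → ℂ := fun z => (7 / R) * deriv φ z *
    ∏ k, (dslope φ (g k) z * (1 - (starRingEnd ℂ) (g k) * z)) with hG1
  set G2 : ℂ → ℂ := fun z => deriv B z * ∏ k, ((1 - (starRingEnd ℂ) (g k) * z) / (z - g k)) with hG2
  have hgb : ∀ k, g k ∈ ball (0 : ℂ) 1 := fun k => by
    rw [mem_ball_zero_iff]
    linarith [hg k]
  have hagree : ∀ z : ℂ, 1 / 4 < ‖z‖ → ‖z‖ < 1 → G1 z = G2 z := by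
    intro z h1 h2
    have hne : ∀ k, z - g k ≠ 0 := by
      intro k h
      rw [sub_eq_zero] at h
      have := hg k
      rw [← h] at this
      linarith
    simp only [hG1, hG2]
    rw [hd z (mem_ball_zero_iff.2 h2), mul_assoc (7 / (R : ℂ) * deriv φ z),
      ← Finset.prod_mul_distrib]
    refine congrArg (fun w => 7 / (R : ℂ) * deriv φ z * w) ?_
    refine Finset.prod_congr rfl (fun k _ => ?_)
    have h3 : (z - g k) * dslope φ (g k) z = φ z - φ (g k) := by
      have := sub_smul_dslope φ (g k) z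
      rwa [smul_eq_mul] at this
    rw [← h3]
    have := hne k
    field_simp
  have hd1 : DifferentiableOn ℂ G1 (ball (0 : ℂ) 1) := by
    have e1 : DifferentiableOn ℂ (deriv φ) (ball (0 : ℂ) 1) := hφ.deriv isOpen_ball
    have e2 : ∀ k, DifferentiableOn ℂ (dslope φ (g k)) (ball (0 : ℂ) 1) := fun k =>
      (Complex.differentiableOn_dslope (isOpen_ball.mem_nhds (hgb k))).2 hφ
    have e3 : ∀ k, DifferentiableOn ℂ (fun z : ℂ => 1 - (starRingEnd ℂ) (g k) * z) (ball (0 : ℂ) 1) :=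
      fun k => ((differentiable_const _).sub ((differentiable_const _).mul differentiable_id)).differentiableOn
    simp only [hG1]
    exact ((differentiableOn_const _).mul e1).mul
      (DifferentiableOn.fun_finset_prod (fun k _ => (e2 k).mul (e3 k)))
  have hd2 : DifferentiableOn ℂ G2 ({z : ℂ | 1 / 4 < ‖z‖} ∩ ball (0 : ℂ) 2) := by
    have e1 : DifferentiableOn ℂ (deriv B) ({z : ℂ | 1 / 4 < ‖z‖} ∩ ball (0 : ℂ) 2) :=
      (hB.deriv isOpen_ball).mono inter_subset_right
    have e2 : ∀ k, DifferentiableOn ℂ (fun z : ℂ => (1 - (starRingEnd ℂ) (g k) * z) / (z - g k))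
        ({z : ℂ | 1 / 4 < ‖z‖} ∩ ball (0 : ℂ) 2) := by
      intro k
      refine DifferentiableOn.div ?_ ?_ ?_
      · exact ((differentiable_const _).sub ((differentiable_const _).mul differentiable_id)).differentiableOn
      · exact (differentiable_id.sub (differentiable_const _)).differentiableOn
      · rintro z ⟨h1, _⟩ h
        rw [sub_eq_zero] at h
        have := hg k
        rw [← h] at this
        have h1' : 1 / 4 < ‖z‖ := h1
        linarith
    simp only [hG2]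
    exact e1.mul (DifferentiableOn.fun_finset_prod (fun k _ => e2 k))
  have ho2 : IsOpen ({z : ℂ | 1 / 4 < ‖z‖} ∩ ball (0 : ℂ) 2) :=
    (isOpen_lt continuous_const continuous_norm).inter isOpen_ball
  set G : ℂ → ℂ := fun z => if ‖z‖ < 1 then G1 z else G2 z with hG
  have hGG2 : ∀ z : ℂ, 1 / 4 < ‖z‖ → ‖z‖ < 2 → G z = G2 z := by
    intro z h1 _
    simp only [hG]
    split_ifs with h
    · exact hagree z h1 h
    · rfl
  refine ⟨G, ?_, hGG2⟩
  intro z hz
  apply DifferentiableAt.differentiableWithinAt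
  by_cases h : ‖z‖ < 1
  · have h1 : ball (0 : ℂ) 1 ∈ 𝓝 z := isOpen_ball.mem_nhds (mem_ball_zero_iff.2 h)
    refine (hd1.differentiableAt h1).congr_of_eventuallyEq ?_
    filter_upwards [h1] with w hw
    simp only [hG]
    rw [if_pos (mem_ball_zero_iff.1 hw)]
  · have hz2 : z ∈ ({z : ℂ | 1 / 4 < ‖z‖} ∩ ball (0 : ℂ) 2) := by
      refine ⟨?_, hz⟩
      show 1 / 4 < ‖z‖
      linarith
    have h1 := ho2.mem_nhds hz2
    refine (hd2.differentiableAt h1).congr_of_eventuallyEq ?_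
    filter_upwards [h1] with w hw
    exact hGG2 w hw.1 (mem_ball_zero_iff.1 hw.2)

end Pool.Agent.Helper859.Stk.Ex8
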