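import Pool.Agent.Helper859.Stk.Alg
set_option linter.all false
open Metric Set Filter Topology

namespace Pool.Agent.Helper859.Stk.Ex9
open Pool.Agent.Helper859.Stk


theorem exF {G : ℂ → ℂ} (hG : DifferentiableOn ℂ G (ball (0 : ℂ) 2)) {c : ℂ} (hc : ‖c‖ = 1)
    (hest : ∀ z : ℂ, ‖z‖ = 3 / 2 → ‖G z - 7 * c‖ ≤ 1) : ∃ F : ℂ → ℂ, Conf F G := by
  have hmax : ∀ z ∈ closedBall (0 : ℂ) (3 / 2), ‖G z - 7 * c‖ ≤ 1 := by
    intro z hz
    have hd : DiffContOnCl ℂ (fun z => G z - 7 * c) (ball (0 : ℂ) (3 / 2)) := by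
      apply DifferentiableOn.diffContOnCl_ball (U := ball (0 : ℂ) 2)
      · exact hG.sub (differentiableOn_const _)
      · exact closedBall_subset_ball (by norm_num)
    have h := Complex.norm_le_of_forall_mem_frontier_norm_le (C := 1) isBounded_ball hd
      (by
        intro w hw
        rw [frontier_ball (0 : ℂ) (by norm_num : (3 / 2 : ℝ) ≠ 0), mem_sphere_zero_iff_norm] at hw
        exact hest w hw)
      (z := z) (by rwa [closure_ball (0 : ℂ) (by norm_num : (3 / 2 : ℝ) ≠ 0)])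
    exact h
  have hmax' : ∀ z ∈ ball (0 : ℂ) (3 / 2), ‖G z - 7 * c‖ ≤ 1 :=
    fun z hz => hmax z (ball_subset_closedBall hz)
  have hG' : DifferentiableOn ℂ G (ball (0 : ℂ) (3 / 2)) :=
    hG.mono (ball_subset_ball (by norm_num))
  obtain ⟨F, hF⟩ := hG'.isExactOn_ball
  have h7 : ‖(7 : ℂ) * c‖ = 7 := by
    rw [norm_mul, hc]; norm_num
  refine ⟨F, ⟨hF, ?_, ?_⟩⟩
  · intro z hz h0
    have h := hmax' z hz
    rw [h0, zero_sub, norm_neg, h7] at h
    norm_num at h
  · intro z hz w hw hzw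
    have hd : ∀ x ∈ ball (0 : ℂ) (3 / 2),
        HasDerivWithinAt (fun x => F x - 7 * c * x) (G x - 7 * c) (ball (0 : ℂ) (3 / 2)) x := by
      intro x hx
      have h1 := (hF x hx).sub (((hasDerivAt_id x).const_mul (7 * c)))
      rw [mul_one] at h1
      exact h1.hasDerivWithinAt
    have h := Convex.norm_image_sub_le_of_norm_hasDerivWithin_le (C := 1) hd hmax'
      (convex_ball (0 : ℂ) (3 / 2)) hz hw
    have he : (F w - 7 * c * w) - (F z - 7 * c * z) = -(7 * c * (w - z)) := by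
      rw [hzw]; ring
    rw [he, norm_neg, norm_mul, h7, one_mul] at h
    have h0 : ‖w - z‖ = 0 := by
      have := norm_nonneg (w - z)
      linarith
    rw [norm_eq_zero, sub_eq_zero] at h0
    exact h0.symm

end Pool.Agent.Helper859.Stk.Ex9
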