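import Pool.Agent.Helper859.Stk.Riemann
set_option linter.all false
open Metric Set Filter Topology

namespace Pool.Agent.Helper859.Stk

theorem riem {X : Set ℂ} (hX : IsOpen X) (hs : StarConvex ℝ 0 X) (h0 : (0 : ℂ) ∈ X) (hne : X ≠ univ) :
    ∃ φ ψ : ℂ → ℂ, DifferentiableOn ℂ φ (ball (0 : ℂ) 1) ∧ MapsTo φ (ball (0 : ℂ) 1) X ∧
      DifferentiableOn ℂ ψ X ∧ MapsTo ψ X (ball (0 : ℂ) 1) ∧ (∀ x ∈ X, φ (ψ x) = x) ∧
      (∀ z ∈ ball (0 : ℂ) 1, ψ (φ z) = z) ∧ ψ 0 = 0 := by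
  have hc : IsSimplyConnected X := by
    haveI : ContractibleSpace X := StarConvex.contractibleSpace hs ⟨0, h0⟩
    exact (inferInstance : SimplyConnectedSpace X)
  obtain ⟨g, φ, h1, h2, h3, h4, h5, h6, h7, h8⟩ := Riemann.riemann_inv hX hc hne h0
  refine ⟨g, φ, h1, h2.mapsTo, h5, h6, h7, h8, ?_⟩
  have := h8 0 (by simp)
  rwa [h4] at this

end Pool.Agent.Helper859.Stk
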