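import Pool.Agent.Helper859.Stk.Alg
import Pool.Agent.Helper859.Stk.Riem
import Pool.Agent.Helper859.Stk.Ex1
import Pool.Agent.Helper859.Stk.Ex4a
import Pool.Agent.Helper859.Stk.Ex4b
import Pool.Agent.Helper859.Stk.Ex5
import Pool.Agent.Helper859.Stk.Ex6
import Pool.Agent.Helper859.Stk.Ex7a
import Pool.Agent.Helper859.Stk.Ex7c
import Pool.Agent.Helper859.Stk.Ex7e
import Pool.Agent.Helper859.Stk.Ex8
import Pool.Agent.Helper859.Stk.Ex9
import Pool.Agent.Helper859.Stk.Ex11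
set_option linter.all false
open Metric Set Filter Topology

namespace Pool.Agent.Helper859.Stk

/-- bound for a finite family -/
theorem exists_bound {n : ℕ} (a : Fin n → ℂ) : ∃ A : ℝ, 0 ≤ A ∧ ∀ j, ‖a j‖ ≤ A :=
  ⟨∑ j, ‖a j‖, Finset.sum_nonneg (fun _ _ => norm_nonneg _),
    fun j => Finset.single_le_sum (f := fun j => ‖a j‖) (fun _ _ => norm_nonneg _) (Finset.mem_univ j)⟩

theorem prod_lt {a : Fin 7 → ℂ} {A ρ R : ℝ} (hA0 : 0 ≤ A) (hA : ∀ j, ‖a j‖ ≤ A) (hρ : 0 ≤ ρ)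
    (hR : (ρ + A) ^ 7 < R) {x : ℂ} (hx : ‖x‖ ≤ ρ) : ‖∏ j, (x - a j)‖ < R := by
  rw [norm_prod]
  refine lt_of_le_of_lt ?_ hR
  calc ∏ j, ‖x - a j‖ ≤ ∏ j : Fin 7, (ρ + A) := by
        apply Finset.prod_le_prod (fun _ _ => norm_nonneg _)
        intro j _
        exact (norm_sub_le _ _).trans (add_le_add hx (hA j))
    _ = (ρ + A) ^ 7 := by simp

theorem exists_dat (a : Fin 7 → ℂ) (c : Fin 6 → ℂ) (p : ℂ → ℂ) (hp : ∀ x, p x = ∏ j, (x - a j))
    (hp' : ∀ x, HasDerivAt p (7 * ∏ k, (x - c k)) x) :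
    ∃ R₀ : ℝ, ∀ R : ℝ, R₀ ≤ R → (0 < R ∧ StarConvex ℝ 0 {x : ℂ | ‖p x‖ < R} ∧ Nonempty (Dat p R)) := by
  obtain ⟨A, hA0, hA⟩ := exists_bound a
  obtain ⟨C, hC0, hC⟩ := exists_bound c
  obtain ⟨δ, hδ, hδ4, hest⟩ := Ex6.est
  -- radius such that the points are small after the Riemann map
  set ρ : ℝ := (A + C + 1) / δ with hρdef
  have hρ : 0 < ρ := by positivity
  have hρA : A + C + 1 ≤ ρ := by
    rw [hρdef, le_div_iff₀ hδ]
    nlinarith
  refine ⟨(ρ + A) ^ 7 + (2 * A) ^ 7 + 1, fun R hR => ?_⟩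
  have hR1 : (ρ + A) ^ 7 < R := by
    have : 0 ≤ (2 * A) ^ 7 := by positivity
    linarith
  have hR2 : (2 * A) ^ 7 < R := by
    have : 0 ≤ (ρ + A) ^ 7 := by positivity
    linarith
  have hR0 : 0 < R := lt_of_le_of_lt (by positivity) hR2
  have hpe : {x : ℂ | ‖p x‖ < R} = {x : ℂ | ‖∏ j, (x - a j)‖ < R} := by
    ext x; simp only [mem_setOf_eq, hp]
  have hstar : StarConvex ℝ 0 {x : ℂ | ‖p x‖ < R} := by
    rw [hpe]; exact Ex1.star a A R hA hR2
  refine ⟨hR0, hstar, ?_⟩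
  set X : Set ℂ := {x : ℂ | ‖p x‖ < R} with hX
  have hpc : Continuous p := by
    have : p = fun x => ∏ j, (x - a j) := funext hp
    rw [this]; fun_prop
  have hXo : IsOpen X := isOpen_lt (hpc.norm) continuous_const
  have hball : ∀ x : ℂ, ‖x‖ ≤ ρ → x ∈ X := by
    intro x hx
    simp only [hX, mem_setOf_eq, hp]
    exact prod_lt hA0 hA hρ.le hR1 hx
  have h0X : (0 : ℂ) ∈ X := hball 0 (by simpa using hρ.le)
  have hne : X ≠ univ := by
    intro hu
    have h1 : (((A + R + 1 : ℝ)) : ℂ) ∈ X := by rw [hu]; trivial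
    simp only [hX, mem_setOf_eq, hp, norm_prod] at h1
    have h2 : ∀ j, R + 1 ≤ ‖(((A + R + 1 : ℝ)) : ℂ) - a j‖ := by
      intro j
      have h3 := norm_sub_norm_le (((A + R + 1 : ℝ)) : ℂ) (a j)
      rw [Complex.norm_real, Real.norm_of_nonneg (by positivity)] at h3
      linarith [hA j]
    have h4 : (R + 1) ^ 7 ≤ ∏ j, ‖(((A + R + 1 : ℝ)) : ℂ) - a j‖ := by
      calc (R + 1) ^ 7 = ∏ j : Fin 7, (R + 1) := by simp
        _ ≤ _ := Finset.prod_le_prod (fun _ _ => by positivity) (fun j _ => h2 j)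
    have h5 : R + 1 ≤ (R + 1) ^ 7 := by
      have : 1 ≤ R + 1 := by linarith
      exact le_self_pow₀ this (by norm_num)
    linarith
  obtain ⟨φ, ψ, dφ, mφ, dψ, mψ, φψ, ψφ, ψ0⟩ := riem hXo hstar h0X hne
  have hcX : ∀ k, c k ∈ X := fun k => hball _ (by linarith [hC k])
  have haX : ∀ j, a j ∈ X := fun j => hball _ (by linarith [hA j])
  have hsub : ball (0 : ℂ) ρ ⊆ X := fun x hx => hball x (by simpa using (mem_ball_zero_iff.1 hx).le)
  have hb : ∀ j, ‖ψ (a j)‖ ≤ δ := by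
    intro j
    have h1 : ‖a j‖ < ρ := by linarith [hA j]
    refine (Ex5.small dψ mψ ψ0 hρ hsub h1).trans ?_
    rw [div_le_iff₀ hρ, hρdef, mul_div_cancel₀ _ hδ.ne']
    linarith [hA j]
  have hg : ∀ k, ‖ψ (c k)‖ ≤ δ := by
    intro k
    have h1 : ‖c k‖ < ρ := by linarith [hC k]
    refine (Ex5.small dψ mψ ψ0 hρ hsub h1).trans ?_
    rw [div_le_iff₀ hρ, hρdef, mul_div_cancel₀ _ hδ.ne']
    linarith [hC k]
  have hb4 : ∀ j, ‖ψ (a j)‖ < 1 / 4 := fun j => lt_of_le_of_lt (hb j) hδ4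
  have hg4 : ∀ k, ‖ψ (c k)‖ < 1 / 4 := fun k => lt_of_le_of_lt (hg k) hδ4
  set bl : ℂ → ℂ := fun z => ∏ j, ((z - ψ (a j)) / (1 - (starRingEnd ℂ) (ψ (a j)) * z)) with hbl
  obtain ⟨cc, hcc, hform⟩ := Ex4b.blaschke hR0 a dφ
    (fun z hz => by have := mφ hz; simpa only [hX, mem_setOf_eq, hp] using this)
    (by rw [← hpe]; exact dψ)
    (fun x hx => mψ (by simpa only [hX, mem_setOf_eq, hp] using hx))
    (fun x hx => φψ x (by simpa only [hX, mem_setOf_eq, hp] using hx))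
    ψφ (fun Q h1 h2 h3 => Ex4a.const_of_bdry h1 h2 h3)
  obtain ⟨n1, n2, n3, n4⟩ := Ex7a.blaschke_norm (fun j => ψ (a j)) hb4
  obtain ⟨d1, d2⟩ := Ex7c.blaschke_deriv (fun j => ψ (a j)) hb4
  set B : ℂ → ℂ := fun z => cc * bl z with hB
  have dB : DifferentiableOn ℂ B (ball (0 : ℂ) 2) := n4.const_mul cc
  have hblB : ∀ z ∈ ball (0 : ℂ) 2, deriv B z = cc * deriv bl z := by
    intro z hz
    have : DifferentiableAt ℂ bl z := (n4 z hz).differentiableAt (isOpen_ball.mem_nhds hz)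
    exact deriv_const_mul cc this
  have hpB : ∀ z ∈ ball (0 : ℂ) 1, p (φ z) = R * B z := by
    intro z hz
    rw [hp, hform z hz]
  have hd : ∀ z ∈ ball (0 : ℂ) 1, deriv B z = (7 / R) * deriv φ z * ∏ k, (φ z - φ (ψ (c k))) := by
    intro z hz
    have e1 : HasDerivAt (fun z => p (φ z)) ((7 * ∏ k, (φ z - c k)) * deriv φ z) z :=
      HasDerivAt.comp z (hp' (φ z)) ((dφ z hz).differentiableAt (isOpen_ball.mem_nhds hz)).hasDerivAt
    have e2 : HasDerivAt (fun z => (R : ℂ) * B z) (R * deriv B z) z :=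
      (((dB z (ball_subset_ball (by norm_num) hz)).differentiableAt
        (isOpen_ball.mem_nhds (ball_subset_ball (by norm_num) hz))).hasDerivAt).const_mul _
    have e3 : (fun z => p (φ z)) =ᶠ[𝓝 z] (fun z => (R : ℂ) * B z) := by
      filter_upwards [isOpen_ball.mem_nhds hz] with w hw
      exact hpB w hw
    have e4 := e1.unique (e2.congr_of_eventuallyEq e3)
    have e5 : ∏ k, (φ z - φ (ψ (c k))) = ∏ k, (φ z - c k) := by
      apply Finset.prod_congr rfl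
      intro k _
      rw [φψ _ (hcX k)]
    rw [e5]
    have hRc : (R : ℂ) ≠ 0 := by exact_mod_cast hR0.ne'
    field_simp
    linear_combination -e4
  obtain ⟨G, hG, hGe⟩ := Ex8.exG dφ (fun k => ψ (c k)) hg4 dB hd
  have hGest : ∀ z : ℂ, ‖z‖ = 3 / 2 → ‖G z - 7 * cc‖ ≤ 1 := by
    intro z hz
    have hz1 : 1 / 4 < ‖z‖ := by rw [hz]; norm_num
    have hz2 : ‖z‖ < 2 := by rw [hz]; norm_num
    rw [hGe z hz1 hz2, hblB z (by simpa using hz2), (d1 z hz1 hz2).deriv]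
    have := hest (fun j => ψ (a j)) (fun k => ψ (c k)) hb hg z hz
    have e : ∀ P Q S : ℂ, cc * (P * Q) * S - 7 * cc = cc * (P * Q * S - 7) := by intros; ring
    rw [e, norm_mul, hcc, one_mul]
    exact this
  obtain ⟨F, hF⟩ := Ex9.exF hG hcc hGest
  have hGB : ∀ z ∈ sphere (0 : ℂ) 1, ‖G z‖ = ‖deriv B z‖ := by
    intro z hz
    have hz' : ‖z‖ = 1 := by simpa using hz
    rw [hGe z (by rw [hz']; norm_num) (by rw [hz']; norm_num), norm_mul]
    have : ‖∏ k, ((1 - (starRingEnd ℂ) (ψ (c k)) * z) / (z - ψ (c k)))‖ = 1 := by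
      rw [norm_prod]
      apply Finset.prod_eq_one
      intro k _
      have hne : z - ψ (c k) ≠ 0 := by
        intro h
        have := sub_eq_zero.1 h
        have h2 := hg4 k
        rw [← this, hz'] at h2
        norm_num at h2
      rw [norm_div]
      have h3 : ‖1 - (starRingEnd ℂ) (ψ (c k)) * z‖ = ‖z - ψ (c k)‖ := by
        have h4 : z * (starRingEnd ℂ) z = 1 := by
          rw [Complex.mul_conj, Complex.normSq_eq_norm_sq, hz']; norm_num
        have h5 : 1 - (starRingEnd ℂ) (ψ (c k)) * z = z * (starRingEnd ℂ) (z - ψ (c k)) := by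
          rw [map_sub, mul_sub, h4]; ring
        rw [h5, norm_mul, hz', one_mul, RCLike.norm_conj]
      rw [h3, div_self (norm_ne_zero_iff.2 hne)]
    rw [this, mul_one]
  have r1 : ∀ z ∈ sphere (0 : ℂ) 1, ‖B z‖ = 1 := by
    intro z hz
    rw [hB]; simp only
    rw [norm_mul, hcc, one_mul]
    exact n1 z (by simpa using hz)
  have r2 : ∀ z ∈ sphere (0 : ℂ) 1, deriv B z ≠ 0 := by
    intro z hz
    have hz' : ‖z‖ = 1 := by simpa using hz
    rw [hblB z (by simp [hz'])]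
    refine mul_ne_zero ?_ (d2 z hz')
    intro h; rw [h] at hcc; simp at hcc
  have r3 : ∀ z ∈ ball (0 : ℂ) (3 / 2), 1 < ‖z‖ → 1 < ‖B z‖ := by
    intro z hz h1
    rw [hB]; simp only
    rw [norm_mul, hcc, one_mul]
    exact n3 z h1 (lt_trans (by simpa using hz) (by norm_num))
  have r4 : ∀ w ∈ sphere (0 : ℂ) 1, ∃ s : Finset ℂ, s.card = 7 ∧ ∀ z ∈ s, z ∈ sphere (0 : ℂ) 1 ∧ B z = w := by
    intro w hw
    have hcc0 : cc ≠ 0 := by intro h; rw [h] at hcc; simp at hcc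
    have hw' : ‖w / cc‖ = 1 := by
      rw [norm_div, hcc, div_one]; simpa using hw
    obtain ⟨s, hs, hs'⟩ := Ex7e.blaschke_fibre (fun j => ψ (a j)) hb4 n2 d2 n4 (w / cc) hw'
    refine ⟨s, hs, fun z hz => ⟨(hs' z hz).1, ?_⟩⟩
    rw [hB]; simp only
    rw [hbl]; simp only
    rw [(hs' z hz).2]
    field_simp
  exact ⟨⟨φ, ψ, B, F, G, dφ, fun z hz => mφ hz, dψ, fun x hx => mψ hx, φψ, ψφ,
    dB.mono (ball_subset_ball (by norm_num)), hpB, r1, r2, r3, r4, hF, hGB⟩⟩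

end Pool.Agent.Helper859.Stk
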