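import Pool.Agent.Helper859.Stk.Alg
set_option linter.all false
open Metric Set Filter Topology

namespace Pool.Agent.Helper859.Stk.NC0
open Pool.Agent.Helper859.Stk

theorem isom (e : ℂ ≃ᵢ ℂ) : ∃ α β : ℂ, ‖α‖ = 1 ∧
    ((∀ z, e z = α * z + β) ∨ (∀ z, e z = α * (starRingEnd ℂ) z + β)) := by
  set f : ℂ ≃ₗᵢ[ℝ] ℂ := e.toRealLinearIsometryEquiv with hf
  have hfe : ∀ z, e z = f z + e 0 := by
    intro z
    rw [hf, IsometryEquiv.toRealLinearIsometryEquiv_apply]
    ring
  obtain ⟨a, ha⟩ := linear_isometry_complex f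
  refine ⟨(a : ℂ), e 0, Circle.norm_coe a, ?_⟩
  rcases ha with ha | ha
  · left
    intro z
    rw [hfe z, ha, rotation_apply]
  · right
    intro z
    rw [hfe z, ha]
    simp [rotation_apply]

end Pool.Agent.Helper859.Stk.NC0
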