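import Pool.Agent.Helper859.Stk.Alg
set_option linter.all false
open Metric Set Filter Topology

namespace Pool.Agent.Helper859.Stk.NC1a
open Pool.Agent.Helper859.Stk

theorem exists_tau {B₁ F₁ G₁ B₂ F₂ G₂ : ℂ → ℂ} (h₁ : BD B₁ F₁ G₁) (h₂ : BD B₂ F₂ G₂) {α β : ℂ}
    (hα : ‖α‖ = 1)
    (himg : (fun z => α * z + β) '' (F₁ '' ball (0 : ℂ) 1) = F₂ '' ball (0 : ℂ) 1)
    (hcl : closure (F₁ '' ball (0 : ℂ) 1) = F₁ '' closedBall (0 : ℂ) 1)
    (hcl₂ : closure (F₂ '' ball (0 : ℂ) 1) = F₂ '' closedBall (0 : ℂ) 1)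
    {J : ℂ → ℂ} (hJ : ∀ z ∈ ball (0 : ℂ) (3 / 2), J (F₂ z) = z ∧ HasDerivAt J (G₂ z)⁻¹ (F₂ z)) :
    ∃ τ : ℂ → ℂ, (∀ z ∈ closedBall (0 : ℂ) 1, HasDerivAt τ (α * G₁ z / G₂ (τ z)) z ∧ G₂ (τ z) ≠ 0) ∧
      (∀ z ∈ ball (0 : ℂ) 1, τ z ∈ ball (0 : ℂ) 1) ∧ (∀ z ∈ sphere (0 : ℂ) 1, τ z ∈ sphere (0 : ℂ) 1) := by
  have hα0 : α ≠ 0 := by
    intro h; rw [h] at hα; simp at hα
  have sub32 : ∀ z ∈ closedBall (0 : ℂ) 1, z ∈ ball (0 : ℂ) (3 / 2) := by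
    intro z hz
    rw [mem_closedBall] at hz
    rw [mem_ball]
    linarith
  have bc : ∀ z ∈ ball (0 : ℂ) 1, z ∈ closedBall (0 : ℂ) 1 := fun z hz => ball_subset_closedBall hz
  let hh : ℂ ≃ₜ ℂ := (Homeomorph.mulLeft₀ α hα0).trans (Homeomorph.addRight β)
  have hhe : ∀ z, hh z = α * z + β := fun z => rfl
  have himg' : hh '' (F₁ '' ball (0 : ℂ) 1) = F₂ '' ball (0 : ℂ) 1 := himg
  have himgc : hh '' (F₁ '' closedBall (0 : ℂ) 1) = F₂ '' closedBall (0 : ℂ) 1 := by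
    rw [← hcl, ← hcl₂, hh.image_closure, himg']
  have key : ∀ z ∈ closedBall (0 : ℂ) 1, ∃ w ∈ closedBall (0 : ℂ) 1, F₂ w = α * F₁ z + β := by
    intro z hz
    have : hh (F₁ z) ∈ F₂ '' closedBall (0 : ℂ) 1 := by
      rw [← himgc]; exact mem_image_of_mem _ (mem_image_of_mem _ hz)
    obtain ⟨w, hw, e⟩ := this
    exact ⟨w, hw, e.trans (hhe _)⟩
  refine ⟨fun z => J (α * F₁ z + β), ?_, ?_, ?_⟩
  · intro z hz
    obtain ⟨w, hw, e⟩ := key z hz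
    have hτ : J (α * F₁ z + β) = w := by rw [← e]; exact (hJ w (sub32 w hw)).1
    have hG : G₂ w ≠ 0 := h₂.conf.G0 w (sub32 w hw)
    refine ⟨?_, by simpa only [hτ] using hG⟩
    have d1 : HasDerivAt (fun z => α * F₁ z + β) (α * G₁ z) z :=
      ((h₁.conf.dF z (sub32 z hz)).const_mul α).add_const β
    have d2 : HasDerivAt J (G₂ w)⁻¹ (α * F₁ z + β) := by
      rw [← e]; exact (hJ w (sub32 w hw)).2
    have d3 := HasDerivAt.comp z d2 d1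
    have e3 : α * G₁ z / G₂ (J (α * F₁ z + β)) = (G₂ w)⁻¹ * (α * G₁ z) := by
      rw [hτ]; field_simp
    show HasDerivAt (fun z => J (α * F₁ z + β)) (α * G₁ z / G₂ (J (α * F₁ z + β))) z
    rw [e3]
    exact d3
  · intro z hz
    have : hh (F₁ z) ∈ F₂ '' ball (0 : ℂ) 1 := by
      rw [← himg']; exact mem_image_of_mem _ (mem_image_of_mem _ hz)
    obtain ⟨w, hw, e⟩ := this
    have hτ : J (α * F₁ z + β) = w := by
      rw [← hhe, ← e]; exact (hJ w (sub32 w (bc w hw))).1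
    show J (α * F₁ z + β) ∈ ball (0 : ℂ) 1
    rw [hτ]; exact hw
  · intro z hz
    have hzc : z ∈ closedBall (0 : ℂ) 1 := sphere_subset_closedBall hz
    obtain ⟨w, hw, e⟩ := key z hzc
    have hτ : J (α * F₁ z + β) = w := by rw [← e]; exact (hJ w (sub32 w hw)).1
    show J (α * F₁ z + β) ∈ sphere (0 : ℂ) 1
    rw [hτ]
    by_contra hns
    have hwb : w ∈ ball (0 : ℂ) 1 := by
      rw [mem_ball]
      rw [mem_closedBall] at hw
      rw [mem_sphere] at hns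
      exact lt_of_le_of_ne hw hns
    have : hh (F₁ z) ∈ hh '' (F₁ '' ball (0 : ℂ) 1) := by
      rw [himg', hhe, ← e]; exact mem_image_of_mem _ hwb
    rw [hh.injective.mem_set_image] at this
    obtain ⟨z', hz', e'⟩ := this
    have : z' = z := h₁.conf.iF (sub32 z' (bc z' hz')) (sub32 z hzc) e'
    rw [this, mem_ball] at hz'
    rw [mem_sphere] at hz
    linarith

end Pool.Agent.Helper859.Stk.NC1a
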