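import Pool.Agent.Helper859.Stk.Alg
set_option linter.all false
open Metric Set Filter Topology

namespace Pool.Agent.Helper859.Stk.NC1b
open Pool.Agent.Helper859.Stk

theorem blaschke_match {B₁ F₁ G₁ B₂ F₂ G₂ : ℂ → ℂ} (h₁ : BD B₁ F₁ G₁) (h₂ : BD B₂ F₂ G₂) {α : ℂ}
    (hα : ‖α‖ = 1)
    (hlog : ∀ (C : ℂ → ℂ) (C' ζ : ℂ), ‖ζ‖ = 1 → HasDerivAt C C' ζ → (∀ z : ℂ, ‖z‖ < 1 → ‖C z‖ ≤ 1) →
      (∀ z : ℂ, ‖z‖ = 1 → ‖C z‖ = 1) → ζ * C' = (‖C'‖ : ℂ) * C ζ)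
    {τ : ℂ → ℂ}
    (hτ : ∀ z ∈ closedBall (0 : ℂ) 1, HasDerivAt τ (α * G₁ z / G₂ (τ z)) z ∧ G₂ (τ z) ≠ 0)
    (hτ1 : ∀ z ∈ ball (0 : ℂ) 1, τ z ∈ ball (0 : ℂ) 1)
    (hτ2 : ∀ z ∈ sphere (0 : ℂ) 1, τ z ∈ sphere (0 : ℂ) 1) :
    ∃ c : ℂ, ‖c‖ = 1 ∧ ∀ z ∈ ball (0 : ℂ) 1, B₂ (τ z) = c * B₁ z := by
  have hcb : ∀ z ∈ closedBall (0 : ℂ) 1, z ∈ ball (0 : ℂ) (3 / 2) := by
    intro z hz
    exact closedBall_subset_ball (by norm_num) hz
  have hτc : ∀ z ∈ closedBall (0 : ℂ) 1, τ z ∈ closedBall (0 : ℂ) 1 := by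
    intro z hz
    rw [← ball_union_sphere] at hz ⊢
    rcases hz with h | h
    · exact Or.inl (hτ1 z h)
    · exact Or.inr (hτ2 z h)
  have hdB : ∀ {B F G : ℂ → ℂ}, BD B F G → ∀ z ∈ closedBall (0 : ℂ) 1, HasDerivAt B (deriv B z) z := by
    intro B F G h z hz
    exact ((h.dB z (hcb z hz)).differentiableAt (isOpen_ball.mem_nhds (hcb z hz))).hasDerivAt
  set C : ℂ → ℂ := fun z => B₂ (τ z) with hCdef
  set C' : ℂ → ℂ := fun z => deriv B₂ (τ z) * (α * G₁ z / G₂ (τ z)) with hC'def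
  have hC : ∀ z ∈ closedBall (0 : ℂ) 1, HasDerivAt C (C' z) z := by
    intro z hz
    exact (hdB h₂ (τ z) (hτc z hz)).comp z (hτ z hz).1
  have hBn : ∀ {B F G : ℂ → ℂ}, BD B F G → ∀ z : ℂ, ‖z‖ = 1 → ‖B z‖ = 1 := by
    intro B F G h z hz
    exact h.B1 z (mem_sphere_zero_iff_norm.mpr hz)
  have hτn : ∀ z : ℂ, ‖z‖ = 1 → ‖τ z‖ = 1 := fun z hz =>
    mem_sphere_zero_iff_norm.mp (hτ2 z (mem_sphere_zero_iff_norm.mpr hz))
  have hCn : ∀ z : ℂ, ‖z‖ = 1 → ‖C z‖ = 1 := fun z hz => hBn h₂ (τ z) (hτn z hz)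
  have hCi : ∀ z : ℂ, ‖z‖ < 1 → ‖C z‖ ≤ 1 := by
    intro z hz
    exact (h₂.Bi (τ z) (hτ1 z (mem_ball_zero_iff.mpr hz))).le
  have hBi : ∀ z : ℂ, ‖z‖ < 1 → ‖B₁ z‖ ≤ 1 := by
    intro z hz
    exact (h₁.Bi z (mem_ball_zero_iff.mpr hz)).le
  have hcl : ∀ z : ℂ, ‖z‖ = 1 → z ∈ closedBall (0 : ℂ) 1 := fun z hz => by
    rw [mem_closedBall_zero_iff, hz]
  have hC'n : ∀ z : ℂ, ‖z‖ = 1 → ‖C' z‖ = ‖deriv B₁ z‖ := by
    intro z hz
    have hG2 : ‖G₂ (τ z)‖ ≠ 0 := norm_ne_zero_iff.mpr (hτ z (hcl z hz)).2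
    show ‖deriv B₂ (τ z) * (α * G₁ z / G₂ (τ z))‖ = _
    rw [norm_mul, norm_div, norm_mul, hα, one_mul,
      ← h₂.GB (τ z) (hτ2 z (mem_sphere_zero_iff_norm.mpr hz)),
      ← h₁.GB z (mem_sphere_zero_iff_norm.mpr hz)]
    field_simp
  have hkey : ∀ z : ℂ, ‖z‖ = 1 → C' z * B₁ z - C z * deriv B₁ z = 0 := by
    intro z hz
    have hz0 : z ≠ 0 := by
      intro h; rw [h, norm_zero] at hz; norm_num at hz
    have e1 := hlog C (C' z) z hz (hC z (hcl z hz)) hCi hCn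
    have e2 := hlog B₁ (deriv B₁ z) z hz (hdB h₁ z (hcl z hz)) hBi (hBn h₁)
    rw [hC'n z hz] at e1
    have e3 : z * (C' z * B₁ z - C z * deriv B₁ z) = 0 := by
      calc z * (C' z * B₁ z - C z * deriv B₁ z) = (z * C' z) * B₁ z - C z * (z * deriv B₁ z) := by ring
        _ = 0 := by rw [e1, e2]; ring
    exact (mul_eq_zero.mp e3).resolve_left hz0
  have hcm : ∀ θ : ℝ, ‖circleMap 0 1 θ‖ = 1 := by
    intro θ
    rw [norm_circleMap_zero, abs_one]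
  have hB0 : ∀ z : ℂ, ‖z‖ = 1 → B₁ z ≠ 0 := by
    intro z hz h
    have := hBn h₁ z hz
    rw [h, norm_zero] at this
    norm_num at this
  have hq : ∀ θ : ℝ, HasDerivAt (fun θ : ℝ => C (circleMap 0 1 θ) / B₁ (circleMap 0 1 θ)) 0 θ := by
    intro θ
    have d1 : HasDerivAt (fun θ : ℝ => C (circleMap 0 1 θ))
        (C' (circleMap 0 1 θ) * (circleMap 0 1 θ * Complex.I)) θ :=
      (hC _ (hcl _ (hcm θ))).comp θ (hasDerivAt_circleMap 0 1 θ)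
    have d2 : HasDerivAt (fun θ : ℝ => B₁ (circleMap 0 1 θ))
        (deriv B₁ (circleMap 0 1 θ) * (circleMap 0 1 θ * Complex.I)) θ :=
      (hdB h₁ _ (hcl _ (hcm θ))).comp θ (hasDerivAt_circleMap 0 1 θ)
    have d3 := d1.div d2 (hB0 _ (hcm θ))
    refine d3.congr_deriv ?_
    have e1 := hkey _ (hcm θ)
    have e2 : C' (circleMap 0 1 θ) * (circleMap 0 1 θ * Complex.I) * B₁ (circleMap 0 1 θ) -
        C (circleMap 0 1 θ) * (deriv B₁ (circleMap 0 1 θ) * (circleMap 0 1 θ * Complex.I)) = 0 := by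
      calc _ = (C' (circleMap 0 1 θ) * B₁ (circleMap 0 1 θ) -
            C (circleMap 0 1 θ) * deriv B₁ (circleMap 0 1 θ)) * (circleMap 0 1 θ * Complex.I) := by ring
        _ = 0 := by rw [e1, zero_mul]
    rw [e2, zero_div]
  have hconst : ∀ θ : ℝ, C (circleMap 0 1 θ) / B₁ (circleMap 0 1 θ) =
      C (circleMap 0 1 0) / B₁ (circleMap 0 1 0) := by
    intro θ
    exact is_const_of_deriv_eq_zero (f := fun θ : ℝ => C (circleMap 0 1 θ) / B₁ (circleMap 0 1 θ))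
      (fun θ => (hq θ).differentiableAt) (fun θ => (hq θ).deriv) θ 0
  refine ⟨C (circleMap 0 1 0) / B₁ (circleMap 0 1 0), ?_, ?_⟩
  · rw [norm_div, hCn _ (hcm 0), hBn h₁ _ (hcm 0), div_one]
  · generalize C (circleMap 0 1 0) / B₁ (circleMap 0 1 0) = c at *
    have hon : EqOn C (fun z => c * B₁ z) (frontier (ball (0 : ℂ) 1)) := by
      rw [frontier_ball _ one_ne_zero]
      intro z hz
      have hzn : ‖z‖ = 1 := mem_sphere_zero_iff_norm.mp hz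
      have hz2 : circleMap 0 1 (Complex.arg z) = z := by
        rw [circleMap]
        have := Complex.norm_mul_exp_arg_mul_I z
        rw [hzn] at this
        rw [zero_add]
        exact_mod_cast this
      have h3 := hconst (Complex.arg z)
      rw [hz2, div_eq_iff (hB0 z hzn)] at h3
      exact h3
    have hCd : DiffContOnCl ℂ C (ball (0 : ℂ) 1) := by
      apply DifferentiableOn.diffContOnCl
      rw [closure_ball _ one_ne_zero]
      intro z hz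
      exact (hC z hz).differentiableAt.differentiableWithinAt
    have hBd : DiffContOnCl ℂ (fun z => c * B₁ z) (ball (0 : ℂ) 1) := by
      apply DifferentiableOn.diffContOnCl
      rw [closure_ball _ one_ne_zero]
      intro z hz
      exact ((hdB h₁ z hz).const_mul c).differentiableAt.differentiableWithinAt
    exact fun z hz => Complex.eqOn_of_eqOn_frontier isBounded_ball hCd hBd hon hz


end Pool.Agent.Helper859.Stk.NC1b
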