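import Pool.Agent.Helper859.Stk.Alg
set_option linter.all false
open Metric Set Filter Topology

namespace Pool.Agent.Helper859.Stk.NC2
open Pool.Agent.Helper859.Stk

--ALG

theorem cont_pS (t : ℂ) : Continuous (fun x => pS t x) := by
  unfold pS; fun_prop

theorem open_X (t : ℂ) (R : ℝ) : IsOpen {x : ℂ | ‖pS t x - Complex.I‖ < R} := by
  have h : Continuous fun x : ℂ => ‖pS t x - Complex.I‖ :=
    ((cont_pS t).sub continuous_const).norm
  exact isOpen_lt h continuous_const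

theorem qq_root (t : ℂ) : ∃ x, qq t x = 0 := by
  have hd : (Polynomial.X ^ 2 + Polynomial.C (7 * ((1 + t) / 2)) * Polynomial.X
      + Polynomial.C (7 * ((1 + t) / 2 - 3)) : Polynomial ℂ).degree = 2 := by
    compute_degree!
  obtain ⟨x, hx⟩ := IsAlgClosed.exists_root _ (show (Polynomial.X ^ 2 +
    Polynomial.C (7 * ((1 + t) / 2)) * Polynomial.X
      + Polynomial.C (7 * ((1 + t) / 2 - 3)) : Polynomial ℂ).degree ≠ 0 by rw [hd]; norm_num)
  refine ⟨x, ?_⟩
  simp only [Polynomial.IsRoot, Polynomial.eval_add, Polynomial.eval_mul, Polynomial.eval_pow,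
    Polynomial.eval_X, Polynomial.eval_C] at hx
  unfold qq
  exact hx

theorem deriv_ne_of_left {f g : ℂ → ℂ} {x : ℂ} (hf : DifferentiableAt ℂ f x)
    (hg : DifferentiableAt ℂ g (f x)) (h : ∀ᶠ y in 𝓝 x, g (f y) = y) :
    deriv f x ≠ 0 ∧ deriv g (f x) ≠ 0 := by
  have h1 : HasDerivAt (fun y => g (f y)) (deriv g (f x) * deriv f x) x :=
    hg.hasDerivAt.comp x hf.hasDerivAt
  have h2 : HasDerivAt (fun y => g (f y)) 1 x :=
    (hasDerivAt_id x).congr_of_eventuallyEq (by filter_upwards [h] with y hy; simpa using hy)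
  have h3 := h1.unique h2
  constructor
  · intro h0; rw [h0, mul_zero] at h3; exact zero_ne_one h3
  · intro h0; rw [h0, zero_mul] at h3; exact zero_ne_one h3

theorem exists_chi {t : ℂ} (ht : t ^ 2 = -7) {R : ℝ} (hR : 1729 < R)
    (D₁ : Dat (fun x => pS t x - Complex.I) R) (D₂ : Dat (fun x => pS (-t) x - Complex.I) R)
    {τ : ℂ → ℂ} {c : ℂ} (hc : ‖c‖ = 1)
    (hτ : ∀ z ∈ ball (0 : ℂ) 1, τ z ∈ ball (0 : ℂ) 1 ∧ DifferentiableAt ℂ τ z ∧ deriv τ z ≠ 0)
    (hB : ∀ z ∈ ball (0 : ℂ) 1, D₂.B (τ z) = c * D₁.B z) :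
    ∃ χ : ℂ → ℂ, DifferentiableOn ℂ χ {x | ‖pS t x - Complex.I‖ < R} ∧
      (∀ x, ‖pS t x - Complex.I‖ < R → pS (-t) (χ x) = pS t x) ∧ χ 0 = 0 := by
  set X : Set ℂ := {x | ‖pS t x - Complex.I‖ < R} with hX
  have hXo : IsOpen X := open_X t R
  set χ : ℂ → ℂ := fun x => D₂.φ (τ (D₁.ψ x)) with hχ
  have hbo : IsOpen (ball (0 : ℂ) 1) := isOpen_ball
  have mem1 : ∀ x ∈ X, D₁.ψ x ∈ ball (0 : ℂ) 1 := fun x hx => D₁.mψ x hx
  have hR0 : (0 : ℝ) < R := by linarith
  -- identity with `c`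
  have hid : ∀ x ∈ X, pS (-t) (χ x) - Complex.I = c * (pS t x - Complex.I) := by
    intro x hx
    have h1 := D₂.pB (τ (D₁.ψ x)) (hτ _ (mem1 x hx)).1
    have h2 := D₁.pB (D₁.ψ x) (mem1 x hx)
    rw [D₁.φψ x hx] at h2
    rw [hB _ (mem1 x hx)] at h1
    beta_reduce at h1 h2
    show pS (-t) (D₂.φ (τ (D₁.ψ x))) - Complex.I = _
    rw [h1, h2]; ring
  -- differentiability
  have hψd : ∀ x ∈ X, DifferentiableAt ℂ D₁.ψ x := fun x hx =>
    (D₁.dψ x hx).differentiableAt (hXo.mem_nhds hx)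
  have hφd2 : ∀ z ∈ ball (0 : ℂ) 1, DifferentiableAt ℂ D₂.φ z := fun z hz =>
    (D₂.dφ z hz).differentiableAt (hbo.mem_nhds hz)
  have hφd1 : ∀ z ∈ ball (0 : ℂ) 1, DifferentiableAt ℂ D₁.φ z := fun z hz =>
    (D₁.dφ z hz).differentiableAt (hbo.mem_nhds hz)
  have hψd2 : ∀ x, ‖pS (-t) x - Complex.I‖ < R → DifferentiableAt ℂ D₂.ψ x := fun x hx =>
    (D₂.dψ x hx).differentiableAt ((open_X (-t) R).mem_nhds hx)
  have hχd : ∀ x ∈ X, HasDerivAt χ (deriv D₂.φ (τ (D₁.ψ x)) * (deriv τ (D₁.ψ x) *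
      deriv D₁.ψ x)) x := by
    intro x hx
    have a1 := (hψd x hx).hasDerivAt
    have a2 := (hτ _ (mem1 x hx)).2.1.hasDerivAt
    have a3 := (hφd2 _ (hτ _ (mem1 x hx)).1).hasDerivAt
    exact HasDerivAt.comp x a3 (HasDerivAt.comp x a2 a1)
  have hne : ∀ x ∈ X, (deriv D₂.φ (τ (D₁.ψ x)) * (deriv τ (D₁.ψ x) *
      deriv D₁.ψ x)) ≠ 0 := by
    intro x hx
    have hw := (hτ _ (mem1 x hx)).1
    have n1 : deriv D₂.φ (τ (D₁.ψ x)) ≠ 0 := by
      refine (deriv_ne_of_left (hφd2 _ hw) (hψd2 _ (D₂.mφ _ hw)) ?_).1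
      filter_upwards [hbo.mem_nhds hw] with y hy
      exact D₂.ψφ y hy
    have n2 : deriv τ (D₁.ψ x) ≠ 0 := (hτ _ (mem1 x hx)).2.2
    have n3 : deriv D₁.ψ x ≠ 0 := by
      refine (deriv_ne_of_left (hψd x hx) (hφd1 _ (mem1 x hx)) ?_).1
      filter_upwards [hXo.mem_nhds hx] with y hy
      exact D₁.φψ y hy
    exact mul_ne_zero n1 (mul_ne_zero n2 n3)
  -- derivative of the identity
  have hder : ∀ x ∈ X, (7 * qq (-t) (χ x) ^ 2 * rr (-t) (χ x)) *
      (deriv D₂.φ (τ (D₁.ψ x)) * (deriv τ (D₁.ψ x) * deriv D₁.ψ x)) =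
      c * (7 * qq t x ^ 2 * rr t x) := by
    intro x hx
    have b1 : HasDerivAt (fun y => pS (-t) (χ y) - Complex.I)
        ((7 * qq (-t) (χ x) ^ 2 * rr (-t) (χ x)) *
        (deriv D₂.φ (τ (D₁.ψ x)) * (deriv τ (D₁.ψ x) * deriv D₁.ψ x))) x :=
      (HasDerivAt.comp x (pS_deriv (-t) (χ x)) (hχd x hx)).sub_const _
    have b2 : HasDerivAt (fun y => c * (pS t y - Complex.I)) (c * (7 * qq t x ^ 2 * rr t x)) x :=
      ((pS_deriv t x).sub_const _).const_mul c
    have b3 : (fun y => pS (-t) (χ y) - Complex.I) =ᶠ[𝓝 x] fun y => c * (pS t y - Complex.I) := by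
      filter_upwards [hXo.mem_nhds hx] with y hy
      exact hid y hy
    exact b1.unique (b2.congr_of_eventuallyEq b3)
  -- step 1
  have hc1 : c = 1 := by
    obtain ⟨x0, hx0⟩ := qq_root t
    have hp0 : pS t x0 = 0 := by rw [pS_eq, hx0]; ring
    have hx0X : x0 ∈ X := by
      show ‖pS t x0 - Complex.I‖ < R
      rw [hp0, zero_sub, norm_neg, Complex.norm_I]
      linarith
    have h1 := hder x0 hx0X
    rw [hx0] at h1
    have h2 : 7 * qq (-t) (χ x0) ^ 2 * rr (-t) (χ x0) = 0 := by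
      have h3 : c * (7 * (0:ℂ) ^ 2 * rr t x0) = 0 := by ring
      rw [h3] at h1
      exact (mul_eq_zero.mp h1).resolve_right (hne x0 hx0X)
    have ht' : (-t) ^ 2 = -7 := by rw [neg_sq]; exact ht
    have h4 := hid x0 hx0X
    rw [hp0] at h4
    rcases crit ht' h2 with h | h
    · rw [h] at h4
      have h5 : Complex.I * (c - 1) = 0 := by linear_combination h4
      have h6 := (mul_eq_zero.mp h5).resolve_left Complex.I_ne_zero
      linear_combination h6
    · rw [h] at h4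
      have h5 : (1728 : ℂ) = Complex.I - c * Complex.I := by linear_combination h4
      have h6 : ‖(1728 : ℂ)‖ ≤ 1 + 1 := by
        rw [h5]
        refine (norm_sub_le _ _).trans ?_
        rw [norm_mul, hc, Complex.norm_I]
        norm_num
      norm_num at h6
  -- step 2
  have hS2 : ∀ x ∈ X, pS (-t) (χ x) = pS t x := by
    intro x hx
    have := hid x hx
    rw [hc1] at this
    linear_combination this
  refine ⟨χ, fun x hx => (hχd x hx).differentiableAt.differentiableWithinAt, hS2, ?_⟩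
  -- step 3
  have h00 : pS t 0 = 0 := by rw [pS_eq]; ring
  have h0X : (0 : ℂ) ∈ X := by
    show ‖pS t 0 - Complex.I‖ < R
    rw [h00, zero_sub, norm_neg, Complex.norm_I]
    linarith
  have h1 := hS2 0 h0X
  rw [h00, pS_eq] at h1
  rcases mul_eq_zero.mp h1 with h | h
  · exact h
  · exfalso
    have hq : qq (-t) (χ 0) = 0 := pow_eq_zero_iff (by norm_num) |>.mp h
    have h2 := hder 0 h0X
    rw [hq, hc1] at h2
    have h3 : 7 * qq t 0 ^ 2 * rr t 0 = 0 := by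
      linear_combination -h2
    have hs : ((1 + t) / 2 - 3) ^ 3 = 0 := by
      unfold qq rr at h3
      linear_combination h3 / 343
    have h4 : (1 + t) / 2 - 3 = 0 := pow_eq_zero_iff (by norm_num) |>.mp hs
    have h5 : t = 5 := by linear_combination 2 * h4
    rw [h5] at ht
    norm_num at ht

end Pool.Agent.Helper859.Stk.NC2
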