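import Pool.Agent.Helper859.Stk.Alg
set_option linter.all false
open Metric Set Filter Topology

namespace Pool.Agent.Helper859.Stk.NC3
open Pool.Agent.Helper859.Stk

--ALG
theorem core {t : ℂ} (ht : t ^ 2 = -7) {R : ℝ} (hR : 1729 < R)
    (D₁ : Dat (fun x => pS t x - Complex.I) R) (D₂ : Dat (fun x => pS (-t) x - Complex.I) R)
    {τ : ℂ → ℂ} {c : ℂ}
    (hτ : ∀ z ∈ ball (0 : ℂ) 1, τ z ∈ ball (0 : ℂ) 1 ∧ DifferentiableAt ℂ τ z ∧ deriv τ z ≠ 0)
    (hB : ∀ z ∈ ball (0 : ℂ) 1, D₂.B (τ z) =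
      c * (starRingEnd ℂ) (D₁.B ((starRingEnd ℂ) z)))
    (x : ℂ) (hx : ‖pS t x - Complex.I‖ < R) (hcr : 7 * qq t x ^ 2 * rr t x = 0) :
    ∃ y, pS (-t) y - Complex.I = c * (starRingEnd ℂ) (pS t x - Complex.I) ∧
      (pS (-t) y = 0 ∨ pS (-t) y = 1728) := by
  have hRp : 0 < R := by linarith
  have hRc : (R : ℂ) ≠ 0 := by exact_mod_cast hRp.ne'
  have hpc : ∀ s : ℂ, Continuous (fun x => pS s x - Complex.I) := by
    intro s
    unfold pS
    fun_prop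
  set w := D₁.ψ x with hw
  have hwb : w ∈ ball (0:ℂ) 1 := D₁.mψ x hx
  have hφw : D₁.φ w = x := D₁.φψ x hx
  set z := (starRingEnd ℂ) w with hz
  have hzb : z ∈ ball (0:ℂ) 1 := by
    rw [mem_ball_zero_iff] at hwb ⊢
    rw [hz, Complex.norm_conj]
    exact hwb
  have hzz : (starRingEnd ℂ) z = w := Complex.conj_conj w
  obtain ⟨hζb, hτd, hτ0⟩ := hτ z hzb
  set ζ := τ z with hζ
  have hbig : ∀ v : ℂ, v ∈ ball (0:ℂ) 1 → v ∈ ball (0:ℂ) (3 / 2) := fun v hv =>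
    ball_subset_ball (by norm_num) hv
  -- derivatives for the first domain
  have hd1 : HasDerivAt D₁.B (deriv D₁.B w) w :=
    (D₁.dB.differentiableAt (isOpen_ball.mem_nhds (hbig w hwb))).hasDerivAt
  have hφ1 : HasDerivAt D₁.φ (deriv D₁.φ w) w :=
    (D₁.dφ.differentiableAt (isOpen_ball.mem_nhds hwb)).hasDerivAt
  have e1 : HasDerivAt (fun v => pS t (D₁.φ v) - Complex.I)
      ((7 * qq t x ^ 2 * rr t x) * deriv D₁.φ w) w := by
    have h1 := pS_deriv t (D₁.φ w)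
    have h2 := h1.comp w hφ1
    rw [hφw] at h2
    exact h2.sub_const _
  have e2 : HasDerivAt (fun v => (R:ℂ) * D₁.B v) ((R:ℂ) * deriv D₁.B w) w := hd1.const_mul _
  have e3 : (fun v => pS t (D₁.φ v) - Complex.I) =ᶠ[𝓝 w] fun v => (R:ℂ) * D₁.B v := by
    filter_upwards [isOpen_ball.mem_nhds hwb] with v hv
    exact D₁.pB v hv
  have hB1 : deriv D₁.B w = 0 := by
    have h1 := (e2.congr_of_eventuallyEq e3).unique e1
    rw [hcr, zero_mul] at h1
    rcases mul_eq_zero.mp h1 with h | h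
    · exact absurd h hRc
    · exact h
  -- transfer
  have hg : HasDerivAt (fun v => (starRingEnd ℂ) (D₁.B ((starRingEnd ℂ) v))) 0 z := by
    have h1 : HasDerivAt D₁.B 0 ((starRingEnd ℂ) z) := by
      rw [hzz, ← hB1]
      exact hd1
    have h2 := h1.conj_conj
    rw [map_zero, hzz] at h2
    exact h2
  have hd2 : HasDerivAt D₂.B (deriv D₂.B ζ) ζ :=
    (D₂.dB.differentiableAt (isOpen_ball.mem_nhds (hbig ζ hζb))).hasDerivAt
  have e4 : HasDerivAt (fun v => D₂.B (τ v)) (deriv D₂.B ζ * deriv τ z) z :=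
    hd2.comp z hτd.hasDerivAt
  have e5 : HasDerivAt (fun v => c * (starRingEnd ℂ) (D₁.B ((starRingEnd ℂ) v))) (c * 0) z :=
    hg.const_mul c
  have e6 : (fun v => D₂.B (τ v)) =ᶠ[𝓝 z]
      fun v => c * (starRingEnd ℂ) (D₁.B ((starRingEnd ℂ) v)) := by
    filter_upwards [isOpen_ball.mem_nhds hzb] with v hv
    exact hB v hv
  have hB2 : deriv D₂.B ζ = 0 := by
    have h1 := (e5.congr_of_eventuallyEq e6).unique e4
    rw [mul_zero] at h1
    rcases mul_eq_zero.mp h1.symm with h | h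
    · exact h
    · exact absurd h hτ0
  -- second domain
  have hφ2 : HasDerivAt D₂.φ (deriv D₂.φ ζ) ζ :=
    (D₂.dφ.differentiableAt (isOpen_ball.mem_nhds hζb)).hasDerivAt
  have hmφ : ‖pS (-t) (D₂.φ ζ) - Complex.I‖ < R := D₂.mφ ζ hζb
  have hopen : IsOpen {x | ‖pS (-t) x - Complex.I‖ < R} :=
    isOpen_lt (hpc (-t)).norm continuous_const
  have hψ2 : HasDerivAt D₂.ψ (deriv D₂.ψ (D₂.φ ζ)) (D₂.φ ζ) :=
    (D₂.dψ.differentiableAt (hopen.mem_nhds hmφ)).hasDerivAt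
  have hφ20 : deriv D₂.φ ζ ≠ 0 := by
    have h1 := hψ2.comp ζ hφ2
    have h2 : (D₂.ψ ∘ D₂.φ) =ᶠ[𝓝 ζ] id := by
      filter_upwards [isOpen_ball.mem_nhds hζb] with v hv
      exact D₂.ψφ v hv
    have h3 := ((hasDerivAt_id ζ).congr_of_eventuallyEq h2).unique h1
    intro h0
    rw [h0, mul_zero] at h3
    exact one_ne_zero h3
  have e7 : HasDerivAt (fun v => pS (-t) (D₂.φ v) - Complex.I)
      ((7 * qq (-t) (D₂.φ ζ) ^ 2 * rr (-t) (D₂.φ ζ)) * deriv D₂.φ ζ) ζ :=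
    ((pS_deriv (-t) (D₂.φ ζ)).comp ζ hφ2).sub_const _
  have e8 : HasDerivAt (fun v => (R:ℂ) * D₂.B v) ((R:ℂ) * deriv D₂.B ζ) ζ := hd2.const_mul _
  have e9 : (fun v => pS (-t) (D₂.φ v) - Complex.I) =ᶠ[𝓝 ζ] fun v => (R:ℂ) * D₂.B v := by
    filter_upwards [isOpen_ball.mem_nhds hζb] with v hv
    exact D₂.pB v hv
  have hcr2 : 7 * qq (-t) (D₂.φ ζ) ^ 2 * rr (-t) (D₂.φ ζ) = 0 := by
    have h1 := (e8.congr_of_eventuallyEq e9).unique e7
    rw [hB2, mul_zero] at h1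
    rcases mul_eq_zero.mp h1.symm with h | h
    · exact h
    · exact absurd h hφ20
  refine ⟨D₂.φ ζ, ?_, crit (by rw [neg_sq]; exact ht) hcr2⟩
  have h1 : pS (-t) (D₂.φ ζ) - Complex.I = R * D₂.B ζ := D₂.pB ζ hζb
  have h2 : pS t (D₁.φ w) - Complex.I = R * D₁.B w := D₁.pB w hwb
  rw [hφw] at h2
  rw [h1, hB z hzb, hzz, h2, map_mul, Complex.conj_ofReal]
  ring

theorem exists_quad (b d : ℂ) : ∃ x : ℂ, x ^ 2 + b * x + d = 0 := by
  obtain ⟨s, hs⟩ := IsAlgClosed.exists_pow_nat_eq (b ^ 2 - 4 * d) two_pos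
  refine ⟨(-b + s) / 2, ?_⟩
  linear_combination hs / 4

theorem conj_false {t : ℂ} (ht : t ^ 2 = -7) {R : ℝ} (hR : 1729 < R)
    (D₁ : Dat (fun x => pS t x - Complex.I) R) (D₂ : Dat (fun x => pS (-t) x - Complex.I) R)
    {τ : ℂ → ℂ} {c : ℂ} (hc : ‖c‖ = 1)
    (hτ : ∀ z ∈ ball (0 : ℂ) 1, τ z ∈ ball (0 : ℂ) 1 ∧ DifferentiableAt ℂ τ z ∧ deriv τ z ≠ 0)
    (hB : ∀ z ∈ ball (0 : ℂ) 1, D₂.B (τ z) =
      c * (starRingEnd ℂ) (D₁.B ((starRingEnd ℂ) z))) : False := by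
  have hn1728 : ‖(1728 : ℂ)‖ = 1728 := by
    have : (1728 : ℂ) = ((1728 : ℝ) : ℂ) := by norm_num
    rw [this, Complex.norm_real]
    norm_num
  -- first point
  obtain ⟨x0, hx0⟩ := exists_quad (7 * ((1 + t) / 2)) (7 * ((1 + t) / 2 - 3))
  have hq0 : qq t x0 = 0 := hx0
  have hp0 : pS t x0 = 0 := by
    rw [pS_eq, hq0]
    ring
  obtain ⟨y0, hy0, hy0'⟩ := core ht hR D₁ D₂ hτ hB x0 (by
    rw [hp0, zero_sub, norm_neg, Complex.norm_I]
    linarith) (by rw [hq0]; ring)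
  rw [hp0, zero_sub, map_neg, Complex.conj_I, neg_neg] at hy0
  have hc1 : c = -1 := by
    rcases hy0' with h | h
    · rw [h, zero_sub] at hy0
      have h1 : (c + 1) * Complex.I = 0 := by
        rw [add_mul, ← hy0]
        ring
      rcases mul_eq_zero.mp h1 with h2 | h2
      · exact eq_neg_of_add_eq_zero_left h2
      · exact absurd h2 Complex.I_ne_zero
    · exfalso
      rw [h] at hy0
      have h1 : (1728 : ℂ) = c * Complex.I + Complex.I := by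
        rw [← hy0]
        ring
      have h2 : ‖(1728 : ℂ)‖ ≤ 2 := by
        rw [h1]
        refine (norm_add_le _ _).trans ?_
        rw [norm_mul, hc, Complex.norm_I]
        norm_num
      rw [hn1728] at h2
      norm_num at h2
  -- second point
  obtain ⟨x1, hx1⟩ := exists_quad (4 * ((1 + t) / 2)) ((1 + t) / 2 - 3)
  have hr1 : rr t x1 = 0 := hx1
  have hp1 : pS t x1 = 1728 := by
    have := pS_sub ht x1
    rw [hr1, zero_mul] at this
    exact sub_eq_zero.mp this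
  obtain ⟨y1, hy1, hy1'⟩ := core ht hR D₁ D₂ hτ hB x1 (by
    rw [hp1]
    refine lt_of_le_of_lt (norm_sub_le _ _) ?_
    rw [hn1728, Complex.norm_I]
    linarith) (by rw [hr1]; ring)
  have h1728 : (starRingEnd ℂ) (1728 : ℂ) = 1728 := map_ofNat _ 1728
  rw [hp1, map_sub, Complex.conj_I, h1728, hc1] at hy1
  have h3 : pS (-t) y1 = -1728 := by linear_combination hy1
  rw [h3] at hy1'
  rcases hy1' with h | h
  · norm_num at h
  · norm_num at h

end Pool.Agent.Helper859.Stk.NC3
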