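import Pool.Agent.Helper859.Stk.Alg
set_option linter.all false
open Metric Set Filter Topology

namespace Pool.Agent.Helper859.Stk.NC4
open Pool.Agent.Helper859.Stk

--ALG
theorem no_chi_open {t : ℂ} (R : ℝ) : IsOpen {x : ℂ | ‖pS t x - Complex.I‖ < R} := by
  apply isOpen_lt _ continuous_const
  apply Continuous.norm
  apply Continuous.sub _ continuous_const
  unfold pS
  fun_prop

theorem no_chi_zero {t : ℂ} {R : ℝ} (hR : 2 ≤ R) : (0 : ℂ) ∈ {x : ℂ | ‖pS t x - Complex.I‖ < R} := by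
  simp only [Set.mem_setOf_eq, pS]
  simp
  linarith

theorem no_chi_germ {t : ℂ} (ht : t ^ 2 = -7) : ∃ g : ℂ → ℂ, ∀ (R : ℝ) (χ : ℂ → ℂ), 2 ≤ R →
    DifferentiableOn ℂ χ {x | ‖pS t x - Complex.I‖ < R} →
    (∀ x, ‖pS t x - Complex.I‖ < R → pS (-t) (χ x) = pS t x) → χ 0 = 0 →
    ∀ᶠ x in 𝓝 (0 : ℂ), χ x = g (pS t x) := by
  have hd : HasDerivAt (pS (-t)) (7 * qq (-t) 0 ^ 2 * rr (-t) 0) 0 := pS_deriv (-t) 0
  have hs : HasStrictDerivAt (pS (-t)) (7 * qq (-t) 0 ^ 2 * rr (-t) 0) 0 := by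
    have h1 : ContDiffAt ℂ 1 (pS (-t)) 0 := by
      unfold pS
      fun_prop
    exact h1.hasStrictDerivAt' hd one_ne_zero
  have ht5 : (-5 - t) ≠ 0 := by
    intro h
    have : t = -5 := by linear_combination -h
    rw [this] at ht
    norm_num at ht
  have hne : 7 * qq (-t) 0 ^ 2 * rr (-t) 0 ≠ 0 := by
    have e : 7 * qq (-t) 0 ^ 2 * rr (-t) 0 = 343 / 8 * (-5 - t) ^ 3 := by
      unfold qq rr
      ring
    rw [e]
    exact mul_ne_zero (by norm_num) (pow_ne_zero 3 ht5)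
  have hf := hs.hasStrictFDerivAt_equiv hne
  have hl := hf.eventually_left_inverse
  refine ⟨hf.localInverse _ _ _, ?_⟩
  intro R χ hR hχ hp h0
  have hX : {x : ℂ | ‖pS t x - Complex.I‖ < R} ∈ 𝓝 (0 : ℂ) :=
    (no_chi_open R).mem_nhds (no_chi_zero hR)
  have hc : ContinuousAt χ 0 := (hχ.continuousOn).continuousAt hX
  have hc' : Tendsto χ (𝓝 0) (𝓝 0) := by
    have := hc.tendsto
    rwa [h0] at this
  filter_upwards [hc'.eventually hl, hX] with x hx hxX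
  rw [← hp x hxX]
  exact hx.symm

theorem no_chi {t : ℂ} (ht : t ^ 2 = -7) (R₀ : ℝ)
    (hstar : ∀ R : ℝ, R₀ ≤ R → StarConvex ℝ 0 {x : ℂ | ‖pS t x - Complex.I‖ < R} )
    (h : ∀ R : ℝ, R₀ ≤ R → ∃ χ : ℂ → ℂ, DifferentiableOn ℂ χ {x | ‖pS t x - Complex.I‖ < R} ∧
      (∀ x, ‖pS t x - Complex.I‖ < R → pS (-t) (χ x) = pS t x) ∧ χ 0 = 0) :
    ∃ χ : ℂ → ℂ, Differentiable ℂ χ ∧ (∀ x, pS (-t) (χ x) = pS t x) ∧ χ 0 = 0 := by
  obtain ⟨g, hg⟩ := no_chi_germ ht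
  have hR0 : ∀ n : ℕ, R₀ ≤ max R₀ 2 + n := fun n => by
    have := le_max_left R₀ 2
    have : (0:ℝ) ≤ n := Nat.cast_nonneg n
    linarith
  have hR2 : ∀ n : ℕ, 2 ≤ max R₀ 2 + n := fun n => by
    have := le_max_right R₀ 2
    have : (0:ℝ) ≤ n := Nat.cast_nonneg n
    linarith
  choose χ hχd hχp hχ0 using fun n : ℕ => h (max R₀ 2 + n) (hR0 n)
  have hgerm : ∀ n, ∀ᶠ x in 𝓝 (0 : ℂ), χ n x = g (pS t x) := fun n =>
    hg _ _ (hR2 n) (hχd n) (hχp n) (hχ0 n)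
  have hpre : ∀ n : ℕ, IsPreconnected {x : ℂ | ‖pS t x - Complex.I‖ < max R₀ 2 + n} := fun n =>
    ((hstar _ (hR0 n)).isPathConnected (no_chi_zero (hR2 n))).isConnected.isPreconnected
  have hmono : ∀ m n : ℕ, m ≤ n → {x : ℂ | ‖pS t x - Complex.I‖ < max R₀ 2 + m} ⊆
      {x : ℂ | ‖pS t x - Complex.I‖ < max R₀ 2 + n} := by
    intro m n hmn x hx
    simp only [Set.mem_setOf_eq] at hx ⊢
    have : (m : ℝ) ≤ n := by exact_mod_cast hmn
    linarith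
  have hagree : ∀ m n : ℕ, m ≤ n → EqOn (χ m) (χ n) {x : ℂ | ‖pS t x - Complex.I‖ < max R₀ 2 + m} := by
    intro m n hmn
    have a1 : AnalyticOnNhd ℂ (χ m) {x : ℂ | ‖pS t x - Complex.I‖ < max R₀ 2 + m} :=
      (hχd m).analyticOnNhd (no_chi_open _)
    have a2 : AnalyticOnNhd ℂ (χ n) {x : ℂ | ‖pS t x - Complex.I‖ < max R₀ 2 + m} :=
      ((hχd n).mono (hmono m n hmn)).analyticOnNhd (no_chi_open _)
    refine a1.eqOn_of_preconnected_of_eventuallyEq a2 (hpre m) (no_chi_zero (hR2 m)) ?_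
    filter_upwards [hgerm m, hgerm n] with x h1 h2
    rw [h1, h2]
  have hcov : ∀ x : ℂ, ∃ n : ℕ, ‖pS t x - Complex.I‖ < max R₀ 2 + n := by
    intro x
    obtain ⟨n, hn⟩ := exists_nat_gt (‖pS t x - Complex.I‖ - max R₀ 2)
    exact ⟨n, by linarith⟩
  classical
  let χ' : ℂ → ℂ := fun x => χ (Nat.find (hcov x)) x
  have hχ' : ∀ n : ℕ, ∀ x, ‖pS t x - Complex.I‖ < max R₀ 2 + n → χ' x = χ n x := by
    intro n x hx
    exact hagree _ n (Nat.find_min' (hcov x) hx) (Nat.find_spec (hcov x))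
  refine ⟨χ', ?_, ?_, ?_⟩
  · intro x
    obtain ⟨n, hn⟩ := hcov x
    have hX : {x : ℂ | ‖pS t x - Complex.I‖ < max R₀ 2 + n} ∈ 𝓝 x := (no_chi_open _).mem_nhds hn
    have h1 : DifferentiableAt ℂ (χ n) x := (hχd n).differentiableAt hX
    apply h1.congr_of_eventuallyEq
    filter_upwards [hX] with y hy
    exact hχ' n y hy
  · intro x
    obtain ⟨n, hn⟩ := hcov x
    rw [hχ' n x hn]
    exact hχp n x hn
  · rw [hχ' 0 0 (no_chi_zero (hR2 0))]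
    exact hχ0 0

end Pool.Agent.Helper859.Stk.NC4
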