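import Pool.Agent.Helper859.Stk.Alg
set_option linter.all false
open Metric Set Filter Topology

namespace Pool.Agent.Helper859.Stk.NC5
open Pool.Agent.Helper859.Stk

--ALG
theorem norm_t {t : ℂ} (ht : t ^ 2 = -7) : ‖t‖ ≤ 3 := by
  have h : ‖t‖ ^ 2 = 7 := by
    rw [← norm_pow, ht]; simp
  nlinarith [norm_nonneg t]

theorem norm_a {t : ℂ} (ht : t ^ 2 = -7) : ‖7 * ((1 + t) / 2)‖ ≤ 14 := by
  have h := norm_t ht
  have h1 : ‖(1 : ℂ) + t‖ ≤ 4 := (norm_add_le _ _).trans (by rw [norm_one]; linarith)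
  rw [norm_mul, norm_div]
  simp only [Complex.norm_ofNat]
  linarith

theorem norm_b {t : ℂ} (ht : t ^ 2 = -7) : ‖7 * ((1 + t) / 2 - 3)‖ ≤ 35 := by
  have h := norm_t ht
  have h1 : ‖(1 : ℂ) + t‖ ≤ 4 := (norm_add_le _ _).trans (by rw [norm_one]; linarith)
  have h2 : ‖(1 + t) / 2 - 3‖ ≤ 5 := by
    refine (norm_sub_le _ _).trans ?_
    rw [norm_div]
    simp only [Complex.norm_ofNat]
    linarith
  rw [norm_mul]
  simp only [Complex.norm_ofNat]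
  linarith

theorem upper {t : ℂ} (ht : t ^ 2 = -7) {x : ℂ} (hx : 1 ≤ ‖x‖) :
    ‖pS t x‖ ≤ 125000 * ‖x‖ ^ 7 := by
  have h1 : ‖x ^ 2 + 7 * ((1 + t) / 2) * x + 7 * ((1 + t) / 2 - 3)‖ ≤ 50 * ‖x‖ ^ 2 := by
    refine (norm_add_le _ _).trans ?_
    have h2 : ‖x ^ 2 + 7 * ((1 + t) / 2) * x‖ ≤ ‖x‖ ^ 2 + 14 * ‖x‖ := by
      refine (norm_add_le _ _).trans ?_
      rw [norm_pow, norm_mul]
      have := norm_a ht
      nlinarith [norm_nonneg x]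
    have h3 := norm_b ht
    nlinarith
  unfold pS
  rw [norm_mul, norm_pow]
  have h4 : ‖x ^ 2 + 7 * ((1 + t) / 2) * x + 7 * ((1 + t) / 2 - 3)‖ ^ 3 ≤ (50 * ‖x‖ ^ 2) ^ 3 :=
    pow_le_pow_left₀ (norm_nonneg _) h1 3
  calc ‖x‖ * _ ≤ ‖x‖ * (50 * ‖x‖ ^ 2) ^ 3 := mul_le_mul_of_nonneg_left h4 (norm_nonneg _)
    _ = _ := by ring

theorem lower {t : ℂ} (ht : t ^ 2 = -7) {y : ℂ} (hy : 40 ≤ ‖y‖) :
    ‖y‖ ^ 7 / 8 ≤ ‖pS t y‖ := by
  have h1 : ‖y‖ ^ 2 / 2 ≤ ‖y ^ 2 + 7 * ((1 + t) / 2) * y + 7 * ((1 + t) / 2 - 3)‖ := by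
    have h2 : ‖y ^ 2‖ ≤ ‖y ^ 2 + 7 * ((1 + t) / 2) * y + 7 * ((1 + t) / 2 - 3)‖ +
        ‖7 * ((1 + t) / 2) * y‖ + ‖7 * ((1 + t) / 2 - 3)‖ := by
      have e : y ^ 2 = (y ^ 2 + 7 * ((1 + t) / 2) * y + 7 * ((1 + t) / 2 - 3)) -
        7 * ((1 + t) / 2) * y - 7 * ((1 + t) / 2 - 3) := by ring
      calc ‖y ^ 2‖ = ‖(y ^ 2 + 7 * ((1 + t) / 2) * y + 7 * ((1 + t) / 2 - 3)) -
        7 * ((1 + t) / 2) * y - 7 * ((1 + t) / 2 - 3)‖ := by rw [← e]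
        _ ≤ _ := (norm_sub_le _ _).trans (by gcongr; exact norm_sub_le _ _)
    have h3 := norm_b ht
    have h4 : ‖7 * ((1 + t) / 2) * y‖ ≤ 14 * ‖y‖ := by
      rw [norm_mul]
      exact mul_le_mul_of_nonneg_right (norm_a ht) (norm_nonneg _)
    rw [norm_pow] at h2
    nlinarith
  unfold pS
  rw [norm_mul, norm_pow]
  have h4 : (‖y‖ ^ 2 / 2) ^ 3 ≤ ‖y ^ 2 + 7 * ((1 + t) / 2) * y + 7 * ((1 + t) / 2 - 3)‖ ^ 3 :=
    pow_le_pow_left₀ (by positivity) h1 3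
  calc ‖y‖ ^ 7 / 8 = ‖y‖ * (‖y‖ ^ 2 / 2) ^ 3 := by ring
    _ ≤ _ := mul_le_mul_of_nonneg_left h4 (norm_nonneg _)

theorem chi_bound {t : ℂ} (ht : t ^ 2 = -7) {χ : ℂ → ℂ}
    (h : ∀ x, pS (-t) (χ x) = pS t x) {x : ℂ} (hx : 1 ≤ ‖x‖) : ‖χ x‖ ≤ 40 * ‖x‖ := by
  rcases le_total ‖χ x‖ 40 with h1 | h1
  · linarith
  · have ht' : (-t) ^ 2 = -7 := by rw [neg_sq, ht]
    have h2 := lower ht' h1
    rw [h x] at h2
    have h3 := upper ht hx
    have h4 : ‖χ x‖ ^ 7 ≤ (8 * ‖x‖) ^ 7 := by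
      have : (8 * ‖x‖) ^ 7 = 2097152 * ‖x‖ ^ 7 := by ring
      rw [this]
      have : 0 ≤ ‖x‖ ^ 7 := by positivity
      linarith
    have h5 : ‖χ x‖ ≤ 8 * ‖x‖ := (pow_le_pow_iff_left₀ (norm_nonneg _) (by positivity)
      (by norm_num)).1 h4
    linarith [norm_nonneg x]

theorem chi_lin {t : ℂ} (ht : t ^ 2 = -7) {χ : ℂ → ℂ} (hd : Differentiable ℂ χ)
    (h : ∀ x, pS (-t) (χ x) = pS t x) (h0 : χ 0 = 0) : ∃ α : ℂ, ∀ x, χ x = α * x := by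
  have hg : Differentiable ℂ (dslope χ 0) := by
    have := (Complex.differentiableOn_dslope (s := univ) (c := 0) (f := χ) Filter.univ_mem).2
      hd.differentiableOn
    exact differentiableOn_univ.1 this
  have hx : ∀ x, χ x = dslope χ 0 x * x := by
    intro x
    have := sub_smul_dslope χ 0 x
    rw [h0, sub_zero, sub_zero, smul_eq_mul] at this
    rw [← this]; ring
  obtain ⟨C, hC⟩ := (isCompact_closedBall (0 : ℂ) 1).exists_bound_of_continuousOn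
    (f := dslope χ 0) hg.continuous.continuousOn
  have hb : Bornology.IsBounded (range (dslope χ 0)) := by
    rw [isBounded_iff_forall_norm_le]
    refine ⟨max C 40, ?_⟩
    rintro _ ⟨x, rfl⟩
    rcases le_total ‖x‖ 1 with h1 | h1
    · exact (hC x (by simpa using h1)).trans (le_max_left _ _)
    · refine le_trans ?_ (le_max_right _ _)
      have h2 := chi_bound ht h h1
      rw [hx x, norm_mul] at h2
      have h3 : 0 < ‖x‖ := by linarith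
      exact le_of_mul_le_mul_right h2 h3
  refine ⟨dslope χ 0 0, fun x => ?_⟩
  rw [hg.apply_eq_apply_of_bounded hb 0 x]
  exact hx x

theorem chi_false {t : ℂ} (ht : t ^ 2 = -7) {χ : ℂ → ℂ} (hd : Differentiable ℂ χ)
    (h : ∀ x, pS (-t) (χ x) = pS t x) (h0 : χ 0 = 0) : False := by
  obtain ⟨α, hα⟩ := chi_lin ht hd h h0
  have E : ∀ x, pS (-t) (α * x) - pS t x = 0 := by
    intro x
    rw [← hα x, h x, sub_self]
  have h7 : α ^ 7 = 1 := by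
    have e4 := E 4
    have e3 := E 3
    have e2 := E 2
    have e1 := E 1
    have f1 := E (-1)
    have f2 := E (-2)
    have f3 := E (-3)
    unfold pS at e4 e3 e2 e1 f1 f2 f3
    linear_combination (1 / 5040) * (e4 - 7 * e3 + 21 * e2 - 35 * e1 - 21 * f1 + 7 * f2 - f3)
  have h6 : (1 - t) * α ^ 6 = 1 + t := by
    have e3 := E 3
    have e2 := E 2
    have e1 := E 1
    have f1 := E (-1)
    have f2 := E (-2)
    have f3 := E (-3)
    unfold pS at e3 e2 e1 f1 f2 f3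
    linear_combination (2 / 21) * (1 / 720) * (e3 - 6 * e2 + 15 * e1 + 15 * f1 - 6 * f2 + f3)
  have h5 : 1 - t = α * (1 + t) := by
    linear_combination (-(1 - t)) * h7 + α * h6
  have h8 : (1 - t) ^ 7 = (1 + t) ^ 7 := by
    rw [h5, mul_pow, h7, one_mul]
  have h9 : t * 896 = 0 := by
    linear_combination (-1) * h8 - (2 * t * (t ^ 4 + 14 * t ^ 2 - 63)) * ht
  have h10 : t = 0 := by
    rcases mul_eq_zero.1 h9 with h | h
    · exact h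
    · norm_num at h
  rw [h10] at ht
  norm_num at ht

end Pool.Agent.Helper859.Stk.NC5
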