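import Pool.Agent.Helper859.Stk.Trans
import Pool.Agent.Helper859.Stk.L03a
import Pool.Agent.Helper859.Stk.L03b
import Pool.Agent.Helper859.Stk.NC0
import Pool.Agent.Helper859.Stk.NC1a
import Pool.Agent.Helper859.Stk.NC1b
import Pool.Agent.Helper859.Stk.NC2
import Pool.Agent.Helper859.Stk.NC3
import Pool.Agent.Helper859.Stk.NC4
import Pool.Agent.Helper859.Stk.NC5
set_option linter.all false
open Metric Set Filter Topology

namespace Pool.Agent.Helper859.Stk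

theorem Dat.bd {p : ℂ → ℂ} {R : ℝ} (hR : 0 < R) (D : Dat p R) : BD D.B D.F D.G :=
  ⟨D.conf, D.dB, fun z hz => normB_lt hR D hz, D.B1, D.GB⟩

theorem conj_hasDerivAt {f : ℂ → ℂ} {f' z : ℂ} (h : HasDerivAt f f' ((starRingEnd ℂ) z)) :
    HasDerivAt (fun z => (starRingEnd ℂ) (f ((starRingEnd ℂ) z))) ((starRingEnd ℂ) f') z := by
  have := h.conj_conj
  simpa [Function.comp_def] using this

theorem BD.cnj {B F G : ℂ → ℂ} (h : BD B F G) :
    BD (fun z => (starRingEnd ℂ) (B ((starRingEnd ℂ) z))) (fun z => (starRingEnd ℂ) (F ((starRingEnd ℂ) z)))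
      (fun z => (starRingEnd ℂ) (G ((starRingEnd ℂ) z))) := by
  have hb : ∀ r : ℝ, ∀ z : ℂ, z ∈ ball (0 : ℂ) r → (starRingEnd ℂ) z ∈ ball (0 : ℂ) r := by
    intro r z hz
    simpa using hz
  have hs : ∀ z : ℂ, z ∈ sphere (0 : ℂ) 1 → (starRingEnd ℂ) z ∈ sphere (0 : ℂ) 1 := by
    intro z hz
    simpa using hz
  refine ⟨⟨?_, ?_, ?_⟩, ?_, ?_, ?_, ?_⟩
  · intro z hz
    exact conj_hasDerivAt (h.conf.dF _ (hb _ z hz))
  · intro z hz h0
    exact h.conf.G0 _ (hb _ z hz) (by simpa using h0)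
  · intro z hz w hw he
    have h1 := (starRingEnd ℂ).injective he
    have h2 := h.conf.iF (hb _ z hz) (hb _ w hw) h1
    exact (starRingEnd ℂ).injective h2
  · intro z hz
    have h1 : HasDerivAt B (deriv B ((starRingEnd ℂ) z)) ((starRingEnd ℂ) z) :=
      ((h.dB _ (hb _ z hz)).differentiableAt (isOpen_ball.mem_nhds (hb _ z hz))).hasDerivAt
    exact (conj_hasDerivAt h1).differentiableAt.differentiableWithinAt
  · intro z hz
    simpa using h.Bi _ (hb _ z hz)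
  · intro z hz
    simpa using h.B1 _ (hs z hz)
  · intro z hz
    have hz2 : (starRingEnd ℂ) z ∈ ball (0 : ℂ) (3 / 2) := by
      have : ‖z‖ = 1 := by simpa using hz
      simp [this]; norm_num
    have h1 : HasDerivAt B (deriv B ((starRingEnd ℂ) z)) ((starRingEnd ℂ) z) :=
      ((h.dB _ hz2).differentiableAt (isOpen_ball.mem_nhds hz2)).hasDerivAt
    rw [(conj_hasDerivAt h1).deriv]
    simpa using h.GB _ (hs z hz)

/-- matching of the inner functions for congruent domains -/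
theorem match_of_affine {B₁ F₁ G₁ B₂ F₂ G₂ : ℂ → ℂ} (h₁ : BD B₁ F₁ G₁) (h₂ : BD B₂ F₂ G₂) {α β : ℂ}
    (hα : ‖α‖ = 1)
    (himg : (fun z => α * z + β) '' (F₁ '' ball (0 : ℂ) 1) = F₂ '' ball (0 : ℂ) 1) :
    ∃ (τ : ℂ → ℂ) (c : ℂ), ‖c‖ = 1 ∧
      (∀ z ∈ ball (0 : ℂ) 1, τ z ∈ ball (0 : ℂ) 1 ∧ DifferentiableAt ℂ τ z ∧ deriv τ z ≠ 0) ∧
      ∀ z ∈ ball (0 : ℂ) 1, B₂ (τ z) = c * B₁ z := by
  obtain ⟨-, -, hcl, -, -⟩ := L03a.topo h₁.conf
  obtain ⟨-, -, hcl₂, -, -⟩ := L03a.topo h₂.conf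
  obtain ⟨J, hJ⟩ := L03b.exists_inv h₂.conf
  obtain ⟨τ, t1, t2, t3⟩ := NC1a.exists_tau h₁ h₂ hα himg hcl hcl₂ hJ
  obtain ⟨c, hc, hc'⟩ := NC1b.blaschke_match h₁ h₂ hα
    (fun C C' ζ h1 h2 h3 h4 => L01.logJ h1 h2 h3 h4) t1 t2 t3
  refine ⟨τ, c, hc, fun z hz => ⟨t2 z hz, ?_, ?_⟩, hc'⟩
  · exact (t1 z (ball_subset_closedBall hz)).1.differentiableAt
  · rw [(t1 z (ball_subset_closedBall hz)).1.deriv]
    refine div_ne_zero (mul_ne_zero ?_ ?_) (t1 z (ball_subset_closedBall hz)).2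
    · intro h; rw [h] at hα; simp at hα
    · exact h₁.conf.G0 z (ball_subset_ball (by norm_num) hz)

theorem chi_of_congruent {t : ℂ} (ht : t ^ 2 = -7) {R : ℝ} (hR : 1729 < R)
    (D₁ : Dat (fun x => pS t x - Complex.I) R) (D₂ : Dat (fun x => pS (-t) x - Complex.I) R)
    (e : ℂ ≃ᵢ ℂ) (he : e '' (D₁.F '' ball (0 : ℂ) 1) = D₂.F '' ball (0 : ℂ) 1) :
    ∃ χ : ℂ → ℂ, DifferentiableOn ℂ χ {x | ‖pS t x - Complex.I‖ < R} ∧
      (∀ x, ‖pS t x - Complex.I‖ < R → pS (-t) (χ x) = pS t x) ∧ χ 0 = 0 := by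
  have hR0 : 0 < R := by linarith
  obtain ⟨α, β, hα, h | h⟩ := NC0.isom e
  · have himg : (fun z => α * z + β) '' (D₁.F '' ball (0 : ℂ) 1) = D₂.F '' ball (0 : ℂ) 1 := by
      rw [← he]; exact image_congr (fun z _ => (h z).symm)
    obtain ⟨τ, c, hc, h1, h2⟩ := match_of_affine (D₁.bd hR0) (D₂.bd hR0) hα himg
    exact NC2.exists_chi ht hR D₁ D₂ hc h1 h2
  · exfalso
    have himg : (fun z => α * z + β) '' ((fun z => (starRingEnd ℂ) (D₁.F ((starRingEnd ℂ) z))) ''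
        ball (0 : ℂ) 1) = D₂.F '' ball (0 : ℂ) 1 := by
      rw [← he]
      ext w
      simp only [mem_image, exists_exists_and_eq_and]
      constructor
      · rintro ⟨z, hz, rfl⟩
        exact ⟨(starRingEnd ℂ) z, by simpa using hz, by rw [h]⟩
      · rintro ⟨z, hz, rfl⟩
        exact ⟨(starRingEnd ℂ) z, by simpa using hz, by rw [h]; simp⟩
    obtain ⟨τ, c, hc, h1, h2⟩ := match_of_affine (D₁.bd hR0).cnj (D₂.bd hR0) hα himg
    exact NC3.conj_false ht hR D₁ D₂ hc h1 h2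

end Pool.Agent.Helper859.Stk
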