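import Pool.Agent.Helper859.Stk.Equiv
import Pool.Agent.Helper859.Stk.Exist
import Pool.Agent.Helper859.Stk.NonCong
set_option linter.all false
open Metric Set Filter Topology

namespace Pool.Agent.Helper859.Stk

theorem exists_dat_pS {t : ℂ} (ht : t ^ 2 = -7) :
    ∃ R₀ : ℝ, ∀ R : ℝ, R₀ ≤ R → (0 < R ∧ StarConvex ℝ 0 {x : ℂ | ‖pS t x - Complex.I‖ < R} ∧
      Nonempty (Dat (fun x => pS t x - Complex.I) R)) := by
  obtain ⟨⟨a, ha⟩, ⟨c, hc⟩⟩ := Ex11.factors t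
  refine exists_dat a c (fun x => pS t x - Complex.I) ha ?_
  intro x
  have := (pS_deriv t x).sub_const Complex.I
  rw [← hc x]
  refine this.congr_deriv ?_
  ring

theorem main : ∃ F₁ G₁ F₂ G₂ : ℂ → ℂ, Conf F₁ G₁ ∧ Conf F₂ G₂ ∧
    (¬ ∃ e : ℂ ≃ᵢ ℂ, e '' (F₁ '' ball (0 : ℂ) 1) = F₂ '' ball (0 : ℂ) 1) ∧
    ∀ σ : ℝ, Nonempty (steklovSpace (F₁ '' ball (0 : ℂ) 1) σ ≃ₗ[ℝ]
      steklovSpace (F₂ '' ball (0 : ℂ) 1) σ) := by
  set t : ℂ := (Real.sqrt 7 : ℝ) * Complex.I with htdef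
  have ht : t ^ 2 = -7 := by
    rw [htdef, mul_pow, Complex.I_sq, ← Complex.ofReal_pow, Real.sq_sqrt (by norm_num)]
    norm_num
  obtain ⟨R₁, h₁⟩ := exists_dat_pS ht
  obtain ⟨R₂, h₂⟩ := exists_dat_pS (sq_neg ht)
  by_contra hcon
  have key : ∀ R : ℝ, max (max R₁ R₂) 1730 ≤ R → ∃ χ : ℂ → ℂ,
      DifferentiableOn ℂ χ {x | ‖pS t x - Complex.I‖ < R} ∧
      (∀ x, ‖pS t x - Complex.I‖ < R → pS (-t) (χ x) = pS t x) ∧ χ 0 = 0 := by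
    intro R hR
    have e1 : R₁ ≤ R := le_trans (le_trans (le_max_left _ _) (le_max_left _ _)) hR
    have e2 : R₂ ≤ R := le_trans (le_trans (le_max_right _ _) (le_max_left _ _)) hR
    have e3 : 1729 < R := lt_of_lt_of_le (by norm_num) (le_trans (le_max_right _ _) hR)
    obtain ⟨hR0, -, ⟨D₁⟩⟩ := h₁ R e1
    obtain ⟨-, -, ⟨D₂⟩⟩ := h₂ R e2
    by_contra hno
    apply hcon
    refine ⟨D₁.F, D₁.G, D₂.F, D₂.G, D₁.conf, D₂.conf, ?_, fun σ => steklov_equiv ht hR0 D₁ D₂⟩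
    rintro ⟨e, he⟩
    exact hno (chi_of_congruent ht e3 D₁ D₂ e he)
  obtain ⟨χ, hd, hχ, h0⟩ := NC4.no_chi ht (max (max R₁ R₂) 1730)
    (fun R hR => (h₁ R (le_trans (le_trans (le_max_left _ _) (le_max_left _ _)) hR)).2.1) key
  exact NC5.chi_false ht hd hχ h0

end Pool.Agent.Helper859.Stk
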