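import Pool.Agent.Helper859.Stk.Alg
set_option linter.all false
open Metric Set Filter Topology

namespace Pool.Agent.Helper859.Stk.L01
open Pool.Agent.Helper859.Stk

theorem logJ {C : ℂ → ℂ} {C' ζ : ℂ} (hζ : ‖ζ‖ = 1) (hC : HasDerivAt C C' ζ)
    (h1 : ∀ z : ℂ, ‖z‖ < 1 → ‖C z‖ ≤ 1) (h2 : ∀ z : ℂ, ‖z‖ = 1 → ‖C z‖ = 1) :
    ζ * C' = (‖C'‖ : ℂ) * C ζ := by
  have hCζ : ‖C ζ‖ = 1 := h2 ζ hζ
  obtain ⟨P, hP⟩ : ∃ P : ℂ, P = (starRingEnd ℂ) (C ζ) * (ζ * C') := ⟨_, rfl⟩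
  -- (a)
  have him : P.im = 0 := by
    have d1 : HasDerivAt (fun θ : ℝ => ζ * Complex.exp (θ * Complex.I)) (ζ * Complex.I) 0 := by
      have h := ((Complex.ofRealCLM.hasDerivAt (x := (0:ℝ))).mul_const Complex.I).cexp.const_mul ζ
      simpa using h
    have d2 : HasDerivAt (fun θ : ℝ => C (ζ * Complex.exp (θ * Complex.I))) (C' * (ζ * Complex.I)) 0 := by
      have hC' : HasDerivAt C C' (ζ * Complex.exp (((0:ℝ):ℂ) * Complex.I)) := by simpa using hC
      exact hC'.comp (0:ℝ) d1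
    have d3 := d2.norm_sq
    have hconst : (fun θ : ℝ => ‖C (ζ * Complex.exp (θ * Complex.I))‖ ^ 2) = fun _ => (1:ℝ) := by
      funext θ
      rw [h2 _ (by rw [norm_mul, hζ, Complex.norm_exp_ofReal_mul_I, mul_one])]
      norm_num
    rw [hconst] at d3
    have d4 := d3.unique (hasDerivAt_const (0:ℝ) (1:ℝ))
    rw [Complex.inner] at d4
    have e' : C' * (ζ * Complex.I) * (starRingEnd ℂ) (C (ζ * Complex.exp (((0:ℝ):ℂ) * Complex.I)))
        = P * Complex.I := by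
      rw [hP, Complex.ofReal_zero, zero_mul, Complex.exp_zero, mul_one]; ring
    rw [e'] at d4
    simp only [Complex.mul_re, Complex.I_re, Complex.I_im] at d4
    linarith
  have hre : 0 ≤ P.re := by
    have d1 : HasDerivAt (fun ρ : ℝ => (ρ : ℂ) * ζ) ζ 1 := by
      have h := (Complex.ofRealCLM.hasDerivAt (x := (1:ℝ))).mul_const ζ
      simpa using h
    have d2 : HasDerivAt (fun ρ : ℝ => C ((ρ : ℂ) * ζ)) (C' * ζ) 1 := by
      have hC' : HasDerivAt C C' (((1:ℝ):ℂ) * ζ) := by simpa using hC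
      exact hC'.comp (1:ℝ) d1
    have d3 := d2.norm_sq
    have hslope := (hasDerivAt_iff_tendsto_slope.1 d3).mono_left
      (nhdsWithin_mono (1:ℝ) (fun x (hx : x ∈ Iio (1:ℝ)) => ne_of_lt hx))
    have hge : 0 ≤ 2 * inner ℝ (C (((1:ℝ):ℂ) * ζ)) (C' * ζ) := by
      refine ge_of_tendsto hslope ?_
      filter_upwards [Ioo_mem_nhdsLT (show (0:ℝ) < 1 by norm_num)] with ρ hρ
      rw [slope_def_field]
      have e1 : ‖C ((ρ : ℂ) * ζ)‖ ≤ 1 := by
        apply h1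
        rw [norm_mul, hζ, mul_one, Complex.norm_real, Real.norm_of_nonneg hρ.1.le]
        exact hρ.2
      have e2 : ‖C (((1:ℝ):ℂ) * ζ)‖ = 1 := by
        apply h2
        simp [hζ]
      rw [e2]
      apply div_nonneg_of_nonpos
      · have : ‖C ((ρ : ℂ) * ζ)‖ ^ 2 ≤ 1 := by
          have := norm_nonneg (C ((ρ : ℂ) * ζ)); nlinarith
        linarith
      · linarith [hρ.2]
    rw [Complex.inner] at hge
    have e' : (C' * ζ) * (starRingEnd ℂ) (C (((1:ℝ):ℂ) * ζ)) = P := by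
      rw [hP, Complex.ofReal_one, one_mul]; ring
    rw [e'] at hge
    linarith
  have hPn : P = (‖C'‖ : ℂ) := by
    have hn : ‖P‖ = ‖C'‖ := by
      rw [hP, norm_mul, norm_mul, RCLike.norm_conj, hCζ, hζ, one_mul, one_mul]
    have h3 : ‖P‖ = P.re := by
      have : P = (P.re : ℂ) := by
        apply Complex.ext <;> simp [him]
      rw [this, Complex.norm_real, Real.norm_of_nonneg hre]; simp
    rw [← hn, h3]
    apply Complex.ext <;> simp [him]
  have h4 : C ζ * (starRingEnd ℂ) (C ζ) = 1 := by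
    rw [Complex.mul_conj, Complex.normSq_eq_norm_sq, hCζ]; simp
  calc ζ * C' = (C ζ * (starRingEnd ℂ) (C ζ)) * (ζ * C') := by rw [h4, one_mul]
    _ = P * C ζ := by rw [hP]; ring
    _ = (‖C'‖ : ℂ) * C ζ := by rw [hPn]

end Pool.Agent.Helper859.Stk.L01
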