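import Pool.Agent.Helper859.Stk.Alg
set_option linter.all false
open Metric Set Filter Topology

namespace Pool.Agent.Helper859.Stk.L06
open Pool.Agent.Helper859.Stk

noncomputable def cA (t y : ℂ) : ℂ := (1 - t) / 2 * y + 3 * t
noncomputable def cB (t y : ℂ) : ℂ := -((1 + t) / 2) * y ^ 2 - 21
noncomputable def cC (t y : ℂ) : ℂ := -y ^ 3 + 3 * t * y ^ 2 + 21 * y - 7 * t

theorem hc_eval (t y x : ℂ) : (hc t y).eval x = x ^ 3 + cA t y * x ^ 2 + cB t y * x + cC t y := by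
  simp [hc, cA, cB, cC]

theorem hh_eq (t y x : ℂ) : hh t x y = x ^ 3 + cA t y * x ^ 2 + cB t y * x + cC t y := by
  simp only [hh, cA, cB, cC]
  ring

theorem exists_abc (t y : ℂ) : ∃ a b c : ℂ, (hc t y).roots = {a, b, c} ∧
    a + b + c = -cA t y ∧ a * b + b * c + c * a = cB t y ∧ a * b * c = -cC t y := by
  have hm : (hc t y).Monic := by unfold hc; monicity!
  have hdeg : (hc t y).natDegree = 3 := by unfold hc; compute_degree!
  have hs : (hc t y).Splits := IsAlgClosed.splits _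
  have hcard : (hc t y).roots.card = 3 := by
    rw [← hs.natDegree_eq_card_roots, hdeg]
  obtain ⟨a, b, c, habc⟩ := Multiset.card_eq_three.1 hcard
  have hprod := hs.eq_prod_roots_of_monic hm
  rw [habc] at hprod
  have hev : ∀ x : ℂ, x ^ 3 + cA t y * x ^ 2 + cB t y * x + cC t y = (x - a) * (x - b) * (x - c) := by
    intro x
    rw [← hc_eval, hprod]
    simp [mul_assoc]
  have e0 := hev 0
  have e1 := hev 1
  have e2 := hev (-1)
  refine ⟨a, b, c, habc, ?_, ?_, ?_⟩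
  · linear_combination (-1 : ℂ) * e0 + (1 / 2 : ℂ) * e1 + (1 / 2 : ℂ) * e2
  · linear_combination (-1 / 2 : ℂ) * e1 + (1 / 2 : ℂ) * e2
  · linear_combination (1 : ℂ) * e0

theorem roots_of (t y a b c : ℂ) (h1 : a + b + c = -cA t y) (h2 : a * b + b * c + c * a = cB t y)
    (h3 : a * b * c = -cC t y) : (hc t y).roots = {a, b, c} := by
  have hA : cA t y = -(a + b + c) := by rw [h1]; ring
  have hC : cC t y = -(a * b * c) := by rw [h3]; ring
  have hp : hc t y = (Polynomial.X - Polynomial.C a) * ((Polynomial.X - Polynomial.C b) *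
      (Polynomial.X - Polynomial.C c)) := by
    have : hc t y = Polynomial.X ^ 3 + Polynomial.C (cA t y) * Polynomial.X ^ 2
      + Polynomial.C (cB t y) * Polynomial.X + Polynomial.C (cC t y) := rfl
    rw [this, hA, ← h2, hC]
    simp only [Polynomial.C_neg, Polynomial.C_add, Polynomial.C_mul]
    ring
  have h4 := Polynomial.roots_multiset_prod_X_sub_C ({a, b, c} : Multiset ℂ)
  have h5 : (({a, b, c} : Multiset ℂ).map (fun x => Polynomial.X - Polynomial.C x)).prod =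
      (Polynomial.X - Polynomial.C a) * ((Polynomial.X - Polynomial.C b) *
      (Polynomial.X - Polynomial.C c)) := by
    simp
  rw [hp, ← h5]
  exact h4

theorem rs_eq (t y a b c : ℂ) (k : ℂ → ℂ) (h : (hc t y).roots = {a, b, c}) :
    rs t y k = k a + k b + k c := by
  unfold rs
  rw [h]
  simp [add_assoc]

theorem root_eq (t y a b c : ℂ) (h1 : a + b + c = -cA t y) (h2 : a * b + b * c + c * a = cB t y)
    (h3 : a * b * c = -cC t y) : hh t a y = 0 ∧ hh t b y = 0 ∧ hh t c y = 0 := by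
  have hA : cA t y = -(a + b + c) := by rw [h1]; ring
  have hC : cC t y = -(a * b * c) := by rw [h3]; ring
  rw [hh_eq, hh_eq, hh_eq, hA, ← h2, hC]
  refine ⟨?_, ?_, ?_⟩ <;> ring

theorem bound (t y x : ℂ) (h : hh t x y = 0) : ‖x‖ ≤ 1 + (‖cA t y‖ + ‖cB t y‖ + ‖cC t y‖) := by
  set S := ‖cA t y‖ + ‖cB t y‖ + ‖cC t y‖ with hS
  have hS0 : 0 ≤ S := by positivity
  by_contra hcon
  have hx : 1 + S < ‖x‖ := not_le.1 hcon
  rw [hh_eq] at h
  have h1 : x ^ 3 = -(cA t y * x ^ 2 + cB t y * x + cC t y) := by linear_combination h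
  have h2 : ‖x‖ ^ 3 ≤ ‖cA t y‖ * ‖x‖ ^ 2 + ‖cB t y‖ * ‖x‖ + ‖cC t y‖ := by
    rw [← norm_pow, h1, norm_neg]
    refine (norm_add_le _ _).trans (add_le_add ((norm_add_le _ _).trans (add_le_add ?_ ?_)) le_rfl)
    · rw [norm_mul, norm_pow]
    · rw [norm_mul]
  have hx1 : 1 ≤ ‖x‖ := by linarith
  have h3 : ‖cA t y‖ * ‖x‖ ^ 2 + ‖cB t y‖ * ‖x‖ + ‖cC t y‖ ≤ S * ‖x‖ ^ 2 := by
    have e1 : ‖cB t y‖ * ‖x‖ ≤ ‖cB t y‖ * ‖x‖ ^ 2 :=
      mul_le_mul_of_nonneg_left (by nlinarith) (norm_nonneg _)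
    have e2 : ‖cC t y‖ ≤ ‖cC t y‖ * ‖x‖ ^ 2 := by
      have : 1 ≤ ‖x‖ ^ 2 := by nlinarith
      nlinarith [norm_nonneg (cC t y)]
    rw [hS]
    nlinarith
  have h4 : ‖x‖ ^ 3 ≤ S * ‖x‖ ^ 2 := h2.trans h3
  have h5 : 0 < ‖x‖ ^ 2 := by positivity
  have h6 : ‖x‖ ≤ S := by
    have : ‖x‖ * ‖x‖ ^ 2 ≤ S * ‖x‖ ^ 2 := by
      calc ‖x‖ * ‖x‖ ^ 2 = ‖x‖ ^ 3 := by ring
        _ ≤ _ := h4
    exact le_of_mul_le_mul_right this h5
  linarith

theorem rs_cont {t : ℂ} {K : Set ℂ} {Y : Set ℂ} {k : ℂ → ℂ} (hk : ContinuousOn k K)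
    (hY : ∀ y ∈ Y, ∀ x, hh t x y = 0 → x ∈ K) : ContinuousOn (fun y => rs t y k) Y := by
  have cAc : Continuous (cA t) := by unfold cA; fun_prop
  have cBc : Continuous (cB t) := by unfold cB; fun_prop
  have cCc : Continuous (cC t) := by unfold cC; fun_prop
  choose a b c hr h1 h2 h3 using exists_abc t
  intro y hy
  show Tendsto (fun y => rs t y k) (𝓝[Y] y) (𝓝 (rs t y k))
  apply Filter.tendsto_of_subseq_tendsto
  intro ns hns
  have hns1 : Tendsto ns atTop (𝓝 y) := hns.mono_right nhdsWithin_le_nhds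
  have hns2 : ∀ᶠ n in atTop, ns n ∈ Y := hns.eventually self_mem_nhdsWithin
  have hSc : Continuous (fun y => 1 + (‖cA t y‖ + ‖cB t y‖ + ‖cC t y‖)) := by fun_prop
  obtain ⟨M, hM⟩ := (((hSc.tendsto y).comp hns1).bddAbove_range)
  have hM' : ∀ n, 1 + (‖cA t (ns n)‖ + ‖cB t (ns n)‖ + ‖cC t (ns n)‖) ≤ M := fun n =>
    hM ⟨n, rfl⟩
  have hbd : ∀ n, ((a (ns n), b (ns n), c (ns n)) : ℂ × ℂ × ℂ) ∈ closedBall (0 : ℂ × ℂ × ℂ) M := by
    intro n
    obtain ⟨r1, r2, r3⟩ := root_eq t (ns n) _ _ _ (h1 _) (h2 _) (h3 _)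
    rw [mem_closedBall_zero_iff]
    refine max_le ((bound t _ _ r1).trans (hM' n)) (max_le ((bound t _ _ r2).trans (hM' n))
      ((bound t _ _ r3).trans (hM' n)))
  obtain ⟨v, -, ms, hms, hv⟩ := tendsto_subseq_of_bounded (Metric.isBounded_closedBall
    (x := (0 : ℂ × ℂ × ℂ)) (r := M)) hbd
  refine ⟨ms, ?_⟩
  have hva : Tendsto (fun n => a (ns (ms n))) atTop (𝓝 v.1) :=
    (continuous_fst.tendsto v).comp hv
  have hvb : Tendsto (fun n => b (ns (ms n))) atTop (𝓝 v.2.1) :=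
    ((continuous_fst.comp continuous_snd).tendsto v).comp hv
  have hvc : Tendsto (fun n => c (ns (ms n))) atTop (𝓝 v.2.2) :=
    ((continuous_snd.comp continuous_snd).tendsto v).comp hv
  have hy2 : Tendsto (fun n => ns (ms n)) atTop (𝓝 y) := hns1.comp hms.tendsto_atTop
  have hyY : ∀ᶠ n in atTop, ns (ms n) ∈ Y := hms.tendsto_atTop.eventually hns2
  have g1 : v.1 + v.2.1 + v.2.2 = -cA t y := by
    refine tendsto_nhds_unique ((hva.add hvb).add hvc) ?_
    have : (fun n => a (ns (ms n)) + b (ns (ms n)) + c (ns (ms n))) =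
      fun n => -cA t (ns (ms n)) := by funext n; exact h1 _
    rw [this]
    exact ((cAc.tendsto y).comp hy2).neg
  have g2 : v.1 * v.2.1 + v.2.1 * v.2.2 + v.2.2 * v.1 = cB t y := by
    refine tendsto_nhds_unique (((hva.mul hvb).add (hvb.mul hvc)).add (hvc.mul hva)) ?_
    have : (fun n => a (ns (ms n)) * b (ns (ms n)) + b (ns (ms n)) * c (ns (ms n)) +
        c (ns (ms n)) * a (ns (ms n))) =
      fun n => cB t (ns (ms n)) := by funext n; exact h2 _
    rw [this]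
    exact (cBc.tendsto y).comp hy2
  have g3 : v.1 * v.2.1 * v.2.2 = -cC t y := by
    refine tendsto_nhds_unique ((hva.mul hvb).mul hvc) ?_
    have : (fun n => a (ns (ms n)) * b (ns (ms n)) * c (ns (ms n))) =
      fun n => -cC t (ns (ms n)) := by funext n; exact h3 _
    rw [this]
    exact ((cCc.tendsto y).comp hy2).neg
  have hroots := roots_of t y _ _ _ g1 g2 g3
  obtain ⟨z1, z2, z3⟩ := root_eq t y _ _ _ g1 g2 g3
  have key : ∀ (f : ℂ → ℂ) (w : ℂ), (∀ y', hh t (f y') y' = 0) → hh t w y = 0 →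
      Tendsto (fun n => f (ns (ms n))) atTop (𝓝 w) →
      Tendsto (fun n => k (f (ns (ms n)))) atTop (𝓝 (k w)) := by
    intro f w hf hw hfw
    have hwK : w ∈ K := hY y hy w hw
    have hkw : Tendsto k (𝓝[K] w) (𝓝 (k w)) := hk w hwK
    refine hkw.comp ?_
    refine tendsto_nhdsWithin_iff.2 ⟨hfw, ?_⟩
    filter_upwards [hyY] with n hn
    exact hY _ hn _ (hf _)
  have hroot : ∀ y', hh t (a y') y' = 0 ∧ hh t (b y') y' = 0 ∧ hh t (c y') y' = 0 := fun y' =>
    root_eq t y' _ _ _ (h1 _) (h2 _) (h3 _)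
  have k1 := key a v.1 (fun y' => (hroot y').1) z1 hva
  have k2 := key b v.2.1 (fun y' => (hroot y').2.1) z2 hvb
  have k3 := key c v.2.2 (fun y' => (hroot y').2.2) z3 hvc
  have hfin : (fun n => rs t (ns (ms n)) k) = fun n => k (a (ns (ms n))) + k (b (ns (ms n))) +
      k (c (ns (ms n))) := by
    funext n
    exact rs_eq t _ _ _ _ k (hr _)
  rw [hfin, rs_eq t y _ _ _ k hroots]
  exact (k1.add k2).add k3

end Pool.Agent.Helper859.Stk.L06
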