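import Pool.Agent.Helper859.Stk.Alg
set_option linter.all false
open Metric Set Filter Topology

namespace Pool.Agent.Helper859.Stk.L07
open Pool.Agent.Helper859.Stk

theorem local_inv {B : ℂ → ℂ} (hB : DifferentiableOn ℂ B (ball (0 : ℂ) (3 / 2)))
    (h1 : ∀ z ∈ sphere (0 : ℂ) 1, ‖B z‖ = 1) (ho : ∀ z ∈ ball (0 : ℂ) (3 / 2), 1 < ‖z‖ → 1 < ‖B z‖)
    {ζ w : ℂ} (hζ : ζ ∈ closedBall (0 : ℂ) 1) (hw : B ζ = w) (h' : deriv B ζ ≠ 0) :
    ∃ b : ℂ → ℂ, AnalyticAt ℂ b w ∧ b w = ζ ∧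
      ∀ᶠ v in 𝓝 w, B (b v) = v ∧ b v ∈ ball (0 : ℂ) (3 / 2) ∧ (‖v‖ < 1 → ‖b v‖ < 1) := by
  subst hw
  have hζ' : ζ ∈ ball (0 : ℂ) (3 / 2) := closedBall_subset_ball (by norm_num) hζ
  have hA : AnalyticAt ℂ B ζ := hB.analyticAt (isOpen_ball.mem_nhds hζ')
  have hbw : hA.hasStrictDerivAt.localInverse _ _ _ h' (B ζ) = ζ :=
    HasStrictFDerivAt.localInverse_apply_image ..
  have han := hA.analyticAt_localInverse h'
  refine ⟨hA.hasStrictDerivAt.localInverse _ _ _ h', han, hbw, ?_⟩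
  have e1 : ∀ᶠ v in 𝓝 (B ζ), B (hA.hasStrictDerivAt.localInverse _ _ _ h' v) = v :=
    HasStrictDerivAt.eventually_right_inverse ..
  have e2 : ∀ᶠ v in 𝓝 (B ζ), hA.hasStrictDerivAt.localInverse _ _ _ h' v ∈ ball (0 : ℂ) (3 / 2) := by
    refine han.continuousAt.eventually (isOpen_ball.mem_nhds ?_)
    rw [hbw]
    exact hζ'
  filter_upwards [e1, e2] with v hv1 hv2
  refine ⟨hv1, hv2, fun hv => ?_⟩
  by_contra hcon
  rcases (not_lt.1 hcon).eq_or_lt with h | h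
  · have := h1 _ (mem_sphere_zero_iff_norm.2 h.symm)
    rw [hv1] at this
    linarith
  · have := ho _ hv2 h
    rw [hv1] at this
    linarith

end Pool.Agent.Helper859.Stk.L07
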