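import Pool.Agent.Helper859.Stk.Alg
set_option linter.all false
open Metric Set Filter Topology

namespace Pool.Agent.Helper859.Stk.L08a
open Pool.Agent.Helper859.Stk

theorem hc_eval (t y x : ℂ) : (hc t y).eval x = hh t x y := by
  unfold hc hh
  simp only [Polynomial.eval_add, Polynomial.eval_mul, Polynomial.eval_pow, Polynomial.eval_X,
    Polynomial.eval_C]
  ring

noncomputable def qpol (t y : ℂ) : Polynomial ℂ :=
  Polynomial.X ^ 4 + Polynomial.C ((-1 + t) / 2 * y + (21 + 15 * t) / 2) * Polynomial.X ^ 3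
    + Polynomial.C (- y ^ 2 + (-21 + 3 * t) * y + (-189 + 105 * t) / 2) * Polynomial.X ^ 2
    + Polynomial.C (-(1 + t) / 2 * y ^ 3 + (-21 - 3 * t) * y ^ 2 - 105 * y + (-833 - 35 * t) / 2)
      * Polynomial.X
    + Polynomial.C (y ^ 4 + (21 - 15 * t) / 2 * y ^ 3 + (-189 - 105 * t) / 2 * y ^ 2
      + (-833 + 35 * t) / 2 * y)

theorem qpol_eval (t y x : ℂ) : (qpol t y).eval x = h4 t x y := by
  unfold qpol h4
  simp only [Polynomial.eval_add, Polynomial.eval_mul, Polynomial.eval_pow, Polynomial.eval_X,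
    Polynomial.eval_C]
  ring

theorem hc_natDegree (t y : ℂ) : (hc t y).natDegree = 3 := by
  unfold hc
  compute_degree!

theorem qpol_natDegree (t y : ℂ) : (qpol t y).natDegree = 4 := by
  unfold qpol
  compute_degree!

theorem fibre_split {t : ℂ} (ht : t ^ 2 = -7) {y : ℂ} {x : Fin 7 → ℂ} (hx : Function.Injective x)
    (h : ∀ i, pS t (x i) = pS (-t) y) :
    ∃ S : Finset (Fin 7), S.card = 3 ∧ (hc t y).roots = S.val.map x ∧
      (∀ i ∈ S, hh t (x i) y = 0 ∧ h4 t (x i) y ≠ 0) ∧
      (∀ i ∉ S, h4 t (x i) y = 0 ∧ hh t (x i) y ≠ 0) := by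
  classical
  have hc0 : hc t y ≠ 0 := by
    intro h0
    have := hc_natDegree t y
    rw [h0] at this
    simp at this
  have hq0 : qpol t y ≠ 0 := by
    intro h0
    have := qpol_natDegree t y
    rw [h0] at this
    simp at this
  have hP0 : hc t y * qpol t y ≠ 0 := mul_ne_zero hc0 hq0
  have hprod : ∀ i, hh t (x i) y * h4 t (x i) y = 0 := by
    intro i
    rw [← fac ht, h i, sub_self]
  have hnd : ((Finset.univ : Finset (Fin 7)).val.map x).Nodup :=
    (Multiset.nodup_map_iff_of_injective hx).2 Finset.univ.nodup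
  have hle : (Finset.univ : Finset (Fin 7)).val.map x ≤ (hc t y * qpol t y).roots := by
    rw [Multiset.le_iff_subset hnd]
    intro a ha
    obtain ⟨i, -, rfl⟩ := Multiset.mem_map.1 ha
    rw [Polynomial.mem_roots hP0, Polynomial.IsRoot.def, Polynomial.eval_mul, hc_eval, qpol_eval]
    exact hprod i
  have c1 : Multiset.card (hc t y).roots ≤ 3 := by
    have := Polynomial.card_roots' (hc t y)
    rwa [hc_natDegree] at this
  have c2 : Multiset.card (qpol t y).roots ≤ 4 := by
    have := Polynomial.card_roots' (qpol t y)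
    rwa [qpol_natDegree] at this
  have hrm : (hc t y * qpol t y).roots = (hc t y).roots + (qpol t y).roots :=
    Polynomial.roots_mul hP0
  have hcu : Multiset.card ((Finset.univ : Finset (Fin 7)).val.map x) = 7 := by
    simp
  have heq : (Finset.univ : Finset (Fin 7)).val.map x = (hc t y).roots + (qpol t y).roots := by
    rw [← hrm]
    apply Multiset.eq_of_le_of_card_le hle
    rw [hcu, hrm, Multiset.card_add]
    omega
  have hc3 : Multiset.card (hc t y).roots = 3 := by
    have := congrArg Multiset.card heq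
    rw [hcu, Multiset.card_add] at this
    omega
  rw [heq, Multiset.nodup_add] at hnd
  obtain ⟨n1, n2, n3⟩ := hnd
  have hS : (hc t y).roots = (Finset.univ.filter (fun i => hh t (x i) y = 0)).val.map x := by
    refine (Multiset.Nodup.ext n1 ((Multiset.nodup_map_iff_of_injective hx).2
      (Finset.nodup _))).2 ?_
    intro a
    constructor
    · intro ha
      have : a ∈ (Finset.univ : Finset (Fin 7)).val.map x := by
        rw [heq]; exact Multiset.mem_add.2 (Or.inl ha)
      obtain ⟨i, -, rfl⟩ := Multiset.mem_map.1 this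
      refine Multiset.mem_map.2 ⟨i, ?_, rfl⟩
      rw [Finset.mem_val, Finset.mem_filter]
      refine ⟨Finset.mem_univ _, ?_⟩
      rw [Polynomial.mem_roots hc0, Polynomial.IsRoot.def, hc_eval] at ha
      exact ha
    · intro ha
      obtain ⟨i, hi, rfl⟩ := Multiset.mem_map.1 ha
      rw [Finset.mem_val, Finset.mem_filter] at hi
      rw [Polynomial.mem_roots hc0, Polynomial.IsRoot.def, hc_eval]
      exact hi.2
  refine ⟨Finset.univ.filter (fun i => hh t (x i) y = 0), ?_, hS, ?_, ?_⟩
  · have := congrArg Multiset.card hS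
    rw [hc3, Multiset.card_map] at this
    exact this.symm
  · intro i hi
    have h1 : hh t (x i) y = 0 := (Finset.mem_filter.1 hi).2
    refine ⟨h1, fun h2 => ?_⟩
    have m1 : x i ∈ (hc t y).roots := by
      rw [Polynomial.mem_roots hc0, Polynomial.IsRoot.def, hc_eval]; exact h1
    have m2 : x i ∈ (qpol t y).roots := by
      rw [Polynomial.mem_roots hq0, Polynomial.IsRoot.def, qpol_eval]; exact h2
    exact Multiset.disjoint_left.1 n3 m1 m2
  · intro i hi
    have h1 : hh t (x i) y ≠ 0 := fun h0 => hi (Finset.mem_filter.2 ⟨Finset.mem_univ _, h0⟩)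
    exact ⟨(mul_eq_zero.1 (hprod i)).resolve_left h1, h1⟩

end Pool.Agent.Helper859.Stk.L08a
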