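import Pool.Agent.Helper859.Stk.Alg
set_option linter.all false
open Metric Set Filter Topology

namespace Pool.Agent.Helper859.Stk.L08b
open Pool.Agent.Helper859.Stk

theorem hh_cont {t : ℂ} {A : Set ℂ} {x y : ℂ → ℂ} (hx : ContinuousOn x A)
    (hy : ContinuousOn y A) : ContinuousOn (fun z => hh t (x z) (y z)) A := by
  unfold hh
  fun_prop

theorem h4_cont {t : ℂ} {A : Set ℂ} {x y : ℂ → ℂ} (hx : ContinuousOn x A)
    (hy : ContinuousOn y A) : ContinuousOn (fun z => h4 t (x z) (y z)) A := by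
  unfold h4
  fun_prop

theorem dich {A : Set ℂ} (hA : IsPreconnected A) {f g : ℂ → ℂ} (hf : ContinuousOn f A)
    (hg : ContinuousOn g A) (h : ∀ z ∈ A, (f z = 0 ∧ g z ≠ 0) ∨ (g z = 0 ∧ f z ≠ 0))
    {z w : ℂ} (hz : z ∈ A) (hw : w ∈ A) (hfz : f z = 0) : f w = 0 := by
  haveI : PreconnectedSpace A := isPreconnected_iff_preconnectedSpace.1 hA
  have hcl : IsClopen {u : A | f u = 0} := by
    refine ⟨?_, ?_⟩
    · exact isClosed_eq (continuousOn_iff_continuous_restrict.1 hf) continuous_const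
    · have h1 : {u : A | f u = 0} = {u : A | g u = 0}ᶜ := by
        ext u
        simp only [Set.mem_setOf_eq, Set.mem_compl_iff]
        rcases h u.1 u.2 with h' | h'
        · exact ⟨fun _ => h'.2, fun _ => h'.1⟩
        · exact ⟨fun h'' => absurd h'' h'.2, fun h'' => absurd h'.1 h''⟩
      rw [h1]
      exact (isClosed_eq (continuousOn_iff_continuous_restrict.1 hg) continuous_const).isOpen_compl
  rcases isClopen_iff.1 hcl with h1 | h1
  · have h2 : (⟨z, hz⟩ : A) ∈ {u : A | f u = 0} := hfz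
    rw [h1] at h2
    exact absurd h2 (Set.notMem_empty _)
  · have h2 : (⟨w, hw⟩ : A) ∈ {u : A | f u = 0} := by rw [h1]; exact Set.mem_univ _
    exact h2

theorem const_split {t : ℂ} {A : Set ℂ} (hA : IsPreconnected A) {x : Fin 7 → ℂ → ℂ} {y : ℂ → ℂ}
    (hxc : ∀ i, ContinuousOn (x i) A) (hyc : ContinuousOn y A)
    (hsplit : ∀ z ∈ A, ∃ S : Finset (Fin 7), S.card = 3 ∧
      (hc t (y z)).roots = S.val.map (fun i => x i z) ∧
      (∀ i ∈ S, hh t (x i z) (y z) = 0 ∧ h4 t (x i z) (y z) ≠ 0) ∧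
      (∀ i ∉ S, h4 t (x i z) (y z) = 0 ∧ hh t (x i z) (y z) ≠ 0)) :
    ∃ S : Finset (Fin 7), S.card = 3 ∧ ∀ z ∈ A, (hc t (y z)).roots = S.val.map (fun i => x i z) := by
  rcases A.eq_empty_or_nonempty with hE | ⟨z0, hz0⟩
  · refine ⟨{0, 1, 2}, by decide, ?_⟩
    intro z hz
    rw [hE] at hz
    exact absurd hz (Set.notMem_empty _)
  · obtain ⟨S0, hS0, hr0, h10, h20⟩ := hsplit z0 hz0
    refine ⟨S0, hS0, ?_⟩
    intro z hz
    obtain ⟨S, hS, hr, h1, h2⟩ := hsplit z hz
    have key : ∀ i, ∀ z ∈ A, (hh t (x i z) (y z) = 0 ∧ h4 t (x i z) (y z) ≠ 0) ∨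
        (h4 t (x i z) (y z) = 0 ∧ hh t (x i z) (y z) ≠ 0) := by
      intro i z hz
      obtain ⟨S, hS, hr, h1, h2⟩ := hsplit z hz
      by_cases hi : i ∈ S
      · exact Or.inl (h1 i hi)
      · exact Or.inr (h2 i hi)
    have hSS : S = S0 := by
      ext i
      constructor
      · intro hi
        by_contra hc
        have h3 : hh t (x i z0) (y z0) = 0 :=
          dich hA (hh_cont (hxc i) hyc) (h4_cont (hxc i) hyc) (key i) hz hz0 (h1 i hi).1
        exact (h20 i hc).2 h3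
      · intro hi
        by_contra hc
        have h3 : hh t (x i z) (y z) = 0 :=
          dich hA (hh_cont (hxc i) hyc) (h4_cont (hxc i) hyc) (key i) hz0 hz (h10 i hi).1
        exact (h2 i hc).2 h3
    rw [hr, hSS]

end Pool.Agent.Helper859.Stk.L08b
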