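import Pool.Agent.Helper859.Stk.Alg
set_option linter.all false
open Metric Set Filter Topology

namespace Pool.Agent.Helper859.Stk.L08c
open Pool.Agent.Helper859.Stk

theorem branches {t : ℂ} {R : ℝ} (hR : 0 < R)
    (D₁ : Dat (fun x => pS t x - Complex.I) R) (D₂ : Dat (fun x => pS (-t) x - Complex.I) R)
    (hloc : ∀ ζ w : ℂ, ζ ∈ closedBall (0 : ℂ) 1 → D₁.B ζ = w → deriv D₁.B ζ ≠ 0 →
      ∃ b : ℂ → ℂ, AnalyticAt ℂ b w ∧ b w = ζ ∧ ∀ᶠ v in 𝓝 w, D₁.B (b v) = v ∧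
        b v ∈ ball (0 : ℂ) (3 / 2) ∧ (‖v‖ < 1 → ‖b v‖ < 1))
    (hconst : ∀ (A : Set ℂ) (x : Fin 7 → ℂ → ℂ) (y : ℂ → ℂ), IsPreconnected A →
      (∀ i, ContinuousOn (x i) A) → ContinuousOn y A →
      (∀ z ∈ A, Function.Injective (fun i => x i z)) →
      (∀ z ∈ A, ∀ i, pS t (x i z) = pS (-t) (y z)) →
      ∃ S : Finset (Fin 7), S.card = 3 ∧ ∀ z ∈ A, (hc t (y z)).roots = S.val.map (fun i => x i z))
    {z₀ : ℂ} (hz₀ : z₀ ∈ closedBall (0 : ℂ) 1)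
    (s : Finset ℂ) (hs : s.card = 7)
    (hs' : ∀ ζ ∈ s, ζ ∈ closedBall (0 : ℂ) 1 ∧ D₁.B ζ = D₂.B z₀ ∧ deriv D₁.B ζ ≠ 0) :
    ∃ β : Fin 3 → ℂ → ℂ, (∀ i, AnalyticAt ℂ (β i) z₀ ∧ β i z₀ ∈ s) ∧
      ∀ᶠ z in 𝓝 z₀, (∀ i, D₁.B (β i z) = D₂.B z) ∧ (‖z‖ < 1 → (∀ i, ‖β i z‖ < 1) ∧
        (hc t (D₂.φ z)).roots = Finset.univ.val.map (fun i => D₁.φ (β i z))) := by
  classical
  have hz3 : z₀ ∈ ball (0 : ℂ) (3 / 2) := by
    rw [mem_closedBall_zero_iff] at hz₀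
    rw [mem_ball_zero_iff]; linarith
  let e : s ≃ Fin 7 := s.equivFinOfCardEq hs
  let ζ : Fin 7 → ℂ := fun i => (e.symm i : ℂ)
  have hζs : ∀ i, ζ i ∈ s := fun i => (e.symm i).2
  have hζinj : Function.Injective ζ := fun i j h => e.symm.injective (Subtype.ext h)
  have hall : ∀ i, ∃ b : ℂ → ℂ, AnalyticAt ℂ b (D₂.B z₀) ∧ b (D₂.B z₀) = ζ i ∧
      ∀ᶠ v in 𝓝 (D₂.B z₀), D₁.B (b v) = v ∧
        b v ∈ ball (0 : ℂ) (3 / 2) ∧ (‖v‖ < 1 → ‖b v‖ < 1) := by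
    intro i
    obtain ⟨h1, h2, h3⟩ := hs' (ζ i) (hζs i)
    exact hloc (ζ i) (D₂.B z₀) h1 h2 h3
  choose b hb1 hb2 hb3 using hall
  have hB2 : AnalyticAt ℂ D₂.B z₀ := D₂.dB.analyticAt (isOpen_ball.mem_nhds hz3)
  let bb : Fin 7 → ℂ → ℂ := fun i z => b i (D₂.B z)
  have hbb : ∀ i, AnalyticAt ℂ (bb i) z₀ := fun i => AnalyticAt.comp (hb1 i) hB2
  have hbb0 : ∀ i, bb i z₀ = ζ i := fun i => hb2 i
  have ev1 : ∀ᶠ z in 𝓝 z₀, ∀ i, D₁.B (bb i z) = D₂.B z ∧ bb i z ∈ ball (0 : ℂ) (3 / 2) ∧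
      (‖D₂.B z‖ < 1 → ‖bb i z‖ < 1) := by
    rw [Filter.eventually_all]
    intro i
    exact hB2.continuousAt.eventually (hb3 i)
  have ev2 : ∀ᶠ z in 𝓝 z₀, ∀ i j, i ≠ j → bb i z ≠ bb j z := by
    rw [Filter.eventually_all]
    intro i
    rw [Filter.eventually_all]
    intro j
    by_cases hij : i = j
    · exact Filter.Eventually.of_forall fun z h => absurd hij h
    · have h1 : bb i z₀ ≠ bb j z₀ := by
        rw [hbb0, hbb0]; exact fun h => hij (hζinj h)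
      have h2 := (hbb i).continuousAt.ne_iff_eventually_ne (hbb j).continuousAt
      filter_upwards [h2.1 h1] with z hz _ using hz
  have ev3 : ∀ᶠ z in 𝓝 z₀, ∀ i, ContinuousAt (bb i) z := by
    rw [Filter.eventually_all]
    intro i
    filter_upwards [(hbb i).eventually_analyticAt] with z hz using hz.continuousAt
  obtain ⟨r, hr, hball⟩ := Metric.eventually_nhds_iff_ball.1 (ev1.and (ev2.and ev3))
  have key : ∀ z ∈ ball z₀ r ∩ ball (0 : ℂ) 1, ‖D₂.B z‖ < 1 := by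
    intro z hz
    have h1 := D₂.pB z hz.2
    have h2 := D₂.mφ z hz.2
    rw [h1, norm_mul, Complex.norm_real, Real.norm_eq_abs, abs_of_pos hR] at h2
    by_contra hcon
    push Not at hcon
    nlinarith
  have hin : ∀ z ∈ ball z₀ r ∩ ball (0 : ℂ) 1, ∀ i, bb i z ∈ ball (0 : ℂ) 1 := by
    intro z hz i
    rw [mem_ball_zero_iff]
    exact ((hball z hz.1).1 i).2.2 (key z hz)
  obtain ⟨S, hS, hroots⟩ := hconst (ball z₀ r ∩ ball (0 : ℂ) 1) (fun i z => D₁.φ (bb i z)) D₂.φ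
    ((convex_ball z₀ r).inter (convex_ball 0 1)).isPreconnected
    (fun i => D₁.dφ.continuousOn.comp
      (fun z hz => ((hball z hz.1).2.2 i).continuousWithinAt) (fun z hz => hin z hz i))
    (D₂.dφ.continuousOn.mono inter_subset_right)
    (by
      intro z hz i j hij
      by_contra hne
      apply (hball z hz.1).2.1 i j hne
      have h1 := D₁.ψφ (bb i z) (hin z hz i)
      have h2 := D₁.ψφ (bb j z) (hin z hz j)
      rw [← h1, ← h2]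
      exact congrArg D₁.ψ hij)
    (by
      intro z hz i
      have h1 := D₁.pB (bb i z) (hin z hz i)
      have h2 := D₂.pB z hz.2
      rw [((hball z hz.1).1 i).1, ← h2] at h1
      simpa using h1)
  refine ⟨fun j => bb (S.orderEmbOfFin hS j), fun j => ⟨hbb _, ?_⟩, ?_⟩
  · simp only [hbb0]
    exact hζs _
  · filter_upwards [Metric.ball_mem_nhds z₀ hr] with z hz
    refine ⟨fun j => ((hball z hz).1 _).1, fun hz1 => ?_⟩
    have hzA : z ∈ ball z₀ r ∩ ball (0 : ℂ) 1 := ⟨hz, by rwa [mem_ball_zero_iff]⟩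
    refine ⟨fun j => ?_, ?_⟩
    · have := hin z hzA (S.orderEmbOfFin hS j)
      rwa [mem_ball_zero_iff] at this
    · rw [hroots z hzA]
      conv_lhs => rw [← S.map_orderEmbOfFin_univ hS]
      rw [Finset.map_val, Multiset.map_map]
      rfl

end Pool.Agent.Helper859.Stk.L08c
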