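import Pool.Agent.Helper859.Stk.Alg
set_option linter.all false
open Metric Set Filter Topology

namespace Pool.Agent.Helper859.Stk.L09a
open Pool.Agent.Helper859.Stk

theorem rs_eq {t : ℂ} {R : ℝ} {p₁ p₂ : ℂ → ℂ}
    (D₁ : Dat p₁ R) (D₂ : Dat p₂ R) {U : ℂ → ℂ} {β : Fin 3 → ℂ → ℂ} {z : ℂ}
    (h1 : ∀ i, ‖β i z‖ < 1)
    (h2 : (hc t (D₂.φ z)).roots = Finset.univ.val.map (fun i => D₁.φ (β i z))) :
    rs t (D₂.φ z) (fun x => U (D₁.ψ x)) = ∑ i, U (β i z) := by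
  unfold rs
  rw [h2, Multiset.map_map]
  show (Finset.univ.val.map _).sum = _
  have h3 : ((fun x => U (D₁.ψ x)) ∘ fun i => D₁.φ (β i z)) = fun i => U (β i z) := by
    funext i
    simp only [Function.comp]
    rw [D₁.ψφ _ (mem_ball_zero_iff.2 (h1 i))]
  rw [h3]
  rfl

theorem loc {t : ℂ} {R σ : ℝ} {p₁ p₂ : ℂ → ℂ}
    (D₁ : Dat p₁ R) (D₂ : Dat p₂ R) {U U' : ℂ → ℂ}
    (hU : DiscStek (fun z => ‖deriv D₁.B z‖) σ U U')
    {z₀ : ℂ} (hz₀ : z₀ ∈ closedBall (0 : ℂ) 1) {β : Fin 3 → ℂ → ℂ}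
    (hβ : ∀ i, AnalyticAt ℂ (β i) z₀ ∧ β i z₀ ∈ closedBall (0 : ℂ) 1)
    (hev : ∀ᶠ z in 𝓝 z₀, (∀ i, D₁.B (β i z) = D₂.B z) ∧ (‖z‖ < 1 → (∀ i, ‖β i z‖ < 1) ∧
        (hc t (D₂.φ z)).roots = Finset.univ.val.map (fun i => D₁.φ (β i z)))) :
    (∀ᶠ z in 𝓝[ball (0 : ℂ) 1] z₀, HasDerivAt (fun z => rs t (D₂.φ z) (fun x => U (D₁.ψ x)))
        (∑ i, U' (β i z) * deriv (β i) z) z) ∧
    Tendsto (fun z => rs t (D₂.φ z) (fun x => U (D₁.ψ x))) (𝓝[ball (0 : ℂ) 1] z₀)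
      (𝓝 (∑ i, U (β i z₀))) ∧
    Tendsto (fun z => ∑ i, U' (β i z) * deriv (β i) z) (𝓝[ball (0 : ℂ) 1] z₀)
      (𝓝 (∑ i, U' (β i z₀) * deriv (β i) z₀)) := by
  have hana : ∀ᶠ z in 𝓝 z₀, ∀ i, AnalyticAt ℂ (β i) z := by
    rw [Filter.eventually_all]
    exact fun i => (hβ i).1.eventually_analyticAt
  have hball : ∀ᶠ z in 𝓝[ball (0 : ℂ) 1] z₀, z ∈ ball (0 : ℂ) 1 := self_mem_nhdsWithin
  have hin : ∀ᶠ z in 𝓝[ball (0 : ℂ) 1] z₀, ∀ i, ‖β i z‖ < 1 := by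
    filter_upwards [hball, mem_nhdsWithin_of_mem_nhds hev] with z hz hz'
    exact (hz'.2 (mem_ball_zero_iff.1 hz)).1
  have hβt : ∀ i, Tendsto (β i) (𝓝[ball (0 : ℂ) 1] z₀) (𝓝[closedBall (0 : ℂ) 1] (β i z₀)) := by
    intro i
    rw [tendsto_nhdsWithin_iff]
    refine ⟨((hβ i).1.continuousAt.tendsto).mono_left nhdsWithin_le_nhds, ?_⟩
    filter_upwards [hin] with z hz
    exact mem_closedBall_zero_iff.2 (hz i).le
  refine ⟨?_, ?_, ?_⟩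
  · filter_upwards [hball, mem_nhdsWithin_of_mem_nhds (hev.eventually_nhds),
      mem_nhdsWithin_of_mem_nhds hana] with z hz hz1 hz2
    have e1 : (fun z => rs t (D₂.φ z) (fun x => U (D₁.ψ x))) =ᶠ[𝓝 z] fun z => ∑ i, U (β i z) := by
      have hz1' : ∀ᶠ w in 𝓝 z, _ := hz1
      filter_upwards [hz1', isOpen_ball.mem_nhds hz] with w hw hwb
      have h3 := hw.2 (mem_ball_zero_iff.1 hwb)
      exact rs_eq D₁ D₂ h3.1 h3.2
    refine HasDerivAt.congr_of_eventuallyEq ?_ e1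
    refine HasDerivAt.fun_sum fun i _ => ?_
    have h4 : β i z ∈ ball (0 : ℂ) 1 := by
      have hz1' : ∀ᶠ w in 𝓝 z, _ := hz1
      exact mem_ball_zero_iff.2 ((hz1'.self_of_nhds.2 (mem_ball_zero_iff.1 hz)).1 i)
    exact HasDerivAt.comp z (hU.dU _ h4) (hz2 i).differentiableAt.hasDerivAt
  · have e1 : (fun z => ∑ i, U (β i z)) =ᶠ[𝓝[ball (0 : ℂ) 1] z₀]
        (fun z => rs t (D₂.φ z) (fun x => U (D₁.ψ x))) := by
      filter_upwards [hball, mem_nhdsWithin_of_mem_nhds hev] with z hz hz'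
      have h3 := hz'.2 (mem_ball_zero_iff.1 hz)
      exact (rs_eq D₁ D₂ h3.1 h3.2).symm
    refine Tendsto.congr' e1 ?_
    refine tendsto_finsetSum _ fun i _ => ?_
    exact (hU.cU _ (hβ i).2).tendsto.comp (hβt i)
  · refine tendsto_finsetSum _ fun i _ => ?_
    refine Tendsto.mul ((hU.cU' _ (hβ i).2).tendsto.comp (hβt i)) ?_
    exact ((hβ i).1.deriv.continuousAt.tendsto).mono_left nhdsWithin_le_nhds

end Pool.Agent.Helper859.Stk.L09a
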