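import Pool.Agent.Helper859.Stk.Alg
set_option linter.all false
open Metric Set Filter Topology

namespace Pool.Agent.Helper859.Stk.L09b
open Pool.Agent.Helper859.Stk


private lemma dat_le {R : ℝ} {p : ℂ → ℂ} (hR : 0 < R) (D : Dat p R) (z : ℂ) (hz : ‖z‖ < 1) :
    ‖D.B z‖ ≤ 1 := by
  have h1 := D.mφ z (by simpa using hz)
  rw [D.pB z (by simpa using hz), norm_mul, Complex.norm_real, Real.norm_eq_abs, abs_of_pos hR] at h1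
  have : R * ‖D.B z‖ < R * 1 := by simpa using h1
  exact (lt_of_mul_lt_mul_left this hR.le).le

private lemma dat_diff {R : ℝ} {p : ℂ → ℂ} (D : Dat p R) {z : ℂ} (hz : ‖z‖ = 1) :
    HasDerivAt D.B (deriv D.B z) z := by
  have : DifferentiableAt ℂ D.B z :=
    D.dB.differentiableAt (Metric.isOpen_ball.mem_nhds (by simp [hz]; norm_num))
  exact this.hasDerivAt

private lemma one {R σ : ℝ} {p₁ p₂ : ℂ → ℂ} (hR : 0 < R) (D₁ : Dat p₁ R) (D₂ : Dat p₂ R) {U U' : ℂ → ℂ}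
    (hU : DiscStek (fun z => ‖deriv D₁.B z‖) σ U U')
    (hlog : ∀ (C : ℂ → ℂ) (C' ζ : ℂ), ‖ζ‖ = 1 → HasDerivAt C C' ζ → (∀ z : ℂ, ‖z‖ < 1 → ‖C z‖ ≤ 1) →
      (∀ z : ℂ, ‖z‖ = 1 → ‖C z‖ = 1) → ζ * C' = (‖C'‖ : ℂ) * C ζ)
    {z₀ : ℂ} (hz₀ : ‖z₀‖ = 1) {β : ℂ → ℂ}
    (hβ : AnalyticAt ℂ β z₀) (hb : ‖β z₀‖ = 1)
    (hev : ∀ᶠ z in 𝓝 z₀, D₁.B (β z) = D₂.B z) :
    (z₀ * (U' (β z₀) * deriv β z₀)).re = σ * ‖deriv D₂.B z₀‖ * (U (β z₀)).re := by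
  have h0 : D₁.B (β z₀) = D₂.B z₀ := hev.self_of_nhds
  have e2 := hlog D₂.B _ z₀ hz₀ (dat_diff D₂ hz₀) (dat_le hR D₂)
    (fun z hz => D₂.B1 z (by simpa using hz))
  have e1 := hlog D₁.B _ (β z₀) hb (dat_diff D₁ hb) (dat_le hR D₁)
    (fun z hz => D₁.B1 z (by simpa using hz))
  have hd : HasDerivAt (fun z => D₁.B (β z)) (deriv D₁.B (β z₀) * deriv β z₀) z₀ :=
    (dat_diff D₁ hb).comp z₀ hβ.differentiableAt.hasDerivAt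
  have hd2 : HasDerivAt (fun z => D₁.B (β z)) (deriv D₂.B z₀) z₀ :=
    (dat_diff D₂ hz₀).congr_of_eventuallyEq hev
  have e3 : deriv D₁.B (β z₀) * deriv β z₀ = deriv D₂.B z₀ := hd.unique hd2
  have n1 : deriv D₁.B (β z₀) ≠ 0 := D₁.B'0 _ (by simpa using hb)
  have nB : D₂.B z₀ ≠ 0 := by
    intro h
    have := D₂.B1 z₀ (by simpa using hz₀)
    rw [h] at this; simp at this
  have nn1 : (‖deriv D₁.B (β z₀)‖ : ℂ) ≠ 0 := by exact_mod_cast norm_ne_zero_iff.2 n1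
  -- z₀ β' |B1'| = b |B2'|
  have key : z₀ * deriv β z₀ * (‖deriv D₁.B (β z₀)‖ : ℂ) = β z₀ * (‖deriv D₂.B z₀‖ : ℂ) := by
    have : D₂.B z₀ * (z₀ * deriv β z₀ * (‖deriv D₁.B (β z₀)‖ : ℂ)) =
        D₂.B z₀ * (β z₀ * (‖deriv D₂.B z₀‖ : ℂ)) := by
      calc D₂.B z₀ * (z₀ * deriv β z₀ * (‖deriv D₁.B (β z₀)‖ : ℂ))
          = z₀ * deriv β z₀ * ((‖deriv D₁.B (β z₀)‖ : ℂ) * D₁.B (β z₀)) := by rw [h0]; ring
        _ = z₀ * deriv β z₀ * (β z₀ * deriv D₁.B (β z₀)) := by rw [e1]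
        _ = β z₀ * (z₀ * (deriv D₁.B (β z₀) * deriv β z₀)) := by ring
        _ = β z₀ * (z₀ * deriv D₂.B z₀) := by rw [e3]
        _ = β z₀ * ((‖deriv D₂.B z₀‖ : ℂ) * D₂.B z₀) := by rw [e2]
        _ = _ := by ring
    exact mul_left_cancel₀ nB this
  have hbd := hU.bd (β z₀) (by simpa using hb)
  have nr : ‖deriv D₁.B (β z₀)‖ ≠ 0 := norm_ne_zero_iff.2 n1
  have : (z₀ * (U' (β z₀) * deriv β z₀)) * (‖deriv D₁.B (β z₀)‖ : ℂ) =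
      (‖deriv D₂.B z₀‖ : ℂ) * (β z₀ * U' (β z₀)) := by
    calc (z₀ * (U' (β z₀) * deriv β z₀)) * (‖deriv D₁.B (β z₀)‖ : ℂ)
        = U' (β z₀) * (z₀ * deriv β z₀ * (‖deriv D₁.B (β z₀)‖ : ℂ)) := by ring
      _ = U' (β z₀) * (β z₀ * (‖deriv D₂.B z₀‖ : ℂ)) := by rw [key]
      _ = _ := by ring
  have hre := congrArg Complex.re this
  rw [Complex.re_mul_ofReal, Complex.re_ofReal_mul, hbd] at hre
  apply mul_right_cancel₀ nr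
  rw [hre]; ring

theorem bdry {R σ : ℝ} {p₁ p₂ : ℂ → ℂ} (hR : 0 < R) (D₁ : Dat p₁ R) (D₂ : Dat p₂ R) {U U' : ℂ → ℂ}
    (hU : DiscStek (fun z => ‖deriv D₁.B z‖) σ U U')
    (hlog : ∀ (C : ℂ → ℂ) (C' ζ : ℂ), ‖ζ‖ = 1 → HasDerivAt C C' ζ → (∀ z : ℂ, ‖z‖ < 1 → ‖C z‖ ≤ 1) →
      (∀ z : ℂ, ‖z‖ = 1 → ‖C z‖ = 1) → ζ * C' = (‖C'‖ : ℂ) * C ζ)
    {z₀ : ℂ} (hz₀ : ‖z₀‖ = 1) {β : Fin 3 → ℂ → ℂ}
    (hβ : ∀ i, AnalyticAt ℂ (β i) z₀ ∧ ‖β i z₀‖ = 1)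
    (hev : ∀ᶠ z in 𝓝 z₀, ∀ i, D₁.B (β i z) = D₂.B z) :
    (z₀ * ∑ i, U' (β i z₀) * deriv (β i) z₀).re = σ * ‖deriv D₂.B z₀‖ * (∑ i, U (β i z₀)).re := by
  have h := fun i => one hR D₁ D₂ hU hlog hz₀ (hβ i).1 (hβ i).2 (hev.mono fun z hz => hz i)
  rw [Finset.mul_sum, Complex.re_sum, Complex.re_sum, Finset.mul_sum]
  exact Finset.sum_congr rfl fun i _ => h i

end Pool.Agent.Helper859.Stk.L09b
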