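import Pool.Agent.Helper859.Stk.Alg
set_option linter.all false
open Metric Set Filter Topology

namespace Pool.Agent.Helper859.Stk.L09c
open Pool.Agent.Helper859.Stk

theorem holo_of_finite {V : ℂ → ℂ} (hc : ContinuousOn V (ball (0 : ℂ) 1)) (E : Set ℂ) (hE : E.Finite)
    (h : ∀ z ∈ ball (0 : ℂ) 1, z ∉ E → DifferentiableAt ℂ V z) :
    DifferentiableOn ℂ V (ball (0 : ℂ) 1) := by
  intro z hz
  have ho : IsOpen (ball (0 : ℂ) 1 \ (E \ {z})) :=
    isOpen_ball.sdiff (hE.subset sdiff_subset).isClosed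
  have hzs : z ∈ ball (0 : ℂ) 1 \ (E \ {z}) := ⟨hz, fun h => h.2 rfl⟩
  have hs := ho.mem_nhds hzs
  have hd := (Complex.differentiableOn_compl_singleton_and_continuousAt_iff hs).1
    ⟨fun w hw => (h w hw.1.1 (fun hwE => hw.1.2 ⟨hwE, hw.2⟩)).differentiableWithinAt,
      hc.continuousAt (isOpen_ball.mem_nhds hz)⟩
  exact (hd.differentiableAt hs).differentiableWithinAt

end Pool.Agent.Helper859.Stk.L09c
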