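import Pool.Agent.Helper859.Stk.Alg
set_option linter.all false
open Metric Set Filter Topology

namespace Pool.Agent.Helper859.Stk.L09d
open Pool.Agent.Helper859.Stk

theorem assemble {W : ℂ → ℝ} {σ : ℝ} {V : ℂ → ℂ} (hV : DifferentiableOn ℂ V (ball (0 : ℂ) 1))
    (hb : ∀ z₀ : ℂ, ‖z₀‖ = 1 → ∃ a a' : ℂ, Tendsto V (𝓝[ball (0 : ℂ) 1] z₀) (𝓝 a) ∧
      Tendsto (deriv V) (𝓝[ball (0 : ℂ) 1] z₀) (𝓝 a') ∧ (z₀ * a').re = σ * W z₀ * a.re) :
    ∃ V₁ V₁' : ℂ → ℂ, DiscStek W σ V₁ V₁' ∧ ∀ z ∈ ball (0 : ℂ) 1, V₁ z = V z := by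
  have hcl : closure (ball (0 : ℂ) 1) = closedBall 0 1 := closure_ball 0 one_ne_zero
  have hV' : DifferentiableOn ℂ (deriv V) (ball (0 : ℂ) 1) := hV.deriv isOpen_ball
  have key : ∀ f : ℂ → ℂ, ContinuousOn f (ball (0 : ℂ) 1) →
      (∀ z₀ : ℂ, ‖z₀‖ = 1 → ∃ a : ℂ, Tendsto f (𝓝[ball (0 : ℂ) 1] z₀) (𝓝 a)) →
      ContinuousOn (extendFrom (ball (0 : ℂ) 1) f) (closedBall (0 : ℂ) 1) ∧
      (∀ z ∈ ball (0 : ℂ) 1, extendFrom (ball (0 : ℂ) 1) f z = f z) := by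
    intro f hf hlim
    have hin : ∀ z ∈ ball (0 : ℂ) 1, Tendsto f (𝓝[ball (0 : ℂ) 1] z) (𝓝 (f z)) := fun z hz => hf z hz
    constructor
    · refine continuousOn_extendFrom hcl.ge ?_
      intro z hz
      rw [mem_closedBall_zero_iff] at hz
      rcases hz.lt_or_eq with h | h
      · exact ⟨f z, hin z (mem_ball_zero_iff.2 h)⟩
      · exact hlim z h
    · intro z hz
      exact extendFrom_eq (subset_closure hz) (hin z hz)
  obtain ⟨c1, e1⟩ := key V hV.continuousOn (fun z₀ h => by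
    obtain ⟨a, a', h1, h2, h3⟩ := hb z₀ h
    exact ⟨a, h1⟩)
  obtain ⟨c2, e2⟩ := key (deriv V) hV'.continuousOn (fun z₀ h => by
    obtain ⟨a, a', h1, h2, h3⟩ := hb z₀ h
    exact ⟨a', h2⟩)
  refine ⟨extendFrom (ball (0 : ℂ) 1) V, extendFrom (ball (0 : ℂ) 1) (deriv V),
    ⟨?_, c1, c2, ?_⟩, e1⟩
  · intro z hz
    rw [e2 z hz]
    have h1 : HasDerivAt V (deriv V z) z :=
      (hV.differentiableAt (isOpen_ball.mem_nhds hz)).hasDerivAt
    refine h1.congr_of_eventuallyEq ?_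
    filter_upwards [isOpen_ball.mem_nhds hz] with w hw
    exact e1 w hw
  · intro z hz
    rw [mem_sphere_zero_iff_norm] at hz
    obtain ⟨a, a', h1, h2, h3⟩ := hb z hz
    have hzc : z ∈ closure (ball (0 : ℂ) 1) := by
      rw [hcl, mem_closedBall_zero_iff]
      exact hz.le
    rw [extendFrom_eq hzc h1, extendFrom_eq hzc h2]
    exact h3

end Pool.Agent.Helper859.Stk.L09d
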