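import Pool.Agent.Helper859.Stk.Alg
set_option linter.all false
open Metric Set Filter Topology

namespace Pool.Agent.Helper859.Stk.L09f
open Pool.Agent.Helper859.Stk

--ALG
theorem reg_fibre {t : ℂ} {R : ℝ} (hR : 0 < R) (D : Dat (fun x => pS t x - Complex.I) R)
    (ht : t ^ 2 = -7) {w : ℂ} (hw : ‖w‖ < 1)
    (h0 : (R : ℂ) * w + Complex.I ≠ 0) (h1 : (R : ℂ) * w + Complex.I ≠ 1728)
    (hfib : ∀ v : ℂ, v ≠ 0 → v ≠ 1728 → ∃ s : Finset ℂ, s.card = 7 ∧ ∀ x, x ∈ s ↔ pS t x = v) :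
    ∃ s : Finset ℂ, s.card = 7 ∧ ∀ ζ ∈ s, ζ ∈ closedBall (0 : ℂ) 1 ∧ D.B ζ = w ∧ deriv D.B ζ ≠ 0 := by
  classical
  obtain ⟨s, hs7, hs⟩ := hfib _ h0 h1
  have hR' : (R : ℂ) ≠ 0 := by exact_mod_cast hR.ne'
  have hval : ∀ x ∈ s, pS t x - Complex.I = R * w := by
    intro x hx
    rw [(hs x).1 hx]
    ring
  have hnorm : ∀ x ∈ s, ‖pS t x - Complex.I‖ < R := by
    intro x hx
    rw [hval x hx, norm_mul, Complex.norm_real, Real.norm_of_nonneg hR.le]
    nlinarith
  have hcont : Continuous (pS t) :=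
    continuous_iff_continuousAt.2 fun x => (pS_deriv t x).continuousAt
  have hopen : IsOpen {x | ‖pS t x - Complex.I‖ < R} :=
    isOpen_lt ((hcont.sub continuous_const).norm) continuous_const
  refine ⟨s.image D.ψ, ?_, ?_⟩
  · rw [Finset.card_image_of_injOn, hs7]
    intro x hx y hy hxy
    have h2 := D.φψ x (hnorm x hx)
    have h3 := D.φψ y (hnorm y hy)
    rw [← h2, ← h3, hxy]
  · intro ζ hζ
    obtain ⟨x, hx, rfl⟩ := Finset.mem_image.1 hζ
    have hb : D.ψ x ∈ ball (0 : ℂ) 1 := D.mψ x (hnorm x hx)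
    have hφx : D.φ (D.ψ x) = x := D.φψ x (hnorm x hx)
    have hpB := D.pB _ hb
    simp only [hφx] at hpB
    have hBw : D.B (D.ψ x) = w := by
      rw [hval x hx] at hpB
      exact (mul_left_cancel₀ hR' hpB).symm
    refine ⟨ball_subset_closedBall hb, hBw, fun hB0 => ?_⟩
    have hb' : ball (0 : ℂ) 1 ∈ 𝓝 (D.ψ x) := isOpen_ball.mem_nhds hb
    have hB : HasDerivAt D.B 0 (D.ψ x) := by
      have h2 : D.ψ x ∈ ball (0 : ℂ) (3 / 2) := by
        rw [mem_ball] at hb ⊢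
        linarith
      have h3 := (D.dB.differentiableAt (isOpen_ball.mem_nhds h2)).hasDerivAt
      rwa [hB0] at h3
    have hφ : HasDerivAt D.φ (deriv D.φ (D.ψ x)) (D.ψ x) :=
      (D.dφ.differentiableAt hb').hasDerivAt
    have hψ : HasDerivAt D.ψ (deriv D.ψ x) x :=
      (D.dψ.differentiableAt (hopen.mem_nhds (hnorm x hx))).hasDerivAt
    -- the derivative of the conformal map does not vanish
    have hψφ : deriv D.ψ x * deriv D.φ (D.ψ x) = 1 := by
      have hψ' : HasDerivAt D.ψ (deriv D.ψ x) (D.φ (D.ψ x)) := by rw [hφx]; exact hψ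
      have h4 : HasDerivAt (fun z => D.ψ (D.φ z)) (deriv D.ψ x * deriv D.φ (D.ψ x)) (D.ψ x) :=
        hψ'.comp (D.ψ x) hφ
      have h5 : HasDerivAt (fun z : ℂ => z) (deriv D.ψ x * deriv D.φ (D.ψ x)) (D.ψ x) := by
        refine h4.congr_of_eventuallyEq ?_
        filter_upwards [hb'] with z hz
        exact (D.ψφ z hz).symm
      exact h5.unique (hasDerivAt_id _)
    have hφ0 : deriv D.φ (D.ψ x) ≠ 0 := fun h => by
      rw [h, mul_zero] at hψφ
      exact zero_ne_one hψφ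
    have hpS : HasDerivAt (pS t) (7 * qq t x ^ 2 * rr t x) (D.φ (D.ψ x)) := by
      rw [hφx]; exact pS_deriv t x
    have h6 : HasDerivAt (fun z => pS t (D.φ z) - Complex.I)
        (7 * qq t x ^ 2 * rr t x * deriv D.φ (D.ψ x)) (D.ψ x) :=
      (hpS.comp (D.ψ x) hφ).sub_const _
    have h7 : HasDerivAt (fun z => (R : ℂ) * D.B z)
        (7 * qq t x ^ 2 * rr t x * deriv D.φ (D.ψ x)) (D.ψ x) := by
      refine h6.congr_of_eventuallyEq ?_
      filter_upwards [hb'] with z hz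
      exact (D.pB z hz).symm
    have h8 := h7.unique (hB.const_mul (R : ℂ))
    rw [mul_zero] at h8
    have h9 : 7 * qq t x ^ 2 * rr t x = 0 := (mul_eq_zero.1 h8).resolve_right hφ0
    have hv := (hs x).1 hx
    rcases crit ht h9 with h | h
    · exact h0 (by rw [← hv, h])
    · exact h1 (by rw [← hv, h])

end Pool.Agent.Helper859.Stk.L09f
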