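import Pool.Agent.Helper859.Stk.Alg
set_option linter.all false
open Metric Set Filter Topology

namespace Pool.Agent.Helper859.Stk.L11
open Pool.Agent.Helper859.Stk

theorem hc_eval (t x y : ℂ) : (hc t y).eval x = hh t x y := by
  unfold hc hh
  simp only [Polynomial.eval_add, Polynomial.eval_mul, Polynomial.eval_pow, Polynomial.eval_X,
    Polynomial.eval_C]
  ring

theorem mem_roots_hh {t x y : ℂ} (h : x ∈ (hc t y).roots) : hh t x y = 0 := by
  rw [← hc_eval]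
  exact Polynomial.isRoot_of_mem_roots h

theorem rs_congr {E : Type*} [AddCommMonoid E] (t y : ℂ) (k k' : ℂ → E)
    (h : ∀ x ∈ (hc t y).roots, k x = k' x) : rs t y k = rs t y k' := by
  unfold rs
  rw [Multiset.map_congr rfl h]

theorem re_rs (t y : ℂ) (k : ℂ → ℂ) : (rs t y k).re = rs t y (fun x => (k x).re) := by
  unfold rs
  generalize (hc t y).roots = m
  induction m using Multiset.induction_on with
  | empty => simp
  | cons a m ih => simp [ih]

theorem cast_rs (t y : ℂ) (k : ℂ → ℝ) : ((rs t y k : ℝ) : ℂ) = rs t y (fun x => ((k x : ℝ) : ℂ)) := by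
  unfold rs
  generalize (hc t y).roots = m
  induction m using Multiset.induction_on with
  | empty => simp
  | cons a m ih => simp [ih]

theorem rs_add (t y : ℂ) (k k' : ℂ → ℝ) : rs t y (fun x => k x + k' x) = rs t y k + rs t y k' := by
  unfold rs
  exact Multiset.sum_map_add

theorem rs_smul (t y : ℂ) (c : ℝ) (k : ℂ → ℝ) : rs t y (fun x => c * k x) = c * rs t y k := by
  unfold rs
  exact Multiset.sum_map_mul_left

theorem pS_fin (t c : ℂ) : {x | pS t x = c}.Finite := by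
  let P : Polynomial ℂ := Polynomial.X * (Polynomial.X ^ 2
    + Polynomial.C (7 * ((1 + t) / 2)) * Polynomial.X
    + Polynomial.C (7 * ((1 + t) / 2 - 3))) ^ 3 - Polynomial.C c
  have hP : P ≠ 0 := by
    intro h0
    have hq : (Polynomial.X ^ 2 + Polynomial.C (7 * ((1 + t) / 2)) * Polynomial.X
        + Polynomial.C (7 * ((1 + t) / 2 - 3)) : Polynomial ℂ).natDegree = 2 := by
      compute_degree!
    have hm : (Polynomial.X ^ 2 + Polynomial.C (7 * ((1 + t) / 2)) * Polynomial.X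
        + Polynomial.C (7 * ((1 + t) / 2 - 3)) : Polynomial ℂ) ≠ 0 := by
      intro h; rw [h] at hq; simp at hq
    have h1 : Polynomial.X * (Polynomial.X ^ 2
      + Polynomial.C (7 * ((1 + t) / 2)) * Polynomial.X
      + Polynomial.C (7 * ((1 + t) / 2 - 3))) ^ 3 = Polynomial.C c := sub_eq_zero.1 h0
    have h2 := congrArg Polynomial.natDegree h1
    rw [Polynomial.natDegree_mul Polynomial.X_ne_zero (pow_ne_zero _ hm), Polynomial.natDegree_pow,
      hq, Polynomial.natDegree_X, Polynomial.natDegree_C] at h2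
    omega
  have hfin : {x | P.IsRoot x}.Finite := Polynomial.finite_setOf_isRoot hP
  refine hfin.subset ?_
  intro x hx
  have hx' : pS t x = c := hx
  show P.eval x = 0
  simp only [P, Polynomial.eval_sub, Polynomial.eval_mul, Polynomial.eval_pow, Polynomial.eval_add,
    Polynomial.eval_X, Polynomial.eval_C]
  rw [← hx']
  unfold pS
  ring

theorem exists_injection {t : ℂ} {R σ : ℝ} (hR : 0 < R)
    (D₁ : Dat (fun x => pS t x - Complex.I) R) (D₂ : Dat (fun x => pS (-t) x - Complex.I) R)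
    (htoDisc : ∀ u, IsSteklov (D₁.F '' ball (0 : ℂ) 1) σ u →
      ∃ U U' : ℂ → ℂ, DiscStek (fun z => ‖D₁.G z‖) σ U U' ∧ ∀ z ∈ ball (0 : ℂ) 1, u (D₁.F z) = (U z).re)
    (htr : ∀ U U' : ℂ → ℂ, DiscStek (fun z => ‖deriv D₁.B z‖) σ U U' →
      ∃ V V' : ℂ → ℂ, DiscStek (fun z => ‖deriv D₂.B z‖) σ V V' ∧
        ∀ z ∈ ball (0 : ℂ) 1, V z = rs t (D₂.φ z) (fun x => U (D₁.ψ x)))
    (hofDisc : ∀ V V' : ℂ → ℂ, DiscStek (fun z => ‖D₂.G z‖) σ V V' →
      ∃ u : ℂ → ℝ, IsSteklov (D₂.F '' ball (0 : ℂ) 1) σ u ∧ ∀ z ∈ ball (0 : ℂ) 1, u (D₂.F z) = (V z).re)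
    (hroot : ∀ x y, hh t x y = 0 → pS t x = pS (-t) y)
    (hinj : ∀ v : ℂ, v ≠ 0 → v ≠ 1728 → ∀ a : ℂ → ℂ, (∀ y, pS (-t) y = v → rs t y a = 0) →
      ∀ x, pS t x = v → a x = 0) :
    ∃ T : steklovSpace (D₁.F '' ball (0 : ℂ) 1) σ →ₗ[ℝ] steklovSpace (D₂.F '' ball (0 : ℂ) 1) σ,
      Function.Injective T := by
  classical
  obtain ⟨J, hJ⟩ : ∃ J : ℂ → ℂ, ∀ z ∈ ball (0 : ℂ) 1, J (D₂.F z) = z := by
    refine ⟨Function.invFunOn D₂.F (ball 0 1), fun z hz => ?_⟩
    have hinj2 : InjOn D₂.F (ball (0 : ℂ) 1) :=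
      D₂.conf.iF.mono (ball_subset_ball (by norm_num))
    exact hinj2.leftInvOn_invFunOn hz
  let T0 : (ℂ → ℝ) →ₗ[ℝ] (ℂ → ℝ) :=
    { toFun := fun u w => if w ∈ D₂.F '' ball (0 : ℂ) 1 then
        rs t (D₂.φ (J w)) (fun x => u (D₁.F (D₁.ψ x))) else 0
      map_add' := by
        intro u v
        funext w
        by_cases hw : w ∈ D₂.F '' ball (0 : ℂ) 1
        · simp only [hw, if_true, Pi.add_apply]
          exact rs_add t _ _ _
        · simp only [hw, if_false, Pi.add_apply, add_zero]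
      map_smul' := by
        intro c u
        funext w
        by_cases hw : w ∈ D₂.F '' ball (0 : ℂ) 1
        · simp only [hw, if_true, Pi.smul_apply, smul_eq_mul, RingHom.id_apply]
          exact rs_smul t _ _ _
        · simp only [hw, if_false, Pi.smul_apply, smul_eq_mul, mul_zero, RingHom.id_apply] }
  have hT0 : ∀ u, ∀ z ∈ ball (0 : ℂ) 1, T0 u (D₂.F z)
      = rs t (D₂.φ z) (fun x => u (D₁.F (D₁.ψ x))) := by
    intro u z hz
    show (if D₂.F z ∈ D₂.F '' ball (0 : ℂ) 1 then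
        rs t (D₂.φ (J (D₂.F z))) (fun x => u (D₁.F (D₁.ψ x))) else 0) = _
    rw [if_pos (mem_image_of_mem _ hz), hJ z hz]
  have hT0' : ∀ u, ∀ w, w ∉ D₂.F '' ball (0 : ℂ) 1 → T0 u w = 0 := by
    intro u w hw
    exact if_neg hw
  have hmap : ∀ u ∈ steklovSpace (D₁.F '' ball (0 : ℂ) 1) σ,
      T0 u ∈ steklovSpace (D₂.F '' ball (0 : ℂ) 1) σ := by
    intro u hu
    obtain ⟨U, U', hU, huU⟩ := htoDisc u hu
    obtain ⟨V, V', hV, hVU⟩ := htr U U' ⟨hU.dU, hU.cU, hU.cU', fun z hz => by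
      show (z * U' z).re = σ * ‖deriv D₁.B z‖ * (U z).re
      rw [← D₁.GB z hz]
      exact hU.bd z hz⟩
    obtain ⟨u', hu', hu'V⟩ := hofDisc V V' ⟨hV.dU, hV.cU, hV.cU', fun z hz => by
      show (z * V' z).re = σ * ‖D₂.G z‖ * (V z).re
      rw [D₂.GB z hz]
      exact hV.bd z hz⟩
    have : T0 u = u' := by
      funext w
      by_cases hw : w ∈ D₂.F '' ball (0 : ℂ) 1
      · obtain ⟨z, hz, rfl⟩ := hw
        rw [hT0 u z hz, hu'V z hz, hVU z hz, re_rs]
        apply rs_congr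
        intro x hx
        have h1 : pS t x = pS (-t) (D₂.φ z) := hroot x _ (mem_roots_hh hx)
        have h2 : ‖pS t x - Complex.I‖ < R := by
          rw [h1]; exact D₂.mφ z hz
        exact huU _ (D₁.mψ x h2)
      · rw [hT0' u w hw, hu'.off w hw]
    rw [this]
    exact hu'
  refine ⟨T0.restrict hmap, ?_⟩
  rw [injective_iff_map_eq_zero]
  rintro ⟨u, hu⟩ h0
  have h0' : T0 u = 0 := congrArg Subtype.val h0
  apply Subtype.ext
  show u = 0
  obtain ⟨U, U', hU, huU⟩ := htoDisc u hu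
  have hy : ∀ y, ‖pS (-t) y - Complex.I‖ < R →
      rs t y (fun x => ((u (D₁.F (D₁.ψ x)) : ℝ) : ℂ)) = 0 := by
    intro y hy
    have hz := D₂.mψ y hy
    have h1 := hT0 u _ hz
    rw [h0', D₂.φψ y hy] at h1
    rw [← cast_rs, ← h1]
    simp
  have hx : ∀ z ∈ ball (0 : ℂ) 1, pS t (D₁.φ z) ≠ 0 → pS t (D₁.φ z) ≠ 1728 → (U z).re = 0 := by
    intro z hz h1 h2
    have h3 := hinj (pS t (D₁.φ z)) h1 h2 (fun x => ((u (D₁.F (D₁.ψ x)) : ℝ) : ℂ)) (by
      intro y hyv
      apply hy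
      rw [hyv]
      exact D₁.mφ z hz) (D₁.φ z) rfl
    simp only [D₁.ψφ z hz] at h3
    rw [← huU z hz]
    exact_mod_cast h3
  have hfin : {z | z ∈ ball (0 : ℂ) 1 ∧ (pS t (D₁.φ z) = 0 ∨ pS t (D₁.φ z) = 1728)}.Finite := by
    have hS : ({x | pS t x = 0} ∪ {x | pS t x = 1728}).Finite := (pS_fin t 0).union (pS_fin t 1728)
    have hi : InjOn D₁.φ (ball (0 : ℂ) 1) := by
      intro a ha b hb hab
      rw [← D₁.ψφ a ha, ← D₁.ψφ b hb, hab]
    have : ((ball (0 : ℂ) 1) ∩ D₁.φ ⁻¹' ({x | pS t x = 0} ∪ {x | pS t x = 1728})).Finite :=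
      Set.Finite.of_finite_image (hS.subset (by
        rintro _ ⟨z, hz, rfl⟩
        exact hz.2)) (hi.mono inter_subset_left)
    exact this.subset fun z hz => ⟨hz.1, hz.2⟩
  have hzero : ∀ z ∈ ball (0 : ℂ) 1, (U z).re = 0 := by
    intro z hz
    by_contra hne
    have hc : ContinuousOn (fun z => (U z).re) (ball (0 : ℂ) 1) :=
      Complex.continuous_re.comp_continuousOn (hU.cU.mono ball_subset_closedBall)
    have hopen : IsOpen (ball (0 : ℂ) 1 ∩ (fun z => (U z).re) ⁻¹' {r : ℝ | r ≠ 0}) :=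
      hc.isOpen_inter_preimage isOpen_ball isOpen_ne
    obtain ⟨z', ⟨hz', hne'⟩, hnot⟩ :=
      (hfin.countable.dense_compl ℝ).inter_open_nonempty _ hopen ⟨z, hz, hne⟩
    apply hnot
    refine ⟨hz', ?_⟩
    by_contra hcon
    push Not at hcon
    exact hne' (hx z' hz' hcon.1 hcon.2)
  funext w
  by_cases hw : w ∈ D₁.F '' ball (0 : ℂ) 1
  · obtain ⟨z, hz, rfl⟩ := hw
    rw [huU z hz, hzero z hz]
    rfl
  · exact hu.off w hw

end Pool.Agent.Helper859.Stk.L11
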