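import Pool.Agent.Helper859.Stk.Alg
set_option linter.all false
open Metric Set Filter Topology

namespace Pool.Agent.Helper859.Stk.L18a
open Pool.Agent.Helper859.Stk

--ALG
theorem fibre {t : ℂ} (ht : t ^ 2 = -7) (v : ℂ) (h0 : v ≠ 0) (h1 : v ≠ 1728) :
    ∃ s : Finset ℂ, s.card = 7 ∧ ∀ x, x ∈ s ↔ pS t x = v := by
  classical
  set P : Polynomial ℂ := Polynomial.X * (Polynomial.X ^ 2 +
    Polynomial.C (7 * ((1 + t) / 2)) * Polynomial.X + Polynomial.C (7 * ((1 + t) / 2 - 3))) ^ 3
    - Polynomial.C v with hP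
  have hev : ∀ x, P.eval x = pS t x - v := by
    intro x
    simp [hP, pS]
  have hdeg : P.natDegree = 7 := by
    rw [hP]
    compute_degree!
  have hne : P ≠ 0 := by
    intro h
    rw [h] at hdeg
    simp at hdeg
  have hder : ∀ x, P.derivative.eval x = 7 * qq t x ^ 2 * rr t x := by
    intro x
    have e1 := P.hasDerivAt x
    have e2 : (fun x => P.eval x) = fun x => pS t x - v := funext hev
    have e3 : HasDerivAt (fun x => P.eval x) (7 * qq t x ^ 2 * rr t x) x := by
      rw [e2]
      exact (pS_deriv t x).sub_const v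
    exact e1.unique e3
  have hnod : P.roots.Nodup := by
    rw [Multiset.nodup_iff_count_le_one]
    intro x
    rw [Polynomial.count_roots]
    by_contra hcon
    push Not at hcon
    obtain ⟨e1, e2⟩ := (Polynomial.one_lt_rootMultiplicity_iff_isRoot hne).1 hcon
    rw [Polynomial.IsRoot.def, hder] at e2
    rw [Polynomial.IsRoot.def, hev, sub_eq_zero] at e1
    rcases crit ht e2 with h | h
    · exact h0 (e1.symm.trans h)
    · exact h1 (e1.symm.trans h)
  have hcard : P.roots.card = 7 := by
    rw [← hdeg]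
    exact (Polynomial.splits_iff_card_roots.1 (IsAlgClosed.splits P))
  refine ⟨P.roots.toFinset, ?_, fun x => ?_⟩
  · rw [Multiset.toFinset_card_of_nodup hnod, hcard]
  · rw [Multiset.mem_toFinset, Polynomial.mem_roots hne, Polynomial.IsRoot.def, hev, sub_eq_zero]

end Pool.Agent.Helper859.Stk.L18a
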