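import Mathlib

set_option autoImplicit false
open Complex Set Filter Metric Topology Function

namespace Pool.Agent.Helper859.Stk.Riemann

/-- uniformly bounded holomorphic functions converging pointwise converge locally uniformly -/
theorem tlu_of_pointwise {ι : Type*} {l : Filter ι} [l.NeBot] {U : Set ℂ} (hU : IsOpen U)
    {F : ι → ℂ → ℂ} {f : ℂ → ℂ} {M : ℝ}
    (hd : ∀ i, DifferentiableOn ℂ (F i) U) (hb : ∀ i, ∀ z ∈ U, ‖F i z‖ ≤ M)
    (hp : ∀ z ∈ U, Tendsto (fun i => F i z) l (𝓝 (f z))) :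
    TendstoLocallyUniformlyOn F f l U := by
  obtain ⟨i0⟩ : Nonempty ι := l.nonempty_of_neBot
  rw [Metric.tendstoLocallyUniformlyOn_iff]
  intro ε hε x hx
  obtain ⟨R, hR, hRU⟩ := Metric.isOpen_iff.1 hU x hx
  have hM : 0 ≤ M := le_trans (norm_nonneg _) (hb i0 x hx)
  have key : ∀ i, ∀ z ∈ ball x R, dist (F i z) (F i x) ≤ (2 * M + 1) / R * dist z x := by
    intro i z hz
    apply Complex.dist_le_div_mul_dist_of_mapsTo_ball ((hd i).mono hRU) _ hz
    intro w hw
    rw [mem_closedBall, dist_eq_norm]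
    have h1 := hb i w (hRU hw)
    have h2 := hb i x hx
    have h3 := norm_sub_le (F i w) (F i x)
    linarith
  set L : ℝ := (2 * M + 1) / R with hL
  have hLp : 0 < L := by positivity
  have keyf : ∀ z ∈ ball x R, dist (f z) (f x) ≤ L * dist z x := by
    intro z hz
    have h1 : Tendsto (fun i => dist (F i z) (F i x)) l (𝓝 (dist (f z) (f x))) :=
      (hp z (hRU hz)).dist (hp x hx)
    exact le_of_tendsto h1 (Eventually.of_forall fun i => key i z hz)
  refine ⟨ball x (min R (ε / (4 * L))), mem_nhdsWithin_of_mem_nhds (ball_mem_nhds _ (by positivity)), ?_⟩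
  have hx' : ∀ᶠ i in l, dist (F i x) (f x) < ε / 4 := (Metric.tendsto_nhds.1 (hp x hx)) _ (by positivity)
  filter_upwards [hx'] with i hi y hy
  have hy1 : y ∈ ball x R := ball_subset_ball (min_le_left _ _) hy
  have hy2 : dist y x < ε / (4 * L) := lt_of_lt_of_le hy (min_le_right _ _)
  have hy3 : L * dist y x < ε / 4 := by
    calc L * dist y x < L * (ε / (4 * L)) := by gcongr
      _ = ε / 4 := by field_simp
  have h1 := key i y hy1
  have h2 := keyf y hy1
  calc dist (f y) (F i y) ≤ dist (f y) (f x) + dist (f x) (F i x) + dist (F i x) (F i y) :=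
        dist_triangle4 _ _ _ _
    _ < ε := by
        rw [dist_comm (f x), dist_comm (F i x) (F i y)]
        linarith

/-- Hurwitz, local form. -/
theorem hurwitz {ι : Type*} {l : Filter ι} [l.NeBot] {V : Set ℂ} (hV : IsOpen V)
    {F : ι → ℂ → ℂ} {f : ℂ → ℂ}
    (hd : ∀ i, DifferentiableOn ℂ (F i) V) (hlim : TendstoLocallyUniformlyOn F f l V)
    (hne : ∀ i, ∀ z ∈ V, F i z ≠ 0) {a : ℂ} (ha : a ∈ V) (h0 : f a = 0) :
    ∀ᶠ z in 𝓝 a, f z = 0 := by
  have hfd : DifferentiableOn ℂ f V := hlim.differentiableOn (Eventually.of_forall hd) hV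
  have hfa : AnalyticAt ℂ f a := hfd.analyticAt (hV.mem_nhds ha)
  rcases hfa.eventually_eq_zero_or_eventually_ne_zero with h | h
  · exact h
  exfalso
  rw [eventually_nhdsWithin_iff, Metric.eventually_nhds_iff_ball] at h
  obtain ⟨r1, hr1, h1⟩ := h
  obtain ⟨r2, hr2, h2⟩ := Metric.isOpen_iff.1 hV a ha
  set r : ℝ := min r1 r2 / 2 with hr
  have hrp : 0 < r := by positivity
  have hr1' : r < r1 := by have := min_le_left r1 r2; have : 0 < min r1 r2 := by positivity
                           linarith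
  have hr2' : r < r2 := by have := min_le_right r1 r2; have : 0 < min r1 r2 := by positivity
                           linarith
  have hcb : closedBall a r ⊆ V := (closedBall_subset_ball hr2').trans h2
  have hsph : IsCompact (sphere a r) := isCompact_sphere a r
  have hne' : (sphere a r).Nonempty := NormedSpace.sphere_nonempty.2 hrp.le
  have hcont : ContinuousOn (fun z => ‖f z‖) (sphere a r) :=
    (hfd.continuousOn.mono (sphere_subset_closedBall.trans hcb)).norm
  obtain ⟨w, hw, hwmin⟩ := hsph.exists_isMinOn hne' hcont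
  have hδ : 0 < ‖f w‖ := by
    rw [norm_pos_iff]
    apply h1 w
    · have : dist w a = r := hw
      rw [mem_ball, this]; exact hr1'
    · intro hwa
      have : dist w a = r := hw
      rw [hwa, dist_self] at this
      linarith
  set δ := ‖f w‖ with hδdef
  have hunif : TendstoUniformlyOn F f l (closedBall a r) :=
    (tendstoLocallyUniformlyOn_iff_forall_isCompact hV).1 hlim _ hcb (isCompact_closedBall a r)
  have hev := (Metric.tendstoUniformlyOn_iff.1 hunif) (δ / 2) (by positivity)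
  obtain ⟨i, hi⟩ := hev.exists
  have hsphb : ∀ z ∈ sphere a r, δ / 2 ≤ ‖F i z‖ := by
    intro z hz
    have h3 := hi z (sphere_subset_closedBall hz)
    have h4 : δ ≤ ‖f z‖ := hwmin hz
    rw [dist_eq_norm] at h3
    have h5 : ‖f z‖ - ‖F i z‖ ≤ ‖f z - F i z‖ := norm_sub_norm_le _ _
    linarith
  have hctr : ‖F i a‖ < δ / 2 := by
    have h3 := hi a (mem_closedBall_self hrp.le)
    rw [dist_eq_norm, h0, zero_sub, norm_neg] at h3
    exact h3
  have hdc : DiffContOnCl ℂ (fun z => (F i z)⁻¹) (ball a r) := by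
    apply DifferentiableOn.diffContOnCl
    rw [closure_ball a hrp.ne']
    exact ((hd i).mono hcb).inv (fun z hz => hne i z (hcb hz))
  have hmax := Complex.norm_le_of_forall_mem_frontier_norm_le (C := 2 / δ) isBounded_ball hdc
    (by
      intro z hz
      rw [frontier_ball a hrp.ne'] at hz
      rw [norm_inv]
      have h3 := hsphb z hz
      rw [inv_le_comm₀ (by linarith) (by positivity)]
      rw [inv_div]
      exact h3) (subset_closure (mem_ball_self hrp))
  rw [norm_inv] at hmax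
  have hpos : 0 < ‖F i a‖ := norm_pos_iff.2 (hne i a ha)
  rw [inv_le_comm₀ hpos (by positivity), inv_div] at hmax
  linarith

/-- Blaschke factor -/
noncomputable def bl (c w : ℂ) : ℂ := (w - c) / (1 - (starRingEnd ℂ) c * w)

theorem bl_den_ne {c w : ℂ} (hc : ‖c‖ < 1) (hw : ‖w‖ < 1) : 1 - (starRingEnd ℂ) c * w ≠ 0 := by
  intro h
  have h1 : (starRingEnd ℂ) c * w = 1 := by linear_combination -h
  have h2 : ‖(starRingEnd ℂ) c * w‖ = 1 := by rw [h1]; simp
  rw [norm_mul, RCLike.norm_conj] at h2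
  have : ‖c‖ * ‖w‖ < 1 := by
    nlinarith [norm_nonneg c, norm_nonneg w]
  linarith

theorem bl_norm_lt {c w : ℂ} (hc : ‖c‖ < 1) (hw : ‖w‖ < 1) : ‖bl c w‖ < 1 := by
  have hne := bl_den_ne hc hw
  rw [bl, norm_div, div_lt_one (norm_pos_iff.2 hne)]
  have h1 : ‖w - c‖ ^ 2 < ‖1 - (starRingEnd ℂ) c * w‖ ^ 2 := by
    have e1 : ‖w - c‖ ^ 2 = ‖w‖ ^ 2 + ‖c‖ ^ 2 - 2 * (w * (starRingEnd ℂ) c).re := by
      rw [← Complex.normSq_eq_norm_sq, ← Complex.normSq_eq_norm_sq, ← Complex.normSq_eq_norm_sq,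
        Complex.normSq_sub]
    have e2 : ‖1 - (starRingEnd ℂ) c * w‖ ^ 2 = 1 + ‖w‖ ^ 2 * ‖c‖ ^ 2 - 2 * (w * (starRingEnd ℂ) c).re := by
      rw [← Complex.normSq_eq_norm_sq, ← Complex.normSq_eq_norm_sq, ← Complex.normSq_eq_norm_sq,
        Complex.normSq_sub]
      simp [Complex.normSq_mul, Complex.normSq_conj, mul_comm]
    rw [e1, e2]
    have h3 : ‖c‖ ^ 2 < 1 := by nlinarith [norm_nonneg c]
    have h4 : ‖w‖ ^ 2 < 1 := by nlinarith [norm_nonneg w]
    nlinarith
  exact lt_of_pow_lt_pow_left₀ 2 (norm_nonneg _) h1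

theorem bl_hasDerivAt {c w : ℂ} (hc : ‖c‖ < 1) (hw : ‖w‖ < 1) :
    HasDerivAt (bl c) ((1 - (starRingEnd ℂ) c * c) / (1 - (starRingEnd ℂ) c * w) ^ 2) w := by
  have hne := bl_den_ne hc hw
  have h1 : HasDerivAt (fun w : ℂ => w - c) 1 w := (hasDerivAt_id w).sub_const c
  have h2 : HasDerivAt (fun w : ℂ => 1 - (starRingEnd ℂ) c * w) (-(starRingEnd ℂ) c) w := by
    have := ((hasDerivAt_id w).const_mul ((starRingEnd ℂ) c)).const_sub 1
    simpa using this
  have h3 := h1.div h2 hne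
  refine h3.congr_deriv ?_
  congr 1
  ring

theorem bl_deriv_ne {c w : ℂ} (hc : ‖c‖ < 1) (hw : ‖w‖ < 1) :
    (1 - (starRingEnd ℂ) c * c) / (1 - (starRingEnd ℂ) c * w) ^ 2 ≠ 0 :=
  div_ne_zero (bl_den_ne hc hc) (pow_ne_zero _ (bl_den_ne hc hw))

theorem bl_inj {c w v : ℂ} (hc : ‖c‖ < 1) (hw : ‖w‖ < 1) (hv : ‖v‖ < 1) (h : bl c w = bl c v) :
    w = v := by
  have h1 := bl_den_ne hc hw
  have h2 := bl_den_ne hc hv
  rw [bl, bl, div_eq_div_iff h1 h2] at h
  have h3 : (w - v) * (1 - (starRingEnd ℂ) c * c) = 0 := by linear_combination h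
  rcases mul_eq_zero.1 h3 with h4 | h4
  · linear_combination h4
  · exact absurd h4 (bl_den_ne hc hc)

theorem bl_self (c : ℂ) : bl c c = 0 := by simp [bl]

theorem bl_zero (c : ℂ) : bl c 0 = -c := by simp [bl]

theorem bl_eq_zero {c w : ℂ} (hc : ‖c‖ < 1) (hw : ‖w‖ < 1) (h : bl c w = 0) : w = c := by
  rw [← bl_self c] at h
  exact bl_inj hc hw hc h

/-- derivative of a continuous square root -/
theorem sqrt_hasDerivAt {h k : ℂ → ℂ} {z k' : ℂ} (hc : ContinuousAt h z) (hk : HasDerivAt k k' z)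
    (he : ∀ x, h x ^ 2 = k x) (hz : h z ≠ 0) : HasDerivAt h (k' / (2 * h z)) z := by
  rw [hasDerivAt_iff_tendsto_slope] at hk ⊢
  have h1 : Tendsto (fun x => h x + h z) (𝓝[≠] z) (𝓝 (2 * h z)) := by
    have : Tendsto (fun x => h x + h z) (𝓝 z) (𝓝 (h z + h z)) := hc.tendsto.add tendsto_const_nhds
    rw [← two_mul] at this
    exact this.mono_left nhdsWithin_le_nhds
  have hne : (2 * h z) ≠ 0 := mul_ne_zero two_ne_zero hz
  have h2 := hk.div h1 hne
  refine h2.congr' ?_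
  have h3 : ∀ᶠ x in 𝓝[≠] z, h x + h z ≠ 0 := h1.eventually_ne hne
  filter_upwards [h3, self_mem_nhdsWithin] with x hx hxz
  have hxz' : x - z ≠ 0 := sub_ne_zero.2 hxz
  simp only [slope_def_field, Pi.div_apply]
  rw [← he x, ← he z]
  field_simp
  ring

open scoped Pointwise in
/-- Step 1 (after Mathlib, Y. Kudryashov). -/
theorem exists_injective_not_dense_image_deriv_ne_zero {U : Set ℂ} (hUo : IsOpen U)
    (hUc : IsSimplyConnected U) (hU : U ≠ univ) :
    ∃ f : ℂ → ℂ, Injective f ∧ ¬Dense (f '' U) ∧ ∀ z ∈ U, deriv f z ≠ 0 := by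
  wlog hU₀ : 0 ∉ U
  · rw [ne_univ_iff_exists_notMem] at hU
    rcases hU with ⟨a, ha⟩
    specialize this (hUo.vadd (-a)) (by simpa) (by simp [hU])
      (by simpa [mem_vadd_set_iff_neg_vadd_mem])
    rcases this with ⟨f, hf_inj, hf_dense, hdf⟩
    refine ⟨f ∘ (-a + ·), hf_inj.comp (add_right_injective (-a)), ?_, fun z hz ↦ ?_⟩
    · simpa only [← image_vadd, Set.image_image] using! hf_dense
    · simpa [Function.comp_def, deriv_comp_const_add] using hdf (-a + z) (mapsTo_image _ _ hz)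
  rcases exists_continuousOn_pow_eq hUc hUo continuousOn_id (by rwa [image_id]) two_ne_zero
    with ⟨f, hfc, hf_inv⟩
  replace hf_inv : LeftInverse (· ^ 2) f := hf_inv
  have hf₀ : ∀ z ∈ U, f z ≠ 0 := by
    intro z hz hfz
    simpa [hfz, (ne_of_mem_of_not_mem hz hU₀).symm] using hf_inv z
  have hdf : ∀ z ∈ U, HasStrictDerivAt f (2 * f z)⁻¹ z := by
    intro z hz
    apply HasStrictDerivAt.of_local_left_inverse
    · exact hfc.continuousAt <| hUo.mem_nhds hz
    · simpa using hasStrictDerivAt_pow 2 (f z)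
    · simpa using hf₀ z hz
    · exact .of_forall hf_inv
  refine ⟨f, hf_inv.injective, ?_, fun z hz ↦ ?_⟩
  · -- Take a point `x ∈ U`.
    simp only [Dense, not_forall, mem_closure_iff_frequently, not_frequently]
    rcases hUc.nonempty with ⟨x, hx⟩
    use -f x
    have : f '' U ∈ 𝓝 (f x) := by
      rw [← (hdf x hx).map_nhds_eq (by simpa using hf₀ x hx)]
      exact Filter.image_mem_map <| hUo.mem_nhds hx
    rw [nhds_neg, eventually_neg]
    filter_upwards [this]
    rintro _ ⟨a, ha, rfl⟩ ⟨b, hb, hab⟩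
    obtain rfl : a = b := by
      rw [← hf_inv b, hab]
      simp [hf_inv a]
    refine hf₀ a ha ?_
    linear_combination hab / 2
  · simpa [(hdf z hz).hasDerivAt.deriv] using hf₀ z hz

open scoped Pointwise in
/-- Step 2 (after Mathlib, Y. Kudryashov). -/
theorem exists_mapsTo_unitBall_injOn_deriv_ne_zero {U : Set ℂ} (hUo : IsOpen U)
    (hUc : IsSimplyConnected U) (hU : U ≠ univ) :
    ∃ f : ℂ → ℂ, MapsTo f U (ball 0 1) ∧ InjOn f U ∧ ∀ z ∈ U, deriv f z ≠ 0 := by
  rcases exists_injective_not_dense_image_deriv_ne_zero hUo hUc hU with ⟨f, hf_inj, hfd, hdf⟩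
  obtain ⟨x, ε, hε₀, hε⟩ : ∃ (x : ℂ) (ε : ℝ), 0 < ε ∧ ∀ a ∈ U, ε < dist (f a) x := by
    simpa [Dense, mem_closure_iff_nhds_basis Metric.nhds_basis_closedBall] using hfd
  have hfx : ∀ z ∈ U, f z ≠ x := fun z hz ↦ by simpa using hε₀.trans (hε z hz)
  use fun z ↦ ε / (f z - x)
  refine ⟨?mapsTo, ?injOn, ?deriv⟩
  case mapsTo =>
    intro z hz
    rw [mem_ball_zero_iff, norm_div, norm_real, Real.norm_of_nonneg hε₀.le, div_lt_one₀]
    · simpa [dist_eq_norm] using hε z hz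
    · simpa [sub_eq_zero] using hfx z hz
  case injOn =>
    intro z hz w hw heq
    simpa [div_eq_mul_inv, hε₀.ne', hf_inj.eq_iff] using heq
  case deriv =>
    intro z hz
    have hdz : DifferentiableAt ℂ f z := differentiableAt_of_deriv_ne_zero (hdf z hz)
    rw [(hasDerivAt_const _ _).fun_div (hdz.hasDerivAt.sub_const _) _ |>.deriv] <;>
      simp [*, ne_of_gt, sub_eq_zero]


/-- The class of competitors. -/
def Comp (U : Set ℂ) (a : ℂ) (φ : ℂ → ℂ) : Prop :=
  DifferentiableOn ℂ φ U ∧ MapsTo φ U (ball 0 1) ∧ InjOn φ U ∧ (∀ z ∈ U, deriv φ z ≠ 0) ∧ φ a = 0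

theorem comp_bl {U : Set ℂ} (hU : IsOpen U) {φ : ℂ → ℂ} {c : ℂ} (hc : ‖c‖ < 1)
    (h1 : DifferentiableOn ℂ φ U) (h2 : MapsTo φ U (ball 0 1)) (h3 : InjOn φ U)
    (h4 : ∀ z ∈ U, deriv φ z ≠ 0) :
    DifferentiableOn ℂ (fun z => bl c (φ z)) U ∧ MapsTo (fun z => bl c (φ z)) U (ball 0 1) ∧
    InjOn (fun z => bl c (φ z)) U ∧ (∀ z ∈ U, deriv (fun z => bl c (φ z)) z ≠ 0) ∧
    (∀ z ∈ U, HasDerivAt (fun z => bl c (φ z))
      ((1 - (starRingEnd ℂ) c * c) / (1 - (starRingEnd ℂ) c * φ z) ^ 2 * deriv φ z) z) := by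
  have hlt : ∀ z ∈ U, ‖φ z‖ < 1 := fun z hz => by simpa using h2 hz
  have hder : ∀ z ∈ U, HasDerivAt (fun z => bl c (φ z))
      ((1 - (starRingEnd ℂ) c * c) / (1 - (starRingEnd ℂ) c * φ z) ^ 2 * deriv φ z) z := by
    intro z hz
    have hd : HasDerivAt φ (deriv φ z) z :=
      (h1.differentiableAt (hU.mem_nhds hz)).hasDerivAt
    exact (bl_hasDerivAt hc (hlt z hz)).comp z hd
  refine ⟨fun z hz => (hder z hz).differentiableAt.differentiableWithinAt, ?_, ?_, ?_, hder⟩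
  · intro z hz
    simpa using bl_norm_lt hc (hlt z hz)
  · intro z hz w hw h
    exact h3 hz hw (bl_inj hc (hlt z hz) (hlt w hw) h)
  · intro z hz
    rw [(hder z hz).deriv]
    exact mul_ne_zero (bl_deriv_ne hc (hlt z hz)) (h4 z hz)

theorem improve {U : Set ℂ} (hU : IsOpen U) (hUc : IsSimplyConnected U) {a : ℂ} (ha : a ∈ U)
    {φ : ℂ → ℂ} (hφ : Comp U a φ) {c : ℂ} (hc : ‖c‖ < 1) (hcU : ∀ z ∈ U, φ z ≠ c) :
    ∃ ψ, Comp U a ψ ∧ ‖deriv φ a‖ < ‖deriv ψ a‖ := by
  obtain ⟨h1, h2, h3, h4, h5⟩ := hφ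
  have hlt : ∀ z ∈ U, ‖φ z‖ < 1 := fun z hz => by simpa using h2 hz
  obtain ⟨k1, k2, k3, k4, k5⟩ := comp_bl hU hc h1 h2 h3 h4
  have k2' : ∀ z ∈ U, ‖bl c (φ z)‖ < 1 := fun z hz => by simpa using k2 hz
  have k0 : ∀ z ∈ U, bl c (φ z) ≠ 0 := by
    intro z hz h
    exact hcU z hz (bl_eq_zero hc (hlt z hz) h)
  obtain ⟨h, hhc, hh⟩ := Complex.exists_continuousOn_pow_eq hUc hU (g := fun z => bl c (φ z))
    k1.continuousOn (by rintro ⟨z, hz, h0⟩; exact k0 z hz h0) two_ne_zero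
  have hne : ∀ z ∈ U, h z ≠ 0 := by
    intro z hz h0
    have := hh z
    rw [h0] at this
    exact k0 z hz (by rw [← this]; simp)
  have hder : ∀ z ∈ U, HasDerivAt h (deriv (fun z => bl c (φ z)) z / (2 * h z)) z := by
    intro z hz
    exact sqrt_hasDerivAt (hhc.continuousAt (hU.mem_nhds hz))
      (k1.differentiableAt (hU.mem_nhds hz)).hasDerivAt hh (hne z hz)
  have hnorm : ∀ z, ‖h z‖ ^ 2 = ‖bl c (φ z)‖ := fun z => by rw [← norm_pow, hh z]
  have hlt' : ∀ z ∈ U, ‖h z‖ < 1 := by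
    intro z hz
    have e1 := hnorm z
    have e2 := k2' z hz
    by_contra hcon
    push Not at hcon
    nlinarith [norm_nonneg (h z)]
  have hda : ‖h a‖ < 1 := hlt' a ha
  obtain ⟨m1, m2, m3, m4, m5⟩ := comp_bl (φ := h) hU hda
    (fun z hz => (hder z hz).differentiableAt.differentiableWithinAt)
    (fun z hz => by simpa using hlt' z hz)
    (fun z hz w hw hzw => by
      apply k3 hz hw
      show bl c (φ z) = bl c (φ w)
      rw [← hh z, ← hh w, hzw])
    (fun z hz => by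
      rw [(hder z hz).deriv]
      exact div_ne_zero (k4 z hz) (mul_ne_zero two_ne_zero (hne z hz)))
  refine ⟨fun z => bl (h a) (h z), ⟨m1, m2, m3, m4, bl_self _⟩, ?_⟩
  rw [(m5 a ha).deriv, (hder a ha).deriv, (k5 a ha).deriv, h5]
  have ec : ‖h a‖ ^ 2 = ‖c‖ := by
    rw [hnorm a, h5, bl_zero, norm_neg]
  have hc0 : c ≠ 0 := by
    intro h0
    exact hcU a ha (by rw [h5, h0])
  have ht0 : 0 < ‖h a‖ := norm_pos_iff.2 (hne a ha)
  set t := ‖h a‖ with ht
  have e1 : ‖(1 : ℂ) - (starRingEnd ℂ) (h a) * h a‖ = 1 - t ^ 2 := by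
    have : (1 : ℂ) - (starRingEnd ℂ) (h a) * h a = ((1 - t ^ 2 : ℝ) : ℂ) := by
      rw [mul_comm, Complex.mul_conj, Complex.normSq_eq_norm_sq]
      push_cast
      rfl
    rw [this, Complex.norm_real, Real.norm_of_nonneg]
    nlinarith
  have e2 : ‖(1 : ℂ) - (starRingEnd ℂ) c * c‖ = 1 - t ^ 4 := by
    have : (1 : ℂ) - (starRingEnd ℂ) c * c = ((1 - t ^ 4 : ℝ) : ℂ) := by
      rw [mul_comm, Complex.mul_conj, Complex.normSq_eq_norm_sq, ← ec]
      push_cast
      ring
    rw [this, Complex.norm_real, Real.norm_of_nonneg]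
    have : t ^ 2 < 1 := by nlinarith
    nlinarith [sq_nonneg t]
  have hφ0 : 0 < ‖deriv φ a‖ := norm_pos_iff.2 (h4 a ha)
  rw [norm_mul, norm_div, norm_pow, norm_div, norm_mul, norm_div, norm_pow, e1, norm_mul, e2]
  have e3 : ‖(1 : ℂ) - (starRingEnd ℂ) c * 0‖ = 1 := by simp
  have e4 : ‖(2 : ℂ)‖ = 2 := by simp
  rw [e3, e4]
  have ht1 : 0 < 1 - t ^ 2 := by nlinarith
  have e5 : (1 - t ^ 2) / (1 - t ^ 2) ^ 2 * ((1 - t ^ 4) / 1 ^ 2 * ‖deriv φ a‖ / (2 * t))
      = ‖deriv φ a‖ * ((1 + t ^ 2) / (2 * t)) := by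
    field_simp
    ring
  rw [e5]
  have e6 : 1 < (1 + t ^ 2) / (2 * t) := by
    rw [lt_div_iff₀ (by positivity)]
    nlinarith [sq_nonneg (1 - t)]
  nlinarith


theorem limit_comp {U : Set ℂ} (hU : IsOpen U) (hUp : IsPreconnected U) {a : ℂ} (ha : a ∈ U)
    {F : ℕ → ℂ → ℂ} (hF : ∀ n, Comp U a (F n)) {M : ℝ} (hM : 0 < M)
    (hlim : Tendsto (fun n => ‖deriv (F n) a‖) atTop (𝓝 M)) :
    ∃ f, Comp U a f ∧ ‖deriv f a‖ = M := by
  -- ultrafilter limit
  set l : Ultrafilter ℕ := Filter.hyperfilter ℕ with hl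
  have hle : (l : Filter ℕ) ≤ atTop := by
    rw [← Nat.cofinite_eq_atTop]; exact Filter.hyperfilter_le_cofinite
  have hpt : ∀ z ∈ U, ∃ y : ℂ, Tendsto (fun n => F n z) l (𝓝 y) := by
    intro z hz
    have hcomp : IsCompact (closedBall (0 : ℂ) 1) := isCompact_closedBall _ _
    have hmem : (Ultrafilter.map (fun n => F n z) l : Filter ℂ) ≤ 𝓟 (closedBall (0 : ℂ) 1) := by
      rw [le_principal_iff]
      show (fun n => F n z) ⁻¹' (closedBall (0 : ℂ) 1) ∈ (l : Filter ℕ)
      apply Filter.univ_mem'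
      intro n
      exact ball_subset_closedBall ((hF n).2.1 hz)
    obtain ⟨y, _, hy⟩ := hcomp.ultrafilter_le_nhds _ hmem
    exact ⟨y, hy⟩
  classical
  choose! f hf using hpt
  have hd : ∀ n, DifferentiableOn ℂ (F n) U := fun n => (hF n).1
  have hb : ∀ n, ∀ z ∈ U, ‖F n z‖ ≤ 1 := fun n z hz => by
    have := (hF n).2.1 hz
    rw [mem_ball_zero_iff] at this
    exact this.le
  have htlu : TendstoLocallyUniformlyOn F f (l : Filter ℕ) U := tlu_of_pointwise hU hd hb hf
  have hfd : DifferentiableOn ℂ f U := htlu.differentiableOn (Eventually.of_forall hd) hU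
  have hderlim : TendstoLocallyUniformlyOn (deriv ∘ F) (deriv f) (l : Filter ℕ) U :=
    htlu.deriv (Eventually.of_forall hd) hU
  have hfa : f a = 0 := by
    have h1 := hf a ha
    have h2 : Tendsto (fun n => F n a) (l : Filter ℕ) (𝓝 0) := by
      have : (fun n => F n a) = fun _ => (0 : ℂ) := by
        funext n; exact (hF n).2.2.2.2
      rw [this]; exact tendsto_const_nhds
    exact tendsto_nhds_unique h1 h2
  have hderM : ‖deriv f a‖ = M := by
    have h1 : Tendsto (fun n => ‖deriv (F n) a‖) (l : Filter ℕ) (𝓝 ‖deriv f a‖) :=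
      (hderlim.tendsto_at ha).norm
    exact tendsto_nhds_unique h1 (hlim.mono_left hle)
  have hder0 : deriv f a ≠ 0 := by
    intro h; rw [h, norm_zero] at hderM; linarith
  have hana : AnalyticOnNhd ℂ f U := hfd.analyticOnNhd hU
  -- derivative never zero
  have hdernz : ∀ z ∈ U, deriv f z ≠ 0 := by
    intro z hz h0
    have hev := hurwitz (l := (l : Filter ℕ)) hU (F := fun n => deriv (F n)) (f := deriv f)
      (fun n => (hd n).deriv hU) hderlim (fun n w hw => (hF n).2.2.2.1 w hw) hz h0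
    have hana' : AnalyticOnNhd ℂ (deriv f) U := hana.deriv
    have := hana'.eqOn_zero_of_preconnected_of_eventuallyEq_zero hUp hz hev
    exact hder0 (this ha)
  -- injective
  have hinj : InjOn f U := by
    intro z hz w hw hzw
    by_contra hne
    have hV : IsOpen (U \ {w}) := hU.sdiff isClosed_singleton
    have hzV : z ∈ U \ {w} := ⟨hz, hne⟩
    have htlu' : TendstoLocallyUniformlyOn (fun n x => F n x - F n w) (fun x => f x - f w)
        (l : Filter ℕ) (U \ {w}) := by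
      apply tlu_of_pointwise (M := 2) hV
      · intro n
        exact ((hd n).mono sdiff_subset).sub_const _
      · intro n x hx
        have h1 := hb n x hx.1
        have h2 := hb n w hw
        have h3 := norm_sub_le (F n x) (F n w)
        linarith
      · intro x hx
        exact (hf x hx.1).sub (hf w hw)
    have hev := hurwitz (l := (l : Filter ℕ)) hV (F := fun n x => F n x - F n w)
      (f := fun x => f x - f w)
      (fun n => ((hd n).mono sdiff_subset).sub_const _) htlu'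
      (fun n x hx h0 => hx.2 ((hF n).2.2.1 hx.1 hw (by linear_combination h0))) hzV
      (by simp [hzw])
    have hana'' : AnalyticOnNhd ℂ (fun x => f x - f w) U := hana.sub analyticOnNhd_const
    have heq := hana''.eqOn_zero_of_preconnected_of_eventuallyEq_zero hUp hz hev
    have hc : f =ᶠ[𝓝 a] fun _ => f w := by
      filter_upwards [hU.mem_nhds ha] with x hx
      have := heq hx
      simp only [Pi.zero_apply] at this
      linear_combination this
    apply hder0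
    rw [hc.deriv_eq]
    simp
  -- maps into open ball
  have hmap : MapsTo f U (ball 0 1) := by
    intro z hz
    rw [mem_ball_zero_iff]
    have hcl : ∀ w ∈ U, ‖f w‖ ≤ 1 := fun w hw =>
      le_of_tendsto ((hf w hw).norm) (Eventually.of_forall fun n => hb n w hw)
    by_contra hcon
    push Not at hcon
    have hmax : IsMaxOn (norm ∘ f) U z := by
      intro w hw
      simp only [Function.comp, mem_ofPred_eq]
      exact (hcl w hw).trans hcon
    have heq := Complex.eqOn_of_isPreconnected_of_isMaxOn_norm hUp hU hfd hz hmax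
    have h1 := heq ha
    rw [hfa] at h1
    simp only [Function.const_apply] at h1
    rw [← h1, norm_zero] at hcon
    linarith
  exact ⟨f, ⟨hfd, hmap, hinj, hdernz, hfa⟩, hderM⟩

/-- Riemann mapping theorem. -/
theorem riemann {U : Set ℂ} (hU : IsOpen U) (hUc : IsSimplyConnected U) (hne : U ≠ univ)
    {a : ℂ} (ha : a ∈ U) :
    ∃ φ : ℂ → ℂ, DifferentiableOn ℂ φ U ∧ BijOn φ U (ball 0 1) ∧ (∀ z ∈ U, deriv φ z ≠ 0) ∧
      φ a = 0 := by
  have hUp : IsPreconnected U := hUc.isPathConnected.isConnected.isPreconnected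
  obtain ⟨φ0, h1, h2, h3⟩ := exists_mapsTo_unitBall_injOn_deriv_ne_zero hU hUc hne
  have h0 : DifferentiableOn ℂ φ0 U := fun z hz =>
    (differentiableAt_of_deriv_ne_zero (h3 z hz)).differentiableWithinAt
  have hlt : ‖φ0 a‖ < 1 := by simpa using h1 ha
  obtain ⟨k1, k2, k3, k4, k5⟩ := comp_bl hU hlt h0 h1 h2 h3
  have hk : Comp U a (fun z => bl (φ0 a) (φ0 z)) := ⟨k1, k2, k3, k4, bl_self _⟩
  set S : Set ℝ := {x | ∃ φ, Comp U a φ ∧ ‖deriv φ a‖ = x} with hS
  have hSne : S.Nonempty := ⟨_, _, hk, rfl⟩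
  obtain ⟨R, hR, hRU⟩ := Metric.isOpen_iff.1 hU a ha
  have hSb : BddAbove S := by
    refine ⟨1 / R, ?_⟩
    rintro x ⟨φ, hφ, rfl⟩
    apply Complex.norm_deriv_le_div_of_mapsTo_ball (hφ.1.mono hRU) _ hR
    intro z hz
    rw [hφ.2.2.2.2]
    exact ball_subset_closedBall (hφ.2.1 (hRU hz))
  obtain ⟨u, hu1, hu2, hu3⟩ := exists_seq_tendsto_sSup hSne hSb
  choose F hF hFu using hu3
  have hMpos : 0 < sSup S := by
    refine lt_of_lt_of_le ?_ (le_csSup hSb ⟨_, hk, rfl⟩)
    exact norm_pos_iff.2 (k4 a ha)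
  obtain ⟨f, hf, hfM⟩ := limit_comp hU hUp ha hF hMpos (by simpa only [hFu] using hu2)
  refine ⟨f, hf.1, ⟨hf.2.1, hf.2.2.1, ?_⟩, hf.2.2.2.1, hf.2.2.2.2⟩
  intro c hc
  by_contra hcon
  obtain ⟨ψ, hψ, hlt'⟩ := improve hU hUc ha hf (by simpa using hc) (c := c)
    (fun z hz h => hcon ⟨z, hz, h⟩)
  have : ‖deriv ψ a‖ ≤ sSup S := le_csSup hSb ⟨ψ, hψ, rfl⟩
  linarith

/-- Riemann mapping theorem, inverse map, with both maps. -/
theorem riemann_inv {U : Set ℂ} (hU : IsOpen U) (hUc : IsSimplyConnected U) (hne : U ≠ univ)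
    {a : ℂ} (ha : a ∈ U) :
    ∃ g φ : ℂ → ℂ, DifferentiableOn ℂ g (ball 0 1) ∧ BijOn g (ball 0 1) U ∧
      (∀ z ∈ ball (0 : ℂ) 1, deriv g z ≠ 0) ∧ g 0 = a ∧
      DifferentiableOn ℂ φ U ∧ MapsTo φ U (ball 0 1) ∧ (∀ z ∈ U, g (φ z) = z) ∧
      (∀ z ∈ ball (0 : ℂ) 1, φ (g z) = z) := by
  obtain ⟨φ, h1, h2, h3, h4⟩ := riemann hU hUc hne ha
  have hleft : ∀ z ∈ U, Function.invFunOn φ U (φ z) = z := fun z hz =>
    h2.injOn.leftInvOn_invFunOn hz
  have hright : ∀ z ∈ ball (0 : ℂ) 1, φ (Function.invFunOn φ U z) = z := by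
    intro z hz
    obtain ⟨w, hw, rfl⟩ := h2.surjOn hz
    rw [hleft w hw]
  have hder : ∀ w ∈ U, HasStrictDerivAt (Function.invFunOn φ U) (deriv φ w)⁻¹ (φ w) := by
    intro w hw
    have hs : HasStrictDerivAt φ (deriv φ w) w :=
      ((h1.analyticAt (hU.mem_nhds hw)).hasStrictDerivAt)
    apply hs.to_local_left_inverse (h3 w hw)
    filter_upwards [hU.mem_nhds hw] with x hx
    exact hleft x hx
  refine ⟨Function.invFunOn φ U, φ, ?_, ⟨?_, ?_, ?_⟩, ?_, ?_, h1, h2.mapsTo, hleft, hright⟩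
  · intro z hz
    obtain ⟨w, hw, rfl⟩ := h2.surjOn hz
    exact (hder w hw).hasDerivAt.differentiableAt.differentiableWithinAt
  · intro z hz
    obtain ⟨w, hw, rfl⟩ := h2.surjOn hz
    rw [hleft w hw]; exact hw
  · intro z hz z' hz' h
    rw [← hright z hz, ← hright z' hz', h]
  · intro w hw
    exact ⟨φ w, h2.mapsTo hw, hleft w hw⟩
  · intro z hz
    obtain ⟨w, hw, rfl⟩ := h2.surjOn hz
    rw [(hder w hw).hasDerivAt.deriv]
    exact inv_ne_zero (h3 w hw)
  · rw [← h4]; exact hleft a ha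

end Pool.Agent.Helper859.Stk.Riemann
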