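import Pool.Agent.Helper859.Stk.L06
import Pool.Agent.Helper859.Stk.L07
import Pool.Agent.Helper859.Stk.L08a
import Pool.Agent.Helper859.Stk.L08b
import Pool.Agent.Helper859.Stk.L08c
import Pool.Agent.Helper859.Stk.L09a
import Pool.Agent.Helper859.Stk.L09b
import Pool.Agent.Helper859.Stk.L09c
import Pool.Agent.Helper859.Stk.L09d
import Pool.Agent.Helper859.Stk.L09f
import Pool.Agent.Helper859.Stk.L18a
import Pool.Agent.Helper859.Stk.L01
set_option linter.all false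
open Metric Set Filter Topology

namespace Pool.Agent.Helper859.Stk

theorem sq_neg {t : ℂ} (ht : t ^ 2 = -7) : (-t) ^ 2 = -7 := by rw [neg_sq]; exact ht

theorem hroot {t : ℂ} (ht : t ^ 2 = -7) (x y : ℂ) (h : hh t x y = 0) : pS t x = pS (-t) y := by
  have := fac ht x y
  rw [h, zero_mul] at this
  exact sub_eq_zero.1 this

theorem isOpen_X (s : ℂ) (R : ℝ) : IsOpen {x : ℂ | ‖pS s x - Complex.I‖ < R} := by
  apply isOpen_lt _ continuous_const
  unfold pS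
  fun_prop

theorem finite_fibre {s : ℂ} (hs : s ^ 2 = -7) (v : ℂ) : {y : ℂ | pS s y = v}.Finite := by
  set P : Polynomial ℂ := Polynomial.X * (Polynomial.X ^ 2 + Polynomial.C (7 * ((1 + s) / 2)) * Polynomial.X
    + Polynomial.C (7 * ((1 + s) / 2 - 3))) ^ 3 - Polynomial.C v with hP
  have he : ∀ y, P.eval y = pS s y - v := by
    intro y; simp [hP, pS]
  have hP0 : P ≠ 0 := by
    intro h0
    have h1 : ∀ y, pS s y = v := by
      intro y
      have := he y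
      rw [h0] at this
      simp at this
      exact (sub_eq_zero.1 this.symm)
    obtain ⟨s1, c1, m1⟩ := L18a.fibre hs 1 (by norm_num) (by norm_num)
    obtain ⟨s2, c2, m2⟩ := L18a.fibre hs 2 (by norm_num) (by norm_num)
    have n1 : s1.Nonempty := by rw [← Finset.card_pos, c1]; norm_num
    have n2 : s2.Nonempty := by rw [← Finset.card_pos, c2]; norm_num
    obtain ⟨x1, hx1⟩ := n1
    obtain ⟨x2, hx2⟩ := n2
    have e1 := (m1 x1).1 hx1
    have e2 := (m2 x2).1 hx2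
    rw [h1] at e1 e2
    rw [e1] at e2
    norm_num at e2
  have := Polynomial.finite_setOf_isRoot hP0
  refine this.subset ?_
  intro y hy
  simp only [mem_setOf_eq, Polynomial.IsRoot.def, he]
  have hy' : pS s y = v := hy
  rw [hy', sub_self]

theorem normB_lt {p : ℂ → ℂ} {R : ℝ} (hR : 0 < R) (D : Dat p R) {z : ℂ} (hz : z ∈ ball (0 : ℂ) 1) :
    ‖D.B z‖ < 1 := by
  have h1 := D.mφ z hz
  rw [D.pB z hz, norm_mul, Complex.norm_real, Real.norm_of_nonneg hR.le] at h1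
  nlinarith [norm_nonneg (D.B z)]

theorem transplant {t : ℂ} (ht : t ^ 2 = -7) {R σ : ℝ} (hR : 0 < R)
    (D₁ : Dat (fun x => pS t x - Complex.I) R) (D₂ : Dat (fun x => pS (-t) x - Complex.I) R)
    (U U' : ℂ → ℂ) (hU : DiscStek (fun z => ‖deriv D₁.B z‖) σ U U') :
    ∃ V V' : ℂ → ℂ, DiscStek (fun z => ‖deriv D₂.B z‖) σ V V' ∧
      ∀ z ∈ ball (0 : ℂ) 1, V z = rs t (D₂.φ z) (fun x => U (D₁.ψ x)) := by
  set Vf : ℂ → ℂ := fun z => rs t (D₂.φ z) (fun x => U (D₁.ψ x)) with hVf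
  have hconst : ∀ (A : Set ℂ) (x : Fin 7 → ℂ → ℂ) (y : ℂ → ℂ), IsPreconnected A →
      (∀ i, ContinuousOn (x i) A) → ContinuousOn y A →
      (∀ z ∈ A, Function.Injective (fun i => x i z)) →
      (∀ z ∈ A, ∀ i, pS t (x i z) = pS (-t) (y z)) →
      ∃ S : Finset (Fin 7), S.card = 3 ∧ ∀ z ∈ A, (hc t (y z)).roots = S.val.map (fun i => x i z) := by
    intro A x y hA hx hy hinj h
    exact L08b.const_split hA hx hy (fun z hz => L08a.fibre_split ht (hinj z hz) (h z hz))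
  have hbr : ∀ z₀ ∈ closedBall (0 : ℂ) 1, ∀ s : Finset ℂ, s.card = 7 →
      (∀ ζ ∈ s, ζ ∈ closedBall (0 : ℂ) 1 ∧ D₁.B ζ = D₂.B z₀ ∧ deriv D₁.B ζ ≠ 0) →
      ∃ β : Fin 3 → ℂ → ℂ, (∀ i, AnalyticAt ℂ (β i) z₀ ∧ β i z₀ ∈ s) ∧
      ∀ᶠ z in 𝓝 z₀, (∀ i, D₁.B (β i z) = D₂.B z) ∧ (‖z‖ < 1 → (∀ i, ‖β i z‖ < 1) ∧
        (hc t (D₂.φ z)).roots = Finset.univ.val.map (fun i => D₁.φ (β i z))) := by
    intro z₀ hz₀ s hs hs'
    exact L08c.branches hR D₁ D₂ (fun ζ w hζ hw h' => L07.local_inv D₁.dB D₁.B1 D₁.Bo hζ hw h')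
      hconst hz₀ s hs hs'
  -- continuity
  have hcont : ContinuousOn Vf (ball (0 : ℂ) 1) := by
    have h1 : ContinuousOn (fun x => U (D₁.ψ x)) {x : ℂ | ‖pS t x - Complex.I‖ < R} := by
      have hUc : ContinuousOn U (ball (0 : ℂ) 1) := hU.cU.mono ball_subset_closedBall
      exact hUc.comp D₁.dψ.continuousOn (fun x hx => D₁.mψ x hx)
    have h2 := L06.rs_cont (t := t) (Y := {x : ℂ | ‖pS (-t) x - Complex.I‖ < R}) h1 (by
      intro y hy x hx
      have := hroot ht x y hx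
      simp only [mem_setOf_eq] at hy ⊢
      rw [this]; exact hy)
    exact h2.comp D₂.dφ.continuousOn (fun z hz => D₂.mφ z hz)
  have hE : {z : ℂ | z ∈ ball (0 : ℂ) 1 ∧ ((R : ℂ) * D₂.B z + Complex.I = 0 ∨
      (R : ℂ) * D₂.B z + Complex.I = 1728)}.Finite := by
    have hf : ({y : ℂ | pS (-t) y = 0} ∪ {y : ℂ | pS (-t) y = 1728}).Finite :=
      (finite_fibre (sq_neg ht) 0).union (finite_fibre (sq_neg ht) 1728)
    refine Set.Finite.of_finite_image (f := D₂.φ) (hf.subset ?_) ?_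
    · rintro _ ⟨z, ⟨hz, h⟩, rfl⟩
      have := D₂.pB z hz
      rcases h with h | h
      · left; simp only [mem_setOf_eq]; linear_combination this + h
      · right; simp only [mem_setOf_eq]; linear_combination this + h
    · intro z hz z' hz' h
      rw [← D₂.ψφ z hz.1, ← D₂.ψφ z' hz'.1, h]
  have hholo : DifferentiableOn ℂ Vf (ball (0 : ℂ) 1) := by
    refine L09c.holo_of_finite hcont _ hE ?_
    intro z hz hzE
    simp only [mem_setOf_eq, not_and, not_or] at hzE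
    obtain ⟨h0, h1⟩ := hzE hz
    obtain ⟨s, hs, hs'⟩ := L09f.reg_fibre hR D₁ ht (normB_lt hR D₂ hz) h0 h1
      (fun v h0 h1 => L18a.fibre ht v h0 h1)
    obtain ⟨β, hβ, hev⟩ := hbr z (ball_subset_closedBall hz) s hs hs'
    obtain ⟨hd, -, -⟩ := L09a.loc D₁ D₂ hU (ball_subset_closedBall hz)
      (fun i => ⟨(hβ i).1, (hs' _ (hβ i).2).1⟩) hev
    rw [isOpen_ball.nhdsWithin_eq hz] at hd
    exact hd.self_of_nhds.differentiableAt
  have hbd : ∀ z₀ : ℂ, ‖z₀‖ = 1 → ∃ a a' : ℂ, Tendsto Vf (𝓝[ball (0 : ℂ) 1] z₀) (𝓝 a) ∧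
      Tendsto (deriv Vf) (𝓝[ball (0 : ℂ) 1] z₀) (𝓝 a') ∧
      (z₀ * a').re = σ * (fun z => ‖deriv D₂.B z‖) z₀ * a.re := by
    intro z₀ hz₀
    have hzs : z₀ ∈ sphere (0 : ℂ) 1 := by simpa using hz₀
    have hzc : z₀ ∈ closedBall (0 : ℂ) 1 := sphere_subset_closedBall hzs
    have hw : D₂.B z₀ ∈ sphere (0 : ℂ) 1 := by
      have := D₂.B1 z₀ hzs
      simpa using this
    obtain ⟨s, hs, hsf⟩ := D₁.fib _ hw
    have hs' : ∀ ζ ∈ s, ζ ∈ closedBall (0 : ℂ) 1 ∧ D₁.B ζ = D₂.B z₀ ∧ deriv D₁.B ζ ≠ 0 :=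
      fun ζ hζ => ⟨sphere_subset_closedBall (hsf ζ hζ).1, (hsf ζ hζ).2, D₁.B'0 ζ (hsf ζ hζ).1⟩
    obtain ⟨β, hβ, hev⟩ := hbr z₀ hzc s hs hs'
    obtain ⟨hd, hV, hV'⟩ := L09a.loc D₁ D₂ hU hzc
      (fun i => ⟨(hβ i).1, (hs' _ (hβ i).2).1⟩) hev
    refine ⟨_, _, hV, hV'.congr' ?_, ?_⟩
    · filter_upwards [hd] with z hz
      exact hz.deriv.symm
    · exact L09b.bdry hR D₁ D₂ hU (fun C C' ζ h1 h2 h3 h4 => L01.logJ h1 h2 h3 h4) hz₀
        (fun i => ⟨(hβ i).1, by simpa using (hsf _ (hβ i).2).1⟩)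
        (hev.mono fun z hz => hz.1)
  obtain ⟨V₁, V₁', hS, hVe⟩ := L09d.assemble hholo hbd
  exact ⟨V₁, V₁', hS, hVe⟩

end Pool.Agent.Helper859.Stk
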